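import Pool.Agent.H774.FN.Iso

/-!
# Algebraicity of the fiducial vectors
-/

set_option autoImplicit false
set_option linter.unusedSectionVars false

open Finset

namespace Pool.Agent.H774.FN

open Pool.Agent.Y387.SF Pool.Agent.Y387.MD Pool.Agent.H774.IS Pool.Agent.H774.CR

theorem exists_der_C {t : ℂ} (ht : Transcendental ℚ t) :
    ∃ D : ℂ → ℂ, (∀ a b, D (a + b) = D a + D b) ∧ (∀ a b, D (a * b) = a * D b + D a * b) ∧
      (∀ a, D (starRingEnd ℂ a) = starRingEnd ℂ (D a)) ∧ D t ≠ 0 := by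
  obtain ⟨D, h1, h2, h3, h4⟩ := exists_der ht
  have hI : starRingEnd ℂ Complex.I = - Complex.I := Complex.conj_I
  by_cases h5 : D t + starRingEnd ℂ (D (starRingEnd ℂ t)) = 0
  · refine ⟨fun z => Complex.I * (D z - starRingEnd ℂ (D (starRingEnd ℂ z))), fun a b => ?_,
      fun a b => ?_, fun a => ?_, ?_⟩
    · simp only [map_add, h1]
      ring
    · simp only [map_mul, h2, map_add, Complex.conj_conj]
      ring
    · simp only [map_mul, map_sub, Complex.conj_conj, hI]
      ring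
    · have h6 : starRingEnd ℂ (D (starRingEnd ℂ t)) = -1 := by
        rw [h4] at h5
        linear_combination h5
      simp only [h4, h6]
      rw [sub_neg_eq_add]
      apply mul_ne_zero Complex.I_ne_zero
      norm_num
  · refine ⟨fun z => D z + starRingEnd ℂ (D (starRingEnd ℂ z)), fun a b => ?_, fun a b => ?_,
      fun a => ?_, h5⟩
    · simp only [map_add, h1]
      ring
    · simp only [map_mul, h2, map_add, Complex.conj_conj]
      ring
    · simp only [map_add, Complex.conj_conj]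
      ring

theorem cpos {ι : Type} [Fintype ι] (f : ι → ℂ) (h : ∑ g, f g * starRingEnd ℂ (f g) = 0) (g : ι) :
    f g = 0 := by
  have h4 : ∑ g, ‖f g‖ ^ 2 = 0 := by
    have h5 : ((∑ g, ‖f g‖ ^ 2 : ℝ) : ℂ) = 0 := by
      rw [← h]
      push_cast
      refine Finset.sum_congr rfl fun g _ => ?_
      rw [Complex.mul_conj, Complex.normSq_eq_norm_sq]
      push_cast
      rfl
    exact_mod_cast h5
  have h6 := (Finset.sum_eq_zero_iff_of_nonneg fun g _ => by positivity).1 h4 g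
    (Finset.mem_univ g)
  simpa using h6

theorem der_root {D : ℂ → ℂ} (h1 : ∀ a b, D (a + b) = D a + D b)
    (h2 : ∀ a b, D (a * b) = a * D b + D a * b) {z : ℂ} {n : ℕ} (hn : n ≠ 0) (hz : z ^ n = 1) :
    D z = 0 := by
  have hD1 : D 1 = 0 := by
    have h := h2 1 1
    rw [one_mul, one_mul, mul_one] at h
    linear_combination -h
  have hpow : ∀ m : ℕ, D (z ^ (m + 1)) = (m + 1 : ℕ) * (z ^ m * D z) := by
    intro m
    induction m with
    | zero => simp
    | succ m ih =>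
      rw [pow_succ, h2, ih]
      push_cast
      ring
  obtain ⟨m, rfl⟩ := Nat.exists_eq_succ_of_ne_zero hn
  have h3 := hpow m
  rw [Nat.succ_eq_add_one] at hz
  rw [hz, hD1] at h3
  have hz0 : z ≠ 0 := by
    rintro rfl
    simp at hz
  have h4 : ((m + 1 : ℕ) : ℂ) ≠ 0 := Nat.cast_ne_zero.2 (Nat.succ_ne_zero m)
  have h5 := (mul_eq_zero.1 h3.symm).resolve_left h4
  exact (mul_eq_zero.1 h5).resolve_left (pow_ne_zero _ hz0)

variable {d : ℕ} [NeZero d]

/-- **Algebraicity.** -/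
theorem alg_fid (hd : Rigid d) {ψ : ZMod d → ℂ} (hψ : Fid ψ) (i j : ZMod d) :
    IsAlgebraic ℚ (ψ i * starRingEnd ℂ (ψ j)) := by
  by_contra hcon
  obtain ⟨D, hD1, hD2, hD4, hD5⟩ := exists_der_C hcon
  let S : Dat d ℂ :=
    { cj := starRingEnd ℂ
      χ := ZMod.stdAddChar
      D := D
      x := ψ
      prim := ZMod.isPrimitive_stdAddChar d
      cjcj := Complex.conj_conj
      cjχ := fun a => std_conj a
      Dadd := hD1
      Dmul := hD2
      Dcj := hD4
      Dχ := fun a => by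
        apply der_root hD1 hD2 (NeZero.ne d)
        rw [← AddChar.map_nsmul_eq_pow]
        simp
      pos := fun f hf => cpos f hf
      norm := hψ.1
      sic := hψ.2 }
  have hn : S.n = 0 := hd ℂ S
  have hY : ∀ k, S.Y k = 0 := by
    intro k
    have h1 : ∑ g, starRingEnd ℂ (S.Y g) * starRingEnd ℂ (starRingEnd ℂ (S.Y g)) = 0 := by
      rw [← hn]
      unfold Dat.n ip
      refine Finset.sum_congr rfl fun g _ => ?_
      rw [Complex.conj_conj]
    have h2 := cpos (fun k => starRingEnd ℂ (S.Y k)) h1 k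
    exact (map_eq_zero (starRingEnd ℂ)).1 h2
  have hDx : ∀ k, D (ψ k) = S.θ * ψ k := by
    intro k
    have h1 : D (S.x k) = 1 * S.Y k + S.θ * S.x k := congrFun S.Dx k
    have h2 : S.x k = ψ k := rfl
    rw [h2, hY] at h1
    rw [h1]
    ring
  apply hD5
  rw [hD2, hD4, hDx, hDx, map_mul]
  have h2 : starRingEnd ℂ S.θ = - S.θ := S.θ_cj
  rw [h2]
  ring

/-- a representative with algebraic coordinates -/
theorem exists_alg_rep (hd : Rigid d) {ψ : ZMod d → ℂ} (hψ : Fid ψ) :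
    ∃ c : ℂ, ‖c‖ = 1 ∧ ∀ i, IsAlgebraic ℚ (c * ψ i) := by
  have h1 : ∃ j, ψ j ≠ 0 := by
    by_contra hcon
    push Not at hcon
    have h2 := hψ.1
    unfold ip at h2
    simp [hcon] at h2
  obtain ⟨j, hj⟩ := h1
  have hn : ‖ψ j‖ ≠ 0 := norm_ne_zero_iff.2 hj
  have hnc : ((‖ψ j‖ : ℝ) : ℂ) ≠ 0 := by exact_mod_cast hn
  refine ⟨starRingEnd ℂ (ψ j) / (‖ψ j‖ : ℂ), ?_, fun i => ?_⟩
  · rw [norm_div, RCLike.norm_conj, Complex.norm_real, norm_norm, div_self hn]
  · have h2 : starRingEnd ℂ (ψ j) / (‖ψ j‖ : ℂ) * ψ i =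
        (ψ i * starRingEnd ℂ (ψ j)) * ((‖ψ j‖ : ℝ) : ℂ)⁻¹ := by
      field_simp
    rw [h2]
    apply (alg_fid hd hψ i j).mul
    apply IsAlgebraic.inv
    have h3 : IsAlgebraic ℚ (((‖ψ j‖ : ℝ) : ℂ) ^ 2) := by
      have h4 := alg_fid hd hψ j j
      rw [Complex.mul_conj, Complex.normSq_eq_norm_sq] at h4
      exact_mod_cast h4
    exact IsAlgebraic.of_pow (by norm_num) h3

end Pool.Agent.H774.FN
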