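import Pool.Agent.H774.FN.Main

/-!
# Arithmetic properties of the set `I`
-/

set_option autoImplicit false

open Polynomial

namespace Pool.Agent.H774.FN

section Galois

variable {d : ℕ} [NeZero d] {K : Type} [Field K] [CharZero K] {χ : AddChar (ZMod d) K}

omit [CharZero K] in
theorem root_prim (hχ : χ.IsPrimitive) : IsPrimitiveRoot (χ 1) d := by
  constructor
  · rw [← AddChar.map_nsmul_eq_pow]
    simp
  · intro l hl
    rw [← AddChar.map_nsmul_eq_pow, hχ.zmod_char_eq_one_iff, nsmul_eq_mul, mul_one,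
      ZMod.natCast_eq_zero_iff] at hl
    exact hl

/-- the Galois principle -/
theorem gp (hχ : χ.IsPrimitive) {m : ℕ} (hm : m.Coprime d) {ι : Type} (s : Finset ι) (f : ι → ℤ)
    (a : ι → ZMod d) (h : ∑ i ∈ s, (f i : K) * χ (a i) = 0) :
    ∑ i ∈ s, (f i : K) * χ ((m : ZMod d) * a i) = 0 := by
  have hζ := root_prim hχ
  have h1 : ∀ a : ZMod d, χ a = χ 1 ^ a.val := fun a => by
    rw [← AddChar.map_nsmul_eq_pow, nsmul_eq_mul, mul_one, ZMod.natCast_zmod_val]
  have h2 : ∀ a : ZMod d, χ ((m : ZMod d) * a) = (χ 1 ^ m) ^ a.val := fun a => by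
    rw [← pow_mul, ← AddChar.map_nsmul_eq_pow, nsmul_eq_mul, mul_one, Nat.cast_mul,
      ZMod.natCast_zmod_val]
  set p : ℤ[X] := ∑ i ∈ s, C (f i) * X ^ (a i).val with hp
  have h3 : ∀ z : K, aeval z p = ∑ i ∈ s, (f i : K) * z ^ (a i).val := fun z => by
    rw [hp, map_sum]
    refine Finset.sum_congr rfl fun i _ => ?_
    simp
  have h4 : aeval (χ 1) p = 0 := by
    rw [h3, ← h]
    refine Finset.sum_congr rfl fun i _ => ?_
    rw [← h1]
  have h5 : minpoly ℤ (χ 1) ∣ p :=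
    minpoly.isIntegrallyClosed_dvd (hζ.isIntegral (Nat.pos_of_ne_zero (NeZero.ne d))) h4
  rw [hζ.minpoly_eq_pow_coprime hm] at h5
  obtain ⟨r, hr⟩ := h5
  have h6 : aeval (χ 1 ^ m) p = 0 := by
    rw [hr, map_mul, minpoly.aeval, zero_mul]
  rw [h3] at h6
  rw [← h6]
  refine Finset.sum_congr rfl fun i _ => ?_
  rw [h2]

/-- multiplication by a natural number -/
def sm (m : ℕ) (g : GG d) : GG d := ((m : ZMod d) * g.1, (m : ZMod d) * g.2)

omit [NeZero d] [CharZero K] in
theorem om_sm (m : ℕ) (g h : GG d) :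
    om χ g (sm m h) = χ ((m : ZMod d) * (g.1 * h.2 - h.1 * g.2)) := by
  unfold om sm
  congr 1
  ring

theorem gpF (hχ : χ.IsPrimitive) {m : ℕ} (hm : m.Coprime d) (f : GG d → ℤ) (h : GG d)
    (h0 : Fo χ (fun g => (f g : K)) h = 0) : Fo χ (fun g => (f g : K)) (sm m h) = 0 := by
  have hd : (d : K) ≠ 0 := Nat.cast_ne_zero.2 (NeZero.ne d)
  unfold Fo at h0 ⊢
  rw [div_eq_zero_iff] at h0 ⊢
  left
  have h1 := h0.resolve_right hd
  have h2 := gp hχ hm Finset.univ f (fun g => g.1 * h.2 - h.1 * g.2) (by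
    rw [← h1]
    refine Finset.sum_congr rfl fun g _ => ?_
    unfold om
    ring)
  rw [← h2]
  refine Finset.sum_congr rfl fun g _ => ?_
  rw [om_sm]
  ring

omit [NeZero d] in
theorem sm_sm (m l : ℕ) (g : GG d) : sm m (sm l g) = sm (m * l) g := by
  unfold sm
  ext
  · push_cast
    ring
  · push_cast
    ring

omit [NeZero d] in
theorem sm_zero (m : ℕ) : sm m (0 : GG d) = 0 := by
  unfold sm
  simp

omit [NeZero d] in
theorem sm_inj {m : ℕ} (hm : m.Coprime d) : Function.Injective (sm m : GG d → GG d) := by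
  have hu : IsUnit (m : ZMod d) := (ZMod.isUnit_iff_coprime m d).2 hm
  intro g h hgh
  unfold sm at hgh
  rw [Prod.ext_iff] at hgh
  exact Prod.ext (hu.mul_left_cancel hgh.1) (hu.mul_left_cancel hgh.2)

end Galois

namespace Dat

variable {d : ℕ} [NeZero d] {K : Type} [Field K] [CharZero K] (S : Dat d K)

theorem mem_I (g : GG d) : g ∈ S.I ↔ S.κ g ≠ S.cj (S.κ g) := by
  classical
  unfold I
  simp

theorem I_ne_zero {g : GG d} (hg : g ∈ S.I) : g ≠ 0 := by
  rintro rfl
  rw [S.mem_I, S.κ_zero, map_zero] at hg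
  exact hg rfl

theorem κ_sq_cj (g : GG d) : S.cj (S.κ g) ^ 2 = S.κ g ^ 2 := by
  rw [← map_pow, S.κ_sq, map_sub, map_add, map_mul, S.M_cj, S.N_cj, S.E_cj, S.n_cj]

theorem I_cj {g : GG d} (hg : g ∈ S.I) : S.cj (S.κ g) = - S.κ g := by
  rw [S.mem_I] at hg
  have h7 : (S.κ g - S.cj (S.κ g)) * (S.κ g + S.cj (S.κ g)) = 0 := by
    linear_combination - S.κ_sq_cj g
  have h8 := (mul_eq_zero.1 h7).resolve_left (sub_ne_zero.2 hg)
  linear_combination h8

theorem I_sq {g : GG d} (hg : g ∈ S.I) : S.κ g ^ 2 = - S.n := by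
  have h1 := S.N_sub g
  rw [if_neg ((S.mem_I g).1 hg), S.N_eq, S.I_cj hg] at h1
  have h2 : (2 : K) * (S.κ g ^ 2 + S.n) = 0 := by linear_combination -h1
  have h3 := (mul_eq_zero.1 h2).resolve_left two_ne_zero
  linear_combination h3

theorem I_N {g : GG d} (hg : g ∈ S.I) : S.N g = S.n := by
  rw [S.N_eq, S.I_cj hg]
  linear_combination - S.I_sq hg

theorem Fo_sub (f k : GG d → K) (h : GG d) :
    Fo S.χ (fun g => f g - k g) h = Fo S.χ f h - Fo S.χ k h := by
  unfold Fo
  rw [← sub_div, ← Finset.sum_sub_distrib]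
  congr 1
  refine Finset.sum_congr rfl fun g _ => ?_
  ring

theorem Fo_add (f k : GG d → K) (h : GG d) :
    Fo S.χ (fun g => f g + k g) h = Fo S.χ f h + Fo S.χ k h := by
  unfold Fo
  rw [← add_div, ← Finset.sum_add_distrib]
  congr 1
  refine Finset.sum_congr rfl fun g _ => ?_
  ring

theorem Fo_mul (c : K) (f : GG d → K) (h : GG d) :
    Fo S.χ (fun g => c * f g) h = c * Fo S.χ f h := by
  unfold Fo
  rw [← mul_div_assoc, Finset.mul_sum]
  congr 1
  refine Finset.sum_congr rfl fun g _ => ?_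
  ring

open Classical in
/-- the characteristic function of `I` -/
noncomputable def oneI (g : GG d) : ℤ := if g ∈ S.I then 1 else 0

theorem F_κ2 (h : GG d) : Fo S.χ (fun g => S.κ g ^ 2) h = S.κ h ^ 2 := by
  simp only [S.κ_sq]
  rw [S.Fo_sub, S.Fo_add, S.Fo_mul]
  have h1 : Fo S.χ (fun g => S.M g) h = S.N h := S.F_P _ _ _ _ h
  have h2 : Fo S.χ (fun g => S.N g) h = S.M h := S.F_P _ _ _ _ h
  have h3 : Fo S.χ (fun g => S.E g) h = S.E h := S.F_P _ _ _ _ h
  rw [h1, h2, h3]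
  ring

theorem F_one (h : GG d) : 2 * S.n * Fo S.χ (fun g => (S.oneI g : K)) h = S.n * S.E h - S.N h := by
  classical
  have h1 : ∀ g, 2 * S.n * (S.oneI g : K) = S.N g - S.κ g ^ 2 := fun g => by
    rw [S.N_sub]
    unfold oneI
    by_cases hg : g ∈ S.I
    · rw [if_pos hg, if_neg ((S.mem_I g).1 hg)]
      push_cast
      ring
    · have h2 : S.κ g = S.cj (S.κ g) := by
        by_contra hcon
        exact hg ((S.mem_I g).2 hcon)
      rw [if_neg hg, if_pos h2]
      push_cast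
      ring
  rw [← S.Fo_mul]
  simp only [h1]
  rw [S.Fo_sub, S.F_κ2]
  have h2 : Fo S.χ (fun g => S.N g) h = S.M h := S.F_P _ _ _ _ h
  rw [h2, S.κ_sq]
  ring

theorem I_nonempty (hn : S.n ≠ 0) : S.I.Nonempty := by
  rw [← Finset.card_pos]
  have h1 := S.card_I hn
  have h2 : 0 < d := Nat.pos_of_ne_zero (NeZero.ne d)
  have h3 : 0 < d * (d + 1) := by positivity
  omega

open Classical in
/-- the signs -/
noncomputable def eps (g₀ g : GG d) : ℤ :=
  if g ∈ S.I then (if S.κ g = S.κ g₀ then 1 else -1) else 0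

theorem eps_eq {g₀ : GG d} (h₀ : g₀ ∈ S.I) (g : GG d) :
    2 * S.κ g₀ * (S.eps g₀ g : K) = S.κ g - S.cj (S.κ g) := by
  classical
  unfold eps
  by_cases hg : g ∈ S.I
  · rw [if_pos hg, S.I_cj hg]
    by_cases h1 : S.κ g = S.κ g₀
    · rw [if_pos h1, h1]
      push_cast
      ring
    · rw [if_neg h1]
      have h2 : (S.κ g - S.κ g₀) * (S.κ g + S.κ g₀) = 0 := by
        linear_combination S.I_sq hg - S.I_sq h₀
      have h3 := (mul_eq_zero.1 h2).resolve_left (sub_ne_zero.2 h1)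
      push_cast
      linear_combination (-2 : K) * h3
  · have h2 : S.κ g = S.cj (S.κ g) := by
      by_contra hcon
      exact hg ((S.mem_I g).2 hcon)
    rw [if_neg hg, ← h2]
    push_cast
    ring

theorem F_eps {g₀ : GG d} (h₀ : g₀ ∈ S.I) (h : GG d) :
    2 * S.κ g₀ * Fo S.χ (fun g => (S.eps g₀ g : K)) h = -(S.κ h + S.cj (S.κ h)) := by
  rw [← S.Fo_mul]
  simp only [S.eps_eq h₀]
  rw [S.Fo_sub]
  have h1 : Fo S.χ (fun g => S.κ g) h = S.κ (-h) := S.F_κ h
  have h2 : Fo S.χ (fun g => S.cj (S.κ g)) h = S.cj (S.κ h) := by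
    simp only [S.κ_cj]
    exact S.F_P _ _ _ _ h
  rw [h1, h2, S.odd]
  ring

theorem κ_ne {g₀ : GG d} (hn : S.n ≠ 0) (h₀ : g₀ ∈ S.I) : S.κ g₀ ≠ 0 := by
  intro h
  have h1 := S.I_sq h₀
  rw [h] at h1
  apply hn
  linear_combination h1

/-- **`I` is invariant under multiplication by units.** -/
theorem I_unit (hn : S.n ≠ 0) {m : ℕ} (hm : m.Coprime d) {g : GG d} (hg : g ∈ S.I) :
    sm m g ∈ S.I := by
  obtain ⟨g₀, h₀⟩ := S.I_nonempty hn
  have hκ := S.κ_ne hn h₀
  by_contra hcon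
  have h1 : S.κ (sm m g) = S.cj (S.κ (sm m g)) := by
    by_contra h
    exact hcon ((S.mem_I _).2 h)
  have h2 : Fo S.χ (fun g => (S.oneI g : K)) g = 0 := by
    have h3 := S.F_one g
    have hE : S.E g = 1 := S.E_one (S.I_ne_zero hg)
    rw [S.I_N hg, hE, mul_one, sub_self] at h3
    exact (mul_eq_zero.1 h3).resolve_left (mul_ne_zero two_ne_zero hn)
  have h3 : Fo S.χ (fun g => (S.eps g₀ g : K)) g = 0 := by
    have h4 := S.F_eps h₀ g
    rw [S.I_cj hg, add_neg_cancel, neg_zero] at h4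
    exact (mul_eq_zero.1 h4).resolve_left (mul_ne_zero two_ne_zero hκ)
  have h4 := S.F_one (sm m g)
  rw [gpF S.prim hm _ _ h2, mul_zero] at h4
  have h5 := S.F_eps h₀ (sm m g)
  rw [gpF S.prim hm _ _ h3, mul_zero, ← h1] at h5
  have h6 : S.κ (sm m g) = 0 := by
    have h7 : (2 : K) * S.κ (sm m g) = 0 := by linear_combination h5
    exact (mul_eq_zero.1 h7).resolve_left two_ne_zero
  have h7 : S.N (sm m g) = 0 := by rw [S.N_eq, h6, zero_mul]
  have h8 : sm m g ≠ 0 := by
    intro h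
    rw [← sm_zero (d := d) m] at h
    exact S.I_ne_zero hg (sm_inj hm h)
  have hE : S.E (sm m g) = 1 := S.E_one h8
  rw [h7, hE] at h4
  apply hn
  linear_combination -h4

/-- **A unit without fixed points.** -/
theorem dvd_of_unit (hn : S.n ≠ 0) {m q : ℕ} (hq : q.Prime) (hm : m.Coprime d)
    (hmq : ((m : ZMod d)) ^ q = 1) (hm1 : IsUnit ((m : ZMod d) - 1)) : q ∣ S.I.card := by
  classical
  have : Fact q.Prime := ⟨hq⟩
  let f : Function.End S.I := fun g => ⟨sm m g.1, S.I_unit hn hm g.2⟩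
  have hf : ∀ n : ℕ, ∀ g : S.I, ((f ^ n) g).1 = sm (m ^ n) g.1 := by
    intro n
    induction n with
    | zero =>
      intro g
      rw [pow_zero, pow_zero]
      change g.1 = _
      unfold sm
      simp
    | succ n ih =>
      intro g
      rw [pow_succ']
      change sm m ((f ^ n) g).1 = _
      rw [ih, sm_sm, pow_succ']
  have hfq : f ^ q ^ 1 = 1 := by
    funext g
    apply Subtype.ext
    rw [hf, pow_one]
    change _ = g.1
    unfold sm
    rw [Nat.cast_pow, hmq]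
    simp
  have h1 := Equiv.Perm.card_fixedPoints_modEq (f := f) hfq
  have h2 : IsEmpty (Function.fixedPoints f) := by
    constructor
    rintro ⟨g, hg⟩
    have h3 : sm m g.1 = g.1 := congrArg Subtype.val hg
    apply S.I_ne_zero g.2
    unfold sm at h3
    rw [Prod.ext_iff] at h3
    refine Prod.ext ?_ ?_
    · apply hm1.mul_left_cancel
      change ((m : ZMod d) - 1) * g.1.1 = ((m : ZMod d) - 1) * 0
      have h4 : (m : ZMod d) * g.1.1 = g.1.1 := h3.1
      linear_combination h4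
    · apply hm1.mul_left_cancel
      change ((m : ZMod d) - 1) * g.1.2 = ((m : ZMod d) - 1) * 0
      have h4 : (m : ZMod d) * g.1.2 = g.1.2 := h3.2
      linear_combination h4
  rw [Fintype.card_eq_zero (α := Function.fixedPoints f), Fintype.card_coe] at h1
  exact (Nat.modEq_zero_iff_dvd).1 h1

end Dat

end Pool.Agent.H774.FN
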