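import Mathlib

/-!
# Weyl-Heisenberg fiducial vectors over a field with a derivation

`K` is a field of characteristic zero with an involution such that sums of norms vanish only
trivially, `χ` is a primitive character of `ℤ/d`. For vectors `u`, `v` over `K` and
`g ∈ (ℤ/d)²` let `H u v g = ⟨u, D_g v⟩` and let `H' u v g` be the conjugate.
-/

set_option autoImplicit false

namespace Pool.Agent.H774.FN

/-- the group -/
abbrev GG (d : ℕ) : Type := ZMod d × ZMod d

section Defs

variable {d : ℕ} {K : Type} [Field K]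

/-- `⟨u, D_g v⟩` -/
def H [NeZero d] (cj : K →+* K) (χ : AddChar (ZMod d) K) (u v : ZMod d → K) (g : GG d) : K :=
  ∑ j, cj (u j) * χ (g.2 * j) * v (j - g.1)

/-- `⟨u, v⟩` -/
def ip [NeZero d] (cj : K →+* K) (u v : ZMod d → K) : K := ∑ j, cj (u j) * v j

/-- the commutator pairing -/
def om (χ : AddChar (ZMod d) K) (g h : GG d) : K := χ (g.1 * h.2 - h.1 * g.2)

/-- the normalised symplectic Fourier transform -/
def Fo [NeZero d] (χ : AddChar (ZMod d) K) (f : GG d → K) (h : GG d) : K :=
  (∑ g, om χ g h * f g) / (d : K)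

end Defs

section Basic

variable {d : ℕ} [NeZero d] {K : Type} [Field K] {cj : K →+* K} {χ : AddChar (ZMod d) K}

omit [NeZero d] in
theorem om_neg_right (g h : GG d) : om χ g (-h) = om χ (-g) h := by
  unfold om
  congr 1
  simp only [Prod.fst_neg, Prod.snd_neg]
  ring

omit [NeZero d] in
theorem om_swap (g h : GG d) : om χ g h = om χ h (-g) := by
  unfold om
  congr 1
  simp only [Prod.fst_neg, Prod.snd_neg]
  ring

theorem Fo_neg (f : GG d → K) (h : GG d) : Fo χ f (-h) = Fo χ (fun g => f (-g)) h := by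
  unfold Fo
  congr 1
  rw [← Equiv.sum_comp (Equiv.neg (GG d))]
  refine Finset.sum_congr rfl fun g _ => ?_
  simp only [Equiv.neg_apply, om_neg_right, neg_neg]

/-- symmetry of the Fourier transform -/
theorem Fo_sym (f k : GG d → K) : ∑ g, f g * Fo χ k g = ∑ g, k g * Fo χ f (-g) := by
  have h1 : ∀ g, f g * Fo χ k g = ∑ l, (om χ l g * k l * f g) / (d : K) := by
    intro g
    unfold Fo
    rw [← Finset.sum_div, ← Finset.sum_mul]
    ring
  have h2 : ∀ l, k l * Fo χ f (-l) = ∑ g, (om χ l g * k l * f g) / (d : K) := by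
    intro l
    unfold Fo
    rw [← Finset.sum_div, mul_div_assoc', Finset.mul_sum]
    congr 1
    refine Finset.sum_congr rfl fun g _ => ?_
    rw [om_swap l g]
    have h3 : om χ g (-l) = om χ g (-l) := rfl
    ring
  simp only [h1, h2]
  exact Finset.sum_comm

theorem Fo_zero (f : GG d → K) : Fo χ f 0 = (∑ g, f g) / (d : K) := by
  unfold Fo om
  simp

theorem H_zero (u v : ZMod d → K) : H cj χ u v 0 = ip cj u v := by
  unfold H ip
  simp

theorem sum_char (hχ : χ.IsPrimitive) [CharZero K] (a : ZMod d) :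
    ∑ b, χ (b * a) = if a = 0 then (d : K) else 0 := by
  have h := AddChar.sum_mulShift a hχ
  rw [ZMod.card] at h
  rw [h]
  split_ifs <;> simp

/-- **The fundamental identity.** -/
theorem fund (hχ : χ.IsPrimitive) [CharZero K] (hcχ : ∀ a, cj (χ a) = χ (-a))
    (hcj : ∀ z, cj (cj z) = z) (a b c e : ZMod d → K) (h : GG d) :
    Fo χ (fun g => H cj χ a b g * cj (H cj χ e c g)) h = H cj χ a e h * cj (H cj χ b c h) := by
  have hd : (d : K) ≠ 0 := Nat.cast_ne_zero.2 (NeZero.ne d)
  unfold Fo
  rw [div_eq_iff hd]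
  obtain ⟨a', b'⟩ := h
  have e1 : ∀ g : GG d, om χ g (a', b') * (H cj χ a b g * cj (H cj χ e c g)) =
      ∑ j, ∑ k, χ (g.2 * (j - k - a')) *
        (χ (g.1 * b') * (cj (a j) * b (j - g.1) * (e k * cj (c (k - g.1))))) := by
    intro g
    unfold H om
    rw [map_sum, Finset.sum_mul_sum, Finset.mul_sum]
    refine Finset.sum_congr rfl fun j _ => ?_
    rw [Finset.mul_sum]
    refine Finset.sum_congr rfl fun k _ => ?_
    rw [map_mul cj, map_mul cj, hcj, hcχ]
    have e2 : χ (g.1 * b' - a' * g.2) * χ (g.2 * j) * χ (-(g.2 * k)) =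
        χ (g.2 * (j - k - a')) * χ (g.1 * b') := by
      rw [← AddChar.map_add_eq_mul, ← AddChar.map_add_eq_mul, ← AddChar.map_add_eq_mul]
      congr 1
      ring
    linear_combination (cj (a j) * b (j - g.1) * (e k * cj (c (k - g.1)))) * e2
  simp only [e1]
  rw [Fintype.sum_prod_type]
  have e3 : ∀ x : ZMod d, ∑ y : ZMod d, ∑ j, ∑ k, χ (y * (j - k - a')) *
        (χ (x * b') * (cj (a j) * b (j - x) * (e k * cj (c (k - x))))) =
      ∑ k, (d : K) * (χ (x * b') * (cj (a (k + a')) * b (k + a' - x) * (e k * cj (c (k - x))))) := by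
    intro x
    rw [Finset.sum_comm]
    have e4 : ∀ j : ZMod d, ∑ y : ZMod d, ∑ k, χ (y * (j - k - a')) *
        (χ (x * b') * (cj (a j) * b (j - x) * (e k * cj (c (k - x))))) =
        ∑ k, (if j - k - a' = 0 then (d : K) else 0) *
        (χ (x * b') * (cj (a j) * b (j - x) * (e k * cj (c (k - x))))) := by
      intro j
      rw [Finset.sum_comm]
      refine Finset.sum_congr rfl fun k _ => ?_
      rw [← Finset.sum_mul, sum_char hχ]
    simp only [e4]
    rw [Finset.sum_comm]
    refine Finset.sum_congr rfl fun k _ => ?_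
    rw [Finset.sum_eq_single (k + a')]
    · rw [if_pos (by ring)]
    · intro j _ hj
      rw [if_neg, zero_mul]
      intro h0
      apply hj
      linear_combination h0
    · intro h0
      exact absurd (Finset.mem_univ _) h0
  simp only [e3]
  rw [Finset.sum_comm]
  have e5 : ∀ k : ZMod d, ∑ x : ZMod d, (d : K) *
      (χ (x * b') * (cj (a (k + a')) * b (k + a' - x) * (e k * cj (c (k - x))))) =
      ∑ l : ZMod d, (cj (a (k + a')) * χ (b' * (k + a')) * e k) *
        (b l * χ (-(b' * l)) * cj (c (l - a'))) * (d : K) := by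
    intro k
    rw [← Equiv.sum_comp (Equiv.subLeft (k + a'))]
    refine Finset.sum_congr rfl fun l _ => ?_
    simp only [Equiv.subLeft_apply]
    have e6 : k + a' - (k + a' - l) = l := by ring
    have e7 : k - (k + a' - l) = l - a' := by ring
    rw [e6, e7]
    have e8 : χ ((k + a' - l) * b') = χ (b' * (k + a')) * χ (-(b' * l)) := by
      rw [← AddChar.map_add_eq_mul]
      congr 1
      ring
    rw [e8]
    ring
  simp only [e5]
  unfold H
  rw [map_sum, Finset.sum_mul_sum, Finset.sum_mul]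
  conv_rhs => rw [← Equiv.sum_comp (Equiv.addRight a')]
  refine Finset.sum_congr rfl fun k _ => ?_
  rw [Finset.sum_mul]
  refine Finset.sum_congr rfl fun l _ => ?_
  simp only [Equiv.coe_addRight, add_sub_cancel_right]
  rw [map_mul cj, map_mul cj, hcj, hcχ]

/-- reflection -/
theorem refl_pair (hcχ : ∀ a, cj (χ a) = χ (-a)) (hcj : ∀ z, cj (cj z) = z)
    (a b c e : ZMod d → K) (g : GG d) :
    H cj χ a b (-g) * cj (H cj χ e c (-g)) = H cj χ c e g * cj (H cj χ b a g) := by
  have e1 : ∀ u v : ZMod d → K, H cj χ u v (-g) = χ (g.1 * g.2) * cj (H cj χ v u g) := by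
    intro u v
    unfold H
    rw [map_sum, Finset.mul_sum, ← Equiv.sum_comp (Equiv.subRight g.1)]
    refine Finset.sum_congr rfl fun j _ => ?_
    simp only [Equiv.subRight_apply, Prod.fst_neg, Prod.snd_neg]
    rw [map_mul cj, map_mul cj, hcj, hcχ]
    have e2 : j - g.1 - -g.1 = j := by ring
    rw [e2]
    have e3 : χ (-g.2 * (j - g.1)) = χ (g.1 * g.2) * χ (-(g.2 * j)) := by
      rw [← AddChar.map_add_eq_mul]
      congr 1
      ring
    rw [e3]
    ring
  rw [e1, e1, map_mul cj, hcj, hcχ]
  have e4 : χ (g.1 * g.2) * χ (-(g.1 * g.2)) = 1 := by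
    rw [← AddChar.map_add_eq_mul]
    simp
  linear_combination (cj (H cj χ b a g) * H cj χ c e g) * e4

end Basic

end Pool.Agent.H774.FN
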