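import Mathlib

/-!
# Derivations of field extensions of characteristic zero
-/

set_option autoImplicit false

namespace Pool.Agent.H774.FN

open Polynomial

/-- the dual numbers, with only the ring structure -/
def Dn (K : Type) [Field K] : Type := TrivSqZeroExt K K

noncomputable instance (K : Type) [Field K] : CommRing (Dn K) :=
  inferInstanceAs (CommRing (TrivSqZeroExt K K))

/-- reduction -/
noncomputable def Dn.fst (K : Type) [Field K] : Dn K →+* K :=
  (TrivSqZeroExt.fstHom K K K).toRingHom

/-- constants -/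
noncomputable def Dn.inl (K : Type) [Field K] : K →+* Dn K :=
  TrivSqZeroExt.inlHom K K

/-- the coefficient of the infinitesimal -/
def Dn.s {K : Type} [Field K] (a : Dn K) : K := TrivSqZeroExt.snd (a : TrivSqZeroExt K K)

/-- the element `a + b ε` -/
def Dn.mk {K : Type} [Field K] (a b : K) : Dn K := ((a, b) : TrivSqZeroExt K K)

theorem Dn.ext {K : Type} [Field K] {a b : Dn K} (h1 : Dn.fst K a = Dn.fst K b)
    (h2 : a.s = b.s) : a = b :=
  TrivSqZeroExt.ext (x := (a : TrivSqZeroExt K K)) (y := (b : TrivSqZeroExt K K)) h1 h2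

theorem Dn.s_mul {K : Type} [Field K] (a b : Dn K) :
    (a * b).s = Dn.fst K a * b.s + Dn.fst K b * a.s := by
  have h := TrivSqZeroExt.snd_mul (a : TrivSqZeroExt K K) (b : TrivSqZeroExt K K)
  rw [op_smul_eq_smul, smul_eq_mul, smul_eq_mul] at h
  exact h

theorem Dn.s_add {K : Type} [Field K] (a b : Dn K) : (a + b).s = a.s + b.s := rfl

theorem Dn.s_zero {K : Type} [Field K] : (0 : Dn K).s = 0 := rfl

theorem Dn.fst_mk {K : Type} [Field K] (a b : K) : Dn.fst K (Dn.mk a b) = a := rfl

theorem Dn.s_mk {K : Type} [Field K] (a b : K) : (Dn.mk a b).s = b := rfl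

theorem Dn.fst_inl {K : Type} [Field K] (a : K) : Dn.fst K (Dn.inl K a) = a := rfl

theorem Dn.s_inl {K : Type} [Field K] (a : K) : (Dn.inl K a).s = 0 := rfl

theorem Dn.isUnit {K : Type} [Field K] {a : Dn K} (h : Dn.fst K a ≠ 0) : IsUnit a :=
  (TrivSqZeroExt.isUnit_iff_isUnit_fst (x := (a : TrivSqZeroExt K K))).2 (IsUnit.mk0 _ h)

theorem formallySmooth_of_charZero (L K : Type) [Field L] [Field K] [Algebra L K] [CharZero L] :
    Algebra.FormallySmooth L K := by
  obtain ⟨ι, v, hv⟩ := exists_isTranscendenceBasis' L K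
  have h1 : Algebra.IsAlgebraic (IntermediateField.adjoin L (Set.range v)) K :=
    hv.isAlgebraic_field
  have h2 : CharZero (IntermediateField.adjoin L (Set.range v)) := 
    charZero_of_injective_algebraMap (algebraMap L _).injective
  have h3 : Algebra.IsSeparable (IntermediateField.adjoin L (Set.range v)) K := inferInstance
  exact Algebra.FormallySmooth.of_algebraicIndependent_of_isSeparable hv.1

theorem exists_der {k K : Type} [Field k] [Field K] [Algebra k K] [CharZero k] {t : K}
    (ht : Transcendental k t) :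
    ∃ D : K → K, (∀ a b, D (a + b) = D a + D b) ∧ (∀ a b, D (a * b) = a * D b + D a * b) ∧
      (∀ c : k, D (algebraMap k K c) = 0) ∧ D t = 1 := by
  set L := FractionRing k[X]
  have hf1 : Function.Injective (aeval (R := k) t : k[X] →ₐ[k] K).toRingHom :=
    transcendental_iff_injective.1 ht
  set f1 : k[X] →+* K := (aeval (R := k) t : k[X] →ₐ[k] K).toRingHom with hf1def
  set f2 : k[X] →+* Dn K := eval₂RingHom ((Dn.inl K).comp (algebraMap k K)) (Dn.mk t 1)
    with hf2def
  have hf2C : ∀ a, f2 (C a) = Dn.inl K (algebraMap k K a) := fun a => by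
    rw [hf2def]
    simp
  have hf2X : f2 X = Dn.mk t 1 := by
    rw [hf2def]
    simp
  have h12 : (Dn.fst K).comp f2 = f1 := by
    apply Polynomial.ringHom_ext
    · intro a
      rw [RingHom.comp_apply, hf2C, Dn.fst_inl]
      simp [hf1def]
    · rw [RingHom.comp_apply, hf2X, Dn.fst_mk]
      simp [hf1def]
  have hu : ∀ y : nonZeroDivisors k[X], IsUnit (f2 y) := by
    intro y
    apply Dn.isUnit
    have h2 : Dn.fst K (f2 (y : k[X])) = f1 y := congrArg (fun f : k[X] →+* K => f y) h12
    rw [h2, Ne, map_eq_zero_iff _ hf1]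
    exact nonZeroDivisors.ne_zero y.2
  let a1 : Algebra L K := (IsFractionRing.lift (K := L) hf1).toAlgebra
  let a2 : Algebra L (Dn K) := (IsLocalization.lift (M := nonZeroDivisors k[X]) (S := L) hu).toAlgebra
  have ha1 : ∀ p : k[X], algebraMap L K (algebraMap k[X] L p) = f1 p := fun p =>
    IsFractionRing.lift_algebraMap hf1 p
  have ha2 : ∀ p : k[X], algebraMap L (Dn K) (algebraMap k[X] L p) = f2 p := fun p =>
    IsLocalization.lift_eq hu p
  have hcomp : (Dn.fst K).comp (algebraMap L (Dn K)) = algebraMap L K := by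
    apply IsLocalization.ringHom_ext (nonZeroDivisors k[X])
    apply RingHom.ext
    intro p
    simp only [RingHom.comp_apply]
    rw [ha1, ha2]
    exact congrArg (fun f : k[X] →+* K => f p) h12
  have hL : CharZero L := charZero_of_injective_algebraMap
    (FaithfulSMul.algebraMap_injective k L)
  have hfs : Algebra.FormallySmooth L K := formallySmooth_of_charZero L K
  let g : Dn K →ₐ[L] K :=
    { Dn.fst K with commutes' := fun r => congrArg (fun f : L →+* K => f r) hcomp }
  have hg : Function.Surjective g := fun x => ⟨Dn.inl K x, rfl⟩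
  have hg' : IsNilpotent (RingHom.ker (g : Dn K →+* K)) := by
    refine ⟨2, ?_⟩
    rw [pow_two, Ideal.zero_eq_bot, eq_bot_iff, Ideal.mul_le]
    intro r hr s hs
    rw [Ideal.mem_bot]
    have hr' : Dn.fst K r = 0 := hr
    have hs' : Dn.fst K s = 0 := hs
    refine Dn.ext ?_ ?_
    · rw [map_mul, hr', zero_mul, map_zero]
    · rw [Dn.s_mul, hr', hs', Dn.s_zero]
      simp
  let φ : K →ₐ[L] Dn K := Algebra.FormallySmooth.liftOfSurjective (AlgHom.id L K) g hg hg'
  have hφ : ∀ x, Dn.fst K (φ x) = x := fun x =>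
    Algebra.FormallySmooth.liftOfSurjective_apply (AlgHom.id L K) g hg hg' x
  have hφt : φ t = Dn.mk t 1 := by
    have h1 : t = algebraMap L K (algebraMap k[X] L X) := by
      rw [ha1]
      simp [hf1def]
    conv_lhs => rw [h1]
    rw [AlgHom.commutes, ha2, hf2X]
  have hφc : ∀ c : k, φ (algebraMap k K c) = Dn.inl K (algebraMap k K c) := by
    intro c
    have h1 : algebraMap k K c = algebraMap L K (algebraMap k[X] L (C c)) := by
      rw [ha1]
      simp [hf1def]
    conv_lhs => rw [h1]
    rw [AlgHom.commutes, ha2, hf2C]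
  refine ⟨fun x => (φ x).s, fun a b => ?_, fun a b => ?_, fun c => ?_, ?_⟩
  · simp only [map_add, Dn.s_add]
  · simp only [map_mul, Dn.s_mul, hφ]
    ring
  · simp only [hφc, Dn.s_inl]
  · simp only [hφt, Dn.s_mk]

end Pool.Agent.H774.FN
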