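import Pool.Agent.H774.FN.Four

/-!
# Dimension eight
-/

set_option autoImplicit false

namespace Pool.Agent.H774.FN

namespace Dat

variable {K : Type} [Field K] [CharZero K] (S : Dat 8 K)

theorem geo_ne {K : Type} [Field K] {ω : K} {Q : ℕ} (h : ω ^ Q = 1) (h1 : ω ≠ 1) :
    ∑ b ∈ Finset.range Q, ω ^ b = 0 := by
  have h2 : (ω - 1) * ∑ b ∈ Finset.range Q, ω ^ b = 0 := by
    rw [mul_geom_sum, h, sub_self]
  exact (mul_eq_zero.1 h2).resolve_left (sub_ne_zero.2 h1)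

/-- Poisson summation over the elements of order dividing `Q`, `8 = Q k` -/
theorem poisson8 {Q k : ℕ} (hQ : Q * k = 8) :
    ∑ a ∈ Finset.range Q, ∑ b ∈ Finset.range Q,
      S.s (((k * a : ℕ) : ZMod 8), ((k * b : ℕ) : ZMod 8)) =
    (Q : K) ^ 2 * ((S.I.filter fun g => (k : ZMod 8) * g.1 = 0 ∧ (k : ZMod 8) * g.2 = 0).card : K) := by
  classical
  have hk : ∀ x : ZMod 8, (S.χ (x * (k : ZMod 8))) ^ Q = 1 := by
    intro x
    rw [← AddChar.map_nsmul_eq_pow]
    have h5 : Q • (x * (k : ZMod 8)) = 0 := by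
      rw [nsmul_eq_mul]
      have h6 : ((Q * k : ℕ) : ZMod 8) = 0 := by
        rw [hQ]
        rfl
      push_cast at h6
      linear_combination x * h6
    rw [h5, AddChar.map_zero_eq_one]
  have hone : ∀ x : ZMod 8, S.χ x = 1 ↔ x = 0 := fun x => S.prim.zmod_char_eq_one_iff 8 x
  have hg : ∀ g : GG 8, ∑ a ∈ Finset.range Q, ∑ b ∈ Finset.range Q,
      om S.χ g (((k * a : ℕ) : ZMod 8), ((k * b : ℕ) : ZMod 8)) =
      if ((k : ZMod 8) * g.1 = 0 ∧ (k : ZMod 8) * g.2 = 0) then (Q : K) ^ 2 else 0 := by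
    intro g
    have h5 : ∀ a b : ℕ, om S.χ g (((k * a : ℕ) : ZMod 8), ((k * b : ℕ) : ZMod 8)) =
        (S.χ (-g.2 * (k : ZMod 8))) ^ a * (S.χ (g.1 * (k : ZMod 8))) ^ b := by
      intro a b
      rw [← AddChar.map_nsmul_eq_pow, ← AddChar.map_nsmul_eq_pow, ← AddChar.map_add_eq_mul]
      unfold om
      congr 1
      simp only [nsmul_eq_mul]
      push_cast
      ring
    simp only [h5]
    have h6 : ∑ a ∈ Finset.range Q, ∑ b ∈ Finset.range Q,
        (S.χ (-g.2 * (k : ZMod 8))) ^ a * (S.χ (g.1 * (k : ZMod 8))) ^ b =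
        (∑ a ∈ Finset.range Q, (S.χ (-g.2 * (k : ZMod 8))) ^ a) *
        ∑ b ∈ Finset.range Q, (S.χ (g.1 * (k : ZMod 8))) ^ b := by
      rw [Finset.sum_mul_sum]
    rw [h6]
    have h7 : (-g.2 * (k : ZMod 8) = 0) ↔ (k : ZMod 8) * g.2 = 0 := by
      rw [neg_mul, neg_eq_zero, mul_comm]
    have h8 : (g.1 * (k : ZMod 8) = 0) ↔ (k : ZMod 8) * g.1 = 0 := by
      rw [mul_comm]
    by_cases h9 : (k : ZMod 8) * g.2 = 0
    · by_cases h10 : (k : ZMod 8) * g.1 = 0
      · rw [if_pos ⟨h10, h9⟩, (hone _).2 (h7.2 h9), (hone _).2 (h8.2 h10)]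
        simp only [one_pow, Finset.sum_const, Finset.card_range, nsmul_eq_mul, mul_one]
        ring
      · rw [if_neg (fun h => h10 h.1), geo_ne (hk g.1) (fun h => h10 (h8.1 ((hone _).1 h))),
          mul_zero]
    · rw [if_neg (fun h => h9 h.2), geo_ne (hk (-g.2)) (fun h => h9 (h7.1 ((hone _).1 h))),
        zero_mul]
  unfold s
  have h6 : ∀ a, ∑ b ∈ Finset.range Q, ∑ g ∈ S.I,
      om S.χ g (((k * a : ℕ) : ZMod 8), ((k * b : ℕ) : ZMod 8)) =
      ∑ g ∈ S.I, ∑ b ∈ Finset.range Q,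
      om S.χ g (((k * a : ℕ) : ZMod 8), ((k * b : ℕ) : ZMod 8)) := fun a => Finset.sum_comm
  simp only [h6]
  rw [Finset.sum_comm]
  simp only [hg]
  rw [← Finset.sum_filter, Finset.sum_const, nsmul_eq_mul]
  ring

theorem eight (hn : S.n ≠ 0) : False := by
  classical
  have hI : 2 * (S.I.card : K) = 8 * (8 + 1) := by
    have := S.card_I hn
    exact_mod_cast this
  have htor : ∀ h : GG 8, h ≠ 0 → -h = h → S.s h = 4 := by
    intro h h0 hh
    have h1 := S.s_tor hn h0 hh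
    have h2 : (2 : K) * S.s h = 2 * 4 := by
      rw [h1]
      norm_num
    exact mul_left_cancel₀ two_ne_zero h2
  have hs0 : S.s 0 = 36 := by
    rw [S.s_zero]
    have h2 : (2 : K) * (S.I.card : K) = 2 * 36 := by
      rw [hI]
      norm_num
    exact mul_left_cancel₀ two_ne_zero h2
  have p2 := S.poisson8 (Q := 2) (k := 4) rfl
  have p4 := S.poisson8 (Q := 4) (k := 2) rfl
  simp only [Finset.sum_range_succ, Finset.sum_range_zero, zero_add] at p2 p4
  -- elements of order four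
  have hall : ∀ h : GG 8, 4 * h.1 = 0 → 4 * h.2 = 0 → ¬ (2 * h.1 = 0 ∧ 2 * h.2 = 0) → h ∈ S.I := by
    set T := S.I.filter fun g => ((4 : ℕ) : ZMod 8) * g.1 = 0 ∧ ((4 : ℕ) : ZMod 8) * g.2 = 0 with hT
    have e1 : S.s (((4 * 0 : ℕ) : ZMod 8), ((4 * 0 : ℕ) : ZMod 8)) = 36 := hs0
    have e2 : S.s (((4 * 0 : ℕ) : ZMod 8), ((4 * 1 : ℕ) : ZMod 8)) = 4 :=
      htor _ (by decide) (by decide)
    have e3 : S.s (((4 * 1 : ℕ) : ZMod 8), ((4 * 0 : ℕ) : ZMod 8)) = 4 :=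
      htor _ (by decide) (by decide)
    have e4 : S.s (((4 * 1 : ℕ) : ZMod 8), ((4 * 1 : ℕ) : ZMod 8)) = 4 :=
      htor _ (by decide) (by decide)
    rw [e1, e2, e3, e4] at p2
    have hTc : T.card = 12 := by
      have h1 : (48 : K) = 4 * (T.card : K) := by
        rw [hT]
        linear_combination p2
      have h2 : (48 : ℕ) = 4 * T.card := by exact_mod_cast h1
      omega
    set R : Finset (GG 8) := Finset.univ.filter fun h =>
      (4 * h.1 = 0 ∧ 4 * h.2 = 0) ∧ ¬ (2 * h.1 = 0 ∧ 2 * h.2 = 0) with hR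
    have hRc : R.card = 12 := by
      rw [hR]
      decide
    have hTR : T ⊆ R := by
      intro g hg
      rw [hT, Finset.mem_filter] at hg
      rw [hR, Finset.mem_filter]
      refine ⟨Finset.mem_univ _, hg.2, ?_⟩
      intro h2
      apply S.not_I_of_tor _ hg.1
      have h3 : g + g = 0 := by
        ext
        · change g.1 + g.1 = 0
          linear_combination h2.1
        · change g.2 + g.2 = 0
          linear_combination h2.2
      exact neg_eq_of_add_eq_zero_left h3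
    have hTR' : T = R := Finset.eq_of_subset_of_card_le hTR (by rw [hTc, hRc])
    intro h h1 h2 h3
    have h4 : h ∈ R := by
      rw [hR, Finset.mem_filter]
      exact ⟨Finset.mem_univ _, ⟨h1, h2⟩, h3⟩
    rw [← hTR', hT, Finset.mem_filter] at h4
    exact h4.1
  have hz : ∀ h : GG 8, 4 * h.1 = 0 → 4 * h.2 = 0 → ¬ (2 * h.1 = 0 ∧ 2 * h.2 = 0) → S.s h = 0 :=
    fun h h1 h2 h3 => S.s_I hn (hall h h1 h2 h3)
  have hE : (S.I.filter fun g => ((2 : ℕ) : ZMod 8) * g.1 = 0 ∧ ((2 : ℕ) : ZMod 8) * g.2 = 0) = ∅ := by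
    apply Finset.filter_eq_empty_iff.2
    intro g hg h2
    apply S.not_I_of_tor _ hg
    have h3 : g + g = 0 := by
      ext
      · change g.1 + g.1 = 0
        have := h2.1
        push_cast at this
        linear_combination this
      · change g.2 + g.2 = 0
        have := h2.2
        push_cast at this
        linear_combination this
    exact neg_eq_of_add_eq_zero_left h3
  rw [hE, Finset.card_empty] at p4
  have f00 : S.s (((2 * 0 : ℕ) : ZMod 8), ((2 * 0 : ℕ) : ZMod 8)) = 36 := hs0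
  have f02 : S.s (((2 * 0 : ℕ) : ZMod 8), ((2 * 2 : ℕ) : ZMod 8)) = 4 := htor _ (by decide) (by decide)
  have f20 : S.s (((2 * 2 : ℕ) : ZMod 8), ((2 * 0 : ℕ) : ZMod 8)) = 4 := htor _ (by decide) (by decide)
  have f22 : S.s (((2 * 2 : ℕ) : ZMod 8), ((2 * 2 : ℕ) : ZMod 8)) = 4 := htor _ (by decide) (by decide)
  have z01 : S.s (((2 * 0 : ℕ) : ZMod 8), ((2 * 1 : ℕ) : ZMod 8)) = 0 := hz _ (by decide) (by decide) (by decide)
  have z03 : S.s (((2 * 0 : ℕ) : ZMod 8), ((2 * 3 : ℕ) : ZMod 8)) = 0 := hz _ (by decide) (by decide) (by decide)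
  have z10 : S.s (((2 * 1 : ℕ) : ZMod 8), ((2 * 0 : ℕ) : ZMod 8)) = 0 := hz _ (by decide) (by decide) (by decide)
  have z11 : S.s (((2 * 1 : ℕ) : ZMod 8), ((2 * 1 : ℕ) : ZMod 8)) = 0 := hz _ (by decide) (by decide) (by decide)
  have z12 : S.s (((2 * 1 : ℕ) : ZMod 8), ((2 * 2 : ℕ) : ZMod 8)) = 0 := hz _ (by decide) (by decide) (by decide)
  have z13 : S.s (((2 * 1 : ℕ) : ZMod 8), ((2 * 3 : ℕ) : ZMod 8)) = 0 := hz _ (by decide) (by decide) (by decide)
  have z21 : S.s (((2 * 2 : ℕ) : ZMod 8), ((2 * 1 : ℕ) : ZMod 8)) = 0 := hz _ (by decide) (by decide) (by decide)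
  have z23 : S.s (((2 * 2 : ℕ) : ZMod 8), ((2 * 3 : ℕ) : ZMod 8)) = 0 := hz _ (by decide) (by decide) (by decide)
  have z30 : S.s (((2 * 3 : ℕ) : ZMod 8), ((2 * 0 : ℕ) : ZMod 8)) = 0 := hz _ (by decide) (by decide) (by decide)
  have z31 : S.s (((2 * 3 : ℕ) : ZMod 8), ((2 * 1 : ℕ) : ZMod 8)) = 0 := hz _ (by decide) (by decide) (by decide)
  have z32 : S.s (((2 * 3 : ℕ) : ZMod 8), ((2 * 2 : ℕ) : ZMod 8)) = 0 := hz _ (by decide) (by decide) (by decide)
  have z33 : S.s (((2 * 3 : ℕ) : ZMod 8), ((2 * 3 : ℕ) : ZMod 8)) = 0 := hz _ (by decide) (by decide) (by decide)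
  rw [f00, f02, f20, f22, z01, z03, z10, z11, z12, z13, z21, z23, z30, z31, z32, z33] at p4
  norm_num at p4

end Dat

end Pool.Agent.H774.FN
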