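import Pool.Agent.H774.FN.Mod

/-!
# Dimensions congruent to four modulo eight
-/

set_option autoImplicit false

namespace Pool.Agent.H774.FN

namespace Dat

variable {d : ℕ} [NeZero d] {K : Type} [Field K] [CharZero K] (S : Dat d K)

theorem eps_neg (hn : S.n ≠ 0) {g₀ : GG d} (h₀ : g₀ ∈ S.I) (g : GG d) :
    S.eps g₀ (-g) = - S.eps g₀ g := by
  have h1 := S.eps_eq h₀ g
  have h2 := S.eps_eq h₀ (-g)
  rw [S.odd, map_neg] at h2
  have h3 : (S.eps g₀ (-g) : K) = ((- S.eps g₀ g : ℤ) : K) := by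
    apply mul_left_cancel₀ (mul_ne_zero two_ne_zero (S.κ_ne hn h₀))
    push_cast
    linear_combination h1 + h2
  exact_mod_cast h3

omit [NeZero d] [CharZero K] in
theorem om_pow' (χ : AddChar (ZMod d) K) (g h : GG d) (j : ℕ) :
    om χ g (sm j h) = om χ g h ^ j := by
  rw [om_sm]
  unfold om
  rw [← AddChar.map_nsmul_eq_pow, nsmul_eq_mul]

omit [NeZero d] [CharZero K] in
theorem om_neg' (χ : AddChar (ZMod d) K) (g h : GG d) :
    om χ (-g) h * om χ g h = 1 := by
  unfold om
  rw [← AddChar.map_add_eq_mul]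
  simp only [Prod.fst_neg, Prod.snd_neg]
  have : -g.1 * h.2 - h.1 * -g.2 + (g.1 * h.2 - h.1 * g.2) = 0 := by ring
  rw [this, AddChar.map_zero_eq_one]

theorem ord4 (hn : S.n ≠ 0) {k : ℕ} (hk : k % 2 = 1) (hd : d = 4 * k) {h : GG d}
    (h4 : sm 4 h = 0) (h2 : sm 2 h ≠ 0) : ∃ x : ℤ, S.s h = 2 * (x : K) ∧ (4 : ℤ) ∣ x - k := by
  classical
  have hdK : (d : K) = 4 * (k : K) := by
    have : ((d : ℕ) : K) = ((4 * k : ℕ) : K) := by rw [← hd]
    push_cast at this
    exact this
  have h0 : h ≠ 0 := by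
    rintro rfl
    exact h2 (sm_zero 2)
  have h22 : -(sm 2 h) = sm 2 h := by
    have h5 : sm 2 h + sm 2 h = 0 := by
      rw [← h4]
      unfold sm
      ext
      · simp only [Prod.fst_add]
        push_cast
        ring
      · simp only [Prod.snd_add]
        push_cast
        ring
    exact neg_eq_of_add_eq_zero_left h5
  have h3 : sm 3 h = -h := by
    have h5 : sm 3 h + h = 0 := by
      rw [← h4]
      unfold sm
      ext
      · simp only [Prod.fst_add]
        push_cast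
        ring
      · simp only [Prod.snd_add]
        push_cast
        ring
    exact eq_neg_of_add_eq_zero_left h5
  have hω4 : ∀ g, om S.χ g h ^ 4 = 1 := by
    intro g
    rw [← om_pow', h4]
    unfold om
    simp
  -- the Poisson sum
  set T := S.I.filter fun g => om S.χ g h = 1 with hT
  have hTeven : Even T.card := by
    apply S.even_sub T (Finset.filter_subset _ _)
    intro g hg
    rw [hT, Finset.mem_filter] at hg ⊢
    refine ⟨S.I_neg hg.1, ?_⟩
    have h5 := om_neg' S.χ g h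
    rwa [hg.2, mul_one] at h5
  have hsum : ∀ g, 1 + om S.χ g h + om S.χ g h ^ 2 + om S.χ g h ^ 3 =
      if om S.χ g h = 1 then 4 else 0 := by
    intro g
    by_cases h5 : om S.χ g h = 1
    · rw [if_pos h5, h5]
      norm_num
    · rw [if_neg h5]
      have h6 : (om S.χ g h - 1) * (1 + om S.χ g h + om S.χ g h ^ 2 + om S.χ g h ^ 3) = 0 := by
        linear_combination hω4 g
      exact (mul_eq_zero.1 h6).resolve_left (sub_ne_zero.2 h5)
  have hP : S.s 0 + S.s h + S.s (sm 2 h) + S.s (sm 3 h) = 4 * (T.card : K) := by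
    have h5 : S.s 0 = ∑ g ∈ S.I, (1 : K) := by
      rw [S.s_zero, Finset.sum_const, nsmul_eq_mul, mul_one]
    rw [h5]
    unfold s
    simp only [om_pow']
    rw [← Finset.sum_add_distrib, ← Finset.sum_add_distrib, ← Finset.sum_add_distrib]
    simp only [hsum]
    rw [← Finset.sum_filter, Finset.sum_const, nsmul_eq_mul, mul_comm]
  rw [h3, S.s_neg hn, S.s_zero] at hP
  have hs2 := S.s_tor hn h2 h22
  have hI : 2 * (S.I.card : K) = (d : K) * ((d : K) + 1) := by
    have := S.card_I hn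
    exact_mod_cast this
  obtain ⟨c, hc⟩ := hTeven
  have hcK : (T.card : K) = 2 * (c : K) := by
    rw [hc]
    push_cast
    ring
  rw [hcK] at hP
  set x : ℤ := 2 * c - 2 * k ^ 2 - k with hx
  have hsx : S.s h = 2 * (x : K) := by
    rw [hx]
    push_cast
    have h5 : (4 : K) * S.s h = 4 * (2 * (2 * (c : K) - 2 * (k : K) ^ 2 - k)) := by
      linear_combination 2 * hP - hI - hs2 - ((d : K) + 4 * k + 2) * hdK
    exact mul_left_cancel₀ (by norm_num) h5
  have hhI : h ∉ S.I := by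
    intro h5
    rw [S.s_I hn h5] at hsx
    have h6 : x = 0 := by
      have h7 : (x : K) = 0 := by
        have h8 : (2 : K) * (x : K) = 0 := hsx.symm
        exact (mul_eq_zero.1 h8).resolve_left two_ne_zero
      exact_mod_cast h7
    rw [hx] at h6
    omega
  refine ⟨x, hsx, ?_⟩
  -- the imaginary part
  obtain ⟨g₀, h₀⟩ := S.I_nonempty hn
  set ι := S.χ (k : ZMod d) with hι
  have hι2 : ι ^ 2 = -1 := by
    have h5 : (ι ^ 2) ^ 2 = 1 := by
      rw [← pow_mul, hι, ← AddChar.map_nsmul_eq_pow, nsmul_eq_mul]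
      have h6 : ((2 * 2 : ℕ) : ZMod d) * (k : ZMod d) = 0 := by
        have h7 : ((4 * k : ℕ) : ZMod d) = 0 := by rw [← hd]; simp
        push_cast at h7 ⊢
        linear_combination h7
      rw [h6, AddChar.map_zero_eq_one]
    have h6 : ι ^ 2 ≠ 1 := by
      rw [hι, ← AddChar.map_nsmul_eq_pow, nsmul_eq_mul, Ne, S.prim.zmod_char_eq_one_iff]
      intro h7
      have h8 : ((2 * k : ℕ) : ZMod d) = 0 := by
        push_cast at h7 ⊢
        exact h7
      rw [ZMod.natCast_eq_zero_iff, hd] at h8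
      have := Nat.le_of_dvd (by omega) h8
      omega
    have h7 : (ι ^ 2 - 1) * (ι ^ 2 + 1) = 0 := by linear_combination h5
    have h8 := (mul_eq_zero.1 h7).resolve_left (sub_ne_zero.2 h6)
    linear_combination h8
  set Y : ℤ := ∑ g, S.eps g₀ g * (if om S.χ g h = ι then 1 else if om S.χ g h = -ι then -1 else 0)
    with hY
  have ht : S.t g₀ h = ι * (Y : K) := by
    have h5 : S.t g₀ h = ∑ g, om S.χ (-g) h * (S.eps g₀ (-g) : K) :=
      (sum_neg (fun g => om S.χ g h * (S.eps g₀ g : K))).symm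
    have h6 : 2 * S.t g₀ h = 2 * (ι * (Y : K)) := by
      have h7 : 2 * S.t g₀ h = ∑ g, (om S.χ g h * (S.eps g₀ g : K) +
          om S.χ (-g) h * (S.eps g₀ (-g) : K)) := by
        rw [Finset.sum_add_distrib, ← h5]
        unfold t
        ring
      rw [h7, hY]
      push_cast
      rw [Finset.mul_sum, Finset.mul_sum]
      refine Finset.sum_congr rfl fun g _ => ?_
      rw [S.eps_neg hn h₀]
      have h8 := om_neg' S.χ g h
      have h9 : om S.χ (-g) h = om S.χ g h ^ 3 := by
        have h10 : om S.χ g h ≠ 0 := by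
          intro h11
          rw [h11, mul_zero] at h8
          exact zero_ne_one h8
        apply mul_right_cancel₀ h10
        rw [h8]
        linear_combination - hω4 g
      rw [h9]
      have h10 : (om S.χ g h - 1) * (om S.χ g h + 1) * ((om S.χ g h - ι) * (om S.χ g h + ι)) = 0 := by
        linear_combination hω4 g - (om S.χ g h ^ 2 - 1) * hι2
      have hιne : (1 : K) ≠ ι ∧ (1 : K) ≠ -ι ∧ (-1 : K) ≠ ι ∧ (-1 : K) ≠ -ι ∧ -ι ≠ ι := by
        refine ⟨?_, ?_, ?_, ?_, ?_⟩
        · intro h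
          rw [← h] at hι2
          norm_num at hι2
        · intro h
          have : ι = -1 := by linear_combination h
          rw [this] at hι2
          norm_num at hι2
        · intro h
          rw [← h] at hι2
          norm_num at hι2
        · intro h
          have : ι = 1 := by linear_combination h
          rw [this] at hι2
          norm_num at hι2
        · intro h
          have h11 : (2 : K) * ι = 0 := by linear_combination -h
          have h12 := (mul_eq_zero.1 h11).resolve_left two_ne_zero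
          rw [h12] at hι2
          norm_num at hι2
      have hι3 : ι ^ 3 = -ι := by linear_combination ι * hι2
      rcases mul_eq_zero.1 h10 with h11 | h11
      · rcases mul_eq_zero.1 h11 with h12 | h12
        · have h13 : om S.χ g h = 1 := by linear_combination h12
          rw [h13, if_neg hιne.1, if_neg hιne.2.1]
          push_cast
          ring
        · have h13 : om S.χ g h = -1 := by linear_combination h12
          rw [h13, if_neg hιne.2.2.1, if_neg hιne.2.2.2.1]
          push_cast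
          ring
      · rcases mul_eq_zero.1 h11 with h12 | h12
        · have h13 : om S.χ g h = ι := by linear_combination h12
          rw [h13, if_pos rfl]
          push_cast
          linear_combination -(S.eps g₀ g : K) * hι3
        · have h13 : om S.χ g h = -ι := by linear_combination h12
          rw [h13, if_neg hιne.2.2.2.2, if_pos rfl]
          push_cast
          linear_combination (S.eps g₀ g : K) * hι3
    exact mul_left_cancel₀ two_ne_zero h6
  have h5 := S.t_sq hn h₀ h0 hhI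
  rw [ht, hsx, hdK] at h5
  have h6 : ((Y ^ 2 : ℤ) : K) = ((16 * (k * (k - x)) : ℤ) : K) := by
    push_cast
    linear_combination -h5 + (Y : K) ^ 2 * hι2
  have h7 : Y ^ 2 = 16 * (k * (k - x)) := by exact_mod_cast h6
  have h8 : (4 : ℤ) ∣ Y := by
    have h9 : (4 : ℤ) ^ 2 ∣ Y ^ 2 := ⟨k * (k - x), by rw [h7]; norm_num⟩
    exact (Int.pow_dvd_pow_iff two_ne_zero).1 h9
  obtain ⟨y, hy⟩ := h8
  rw [hy] at h7
  have h9 : y ^ 2 = k * (k - x) := by linarith [h7, show (4 * y) ^ 2 = 16 * y ^ 2 by ring]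
  have h10 : (2 : ℤ) ∣ k - x := by
    rw [hx]
    omega
  have h11 : (2 : ℤ) ∣ y := by
    have h12 : (2 : ℤ) ∣ y ^ 2 := by
      rw [h9]
      exact h10.mul_left _
    exact Int.prime_two.dvd_of_dvd_pow h12
  have h12 : (4 : ℤ) ∣ k * (k - x) := by
    obtain ⟨z, hz⟩ := h11
    rw [← h9, hz]
    exact ⟨z ^ 2, by ring⟩
  have h13 : IsCoprime (4 : ℤ) (k : ℤ) := by
    rw [Int.isCoprime_iff_gcd_eq_one]
    have h14 : Nat.Coprime 4 k := by
      have h15 : Nat.Coprime 2 k := (Nat.coprime_two_left (n := k)).2 (Nat.odd_iff.2 hk)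
      exact Nat.Coprime.pow_left 2 h15
    exact h14
  have h14 := h13.dvd_of_dvd_mul_left h12
  have h15 : x - k = -((k : ℤ) - x) := by ring
  rw [h15]
  exact (dvd_neg).2 h14

theorem four (hn : S.n ≠ 0) (hd : d % 8 = 4) : False := by
  classical
  obtain ⟨k, hk⟩ : ∃ k, d = 4 * k := ⟨d / 4, by omega⟩
  have hk2 : k % 2 = 1 := by omega
  have hdK : (d : K) = 4 * (k : K) := by
    have : ((d : ℕ) : K) = ((4 * k : ℕ) : K) := by rw [← hk]
    push_cast at this
    exact this
  have h4k : (4 : ZMod d) * (k : ZMod d) = 0 := by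
    have h7 : ((4 * k : ℕ) : ZMod d) = 0 := by rw [← hk]; simp
    push_cast at h7
    exact h7
  set hh : ℕ → ℕ → GG d := fun a b => (((k * a : ℕ) : ZMod d), ((k * b : ℕ) : ZMod d)) with hhh
  have hneg : ∀ a b a' b' : ℕ, 4 ∣ a + a' → 4 ∣ b + b' → hh a' b' = - hh a b := by
    rintro a b a' b' ⟨u, hu⟩ ⟨v, hv⟩
    have e1 : ∀ a a' u : ℕ, a + a' = 4 * u → ((k * a' : ℕ) : ZMod d) = -((k * a : ℕ) : ZMod d) := by
      intro a a' u h
      have h5 : ((a + a' : ℕ) : ZMod d) = ((4 * u : ℕ) : ZMod d) := by rw [h]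
      push_cast at h5 ⊢
      linear_combination (k : ZMod d) * h5 + (u : ZMod d) * h4k
    rw [hhh]
    ext
    · exact e1 a a' u hu
    · exact e1 b b' v hv
  have hz : ∀ a : ℕ, ((k * a : ℕ) : ZMod d) = 0 → 4 ∣ a := by
    intro a h5
    rw [ZMod.natCast_eq_zero_iff, hk, mul_comm 4 k] at h5
    exact Nat.dvd_of_mul_dvd_mul_left (by omega) h5
  have h44 : ∀ a b, sm 4 (hh a b) = 0 := by
    intro a b
    rw [hhh]
    unfold sm
    ext
    · change _ = (0 : ZMod d)
      push_cast
      linear_combination (a : ZMod d) * h4k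
    · change _ = (0 : ZMod d)
      push_cast
      linear_combination (b : ZMod d) * h4k
  have h2ne : ∀ a b, (a % 2 = 1 ∨ b % 2 = 1) → sm 2 (hh a b) ≠ 0 := by
    intro a b hab h5
    have e1 : ((k * (2 * a) : ℕ) : ZMod d) = 0 := by
      have h6 : ((2 : ℕ) : ZMod d) * ((k * a : ℕ) : ZMod d) = 0 := congrArg Prod.fst h5
      push_cast at h6 ⊢
      linear_combination h6
    have e2 : ((k * (2 * b) : ℕ) : ZMod d) = 0 := by
      have h6 : ((2 : ℕ) : ZMod d) * ((k * b : ℕ) : ZMod d) = 0 := congrArg Prod.snd h5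
      push_cast at h6 ⊢
      linear_combination h6
    have := hz _ e1
    have := hz _ e2
    omega
  have htor : ∀ a b, (a % 4 = 2 ∧ b % 4 = 2 ∨ a % 4 = 2 ∧ b % 4 = 0 ∨ a % 4 = 0 ∧ b % 4 = 2) →
      2 * S.s (hh a b) = (d : K) := by
    intro a b hab
    apply S.s_tor hn
    · intro h5
      have h6 := hz a (congrArg Prod.fst h5)
      have h7 := hz b (congrArg Prod.snd h5)
      omega
    · exact (hneg a b a b (by omega) (by omega)).symm
  have hsym : ∀ a b a' b' : ℕ, 4 ∣ a + a' → 4 ∣ b + b' → S.s (hh a' b') = S.s (hh a b) := by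
    intro a b a' b' h5 h6
    rw [hneg a b a' b' h5 h6, S.s_neg hn]
  obtain ⟨x1, hx1, hy1⟩ := S.ord4 hn hk2 hk (h44 0 1) (h2ne 0 1 (by norm_num))
  obtain ⟨x2, hx2, hy2⟩ := S.ord4 hn hk2 hk (h44 1 0) (h2ne 1 0 (by norm_num))
  obtain ⟨x3, hx3, hy3⟩ := S.ord4 hn hk2 hk (h44 1 1) (h2ne 1 1 (by norm_num))
  obtain ⟨x4, hx4, hy4⟩ := S.ord4 hn hk2 hk (h44 1 2) (h2ne 1 2 (by norm_num))
  obtain ⟨x5, hx5, hy5⟩ := S.ord4 hn hk2 hk (h44 1 3) (h2ne 1 3 (by norm_num))
  obtain ⟨x6, hx6, hy6⟩ := S.ord4 hn hk2 hk (h44 2 1) (h2ne 2 1 (by norm_num))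
  have hgeo : ∀ g : GG d, ∃ j : ℕ, ∑ a ∈ Finset.range 4, ∑ b ∈ Finset.range 4,
      om S.χ g (hh a b) = ((4 ^ 2 * j : ℕ) : K) := by
    intro g
    have hω : ∀ x : ZMod d, (S.χ (x * (k : ZMod d))) ^ 4 = 1 := by
      intro x
      rw [← AddChar.map_nsmul_eq_pow]
      have h5 : 4 • (x * (k : ZMod d)) = 0 := by
        rw [nsmul_eq_mul]
        push_cast
        linear_combination x * h4k
      rw [h5, AddChar.map_zero_eq_one]
    obtain ⟨j1, hj1⟩ := geo (hω g.1)
    obtain ⟨j2, hj2⟩ := geo (hω (-g.2))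
    refine ⟨j1 * j2, ?_⟩
    have h5 : ∀ a b : ℕ, om S.χ g (hh a b) =
        (S.χ (-g.2 * (k : ZMod d))) ^ a * (S.χ (g.1 * (k : ZMod d))) ^ b := by
      intro a b
      rw [← AddChar.map_nsmul_eq_pow, ← AddChar.map_nsmul_eq_pow, ← AddChar.map_add_eq_mul]
      unfold om
      congr 1
      rw [hhh]
      simp only [nsmul_eq_mul]
      push_cast
      ring
    simp only [h5]
    have h6 : ∑ a ∈ Finset.range 4, ∑ b ∈ Finset.range 4,
        (S.χ (-g.2 * (k : ZMod d))) ^ a * (S.χ (g.1 * (k : ZMod d))) ^ b =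
        (∑ a ∈ Finset.range 4, (S.χ (-g.2 * (k : ZMod d))) ^ a) *
        ∑ b ∈ Finset.range 4, (S.χ (g.1 * (k : ZMod d))) ^ b := by
      rw [Finset.sum_mul_sum]
    rw [h6, hj1, hj2]
    push_cast
    ring
  choose j hj using hgeo
  have hsum : ∑ a ∈ Finset.range 4, ∑ b ∈ Finset.range 4, S.s (hh a b) =
      16 * ((∑ g ∈ S.I, j g : ℕ) : K) := by
    unfold s
    have h6 : ∀ a, ∑ b ∈ Finset.range 4, ∑ g ∈ S.I, om S.χ g (hh a b) =
        ∑ g ∈ S.I, ∑ b ∈ Finset.range 4, om S.χ g (hh a b) := fun a => Finset.sum_comm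
    simp only [h6]
    rw [Finset.sum_comm]
    simp only [hj]
    push_cast
    rw [Finset.mul_sum]
  set J := ∑ g ∈ S.I, j g with hJ
  simp only [Finset.sum_range_succ, Finset.sum_range_zero, zero_add] at hsum
  have h00 : S.s (hh 0 0) = (S.I.card : K) := by
    have h5 : hh 0 0 = 0 := by
      rw [hhh]
      simp
    rw [h5, S.s_zero]
  have hI : 2 * (S.I.card : K) = (d : K) * ((d : K) + 1) := by
    have := S.card_I hn
    exact_mod_cast this
  have t1 := htor 0 2 (by norm_num)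
  have t2 := htor 2 0 (by norm_num)
  have t3 := htor 2 2 (by norm_num)
  have p1 := hsym 0 1 0 3 (by norm_num) (by norm_num)
  have p2 := hsym 1 0 3 0 (by norm_num) (by norm_num)
  have p3 := hsym 1 1 3 3 (by norm_num) (by norm_num)
  have p4 := hsym 1 2 3 2 (by norm_num) (by norm_num)
  have p5 := hsym 1 3 3 1 (by norm_num) (by norm_num)
  have p6 := hsym 2 1 2 3 (by norm_num) (by norm_num)
  rw [p1, p2, p3, p4, p5, p6, hx1, hx2, hx3, hx4, hx5, hx6, h00] at hsum
  have hfin : ((16 * k ^ 2 + 16 * k + 8 * (x1 + x2 + x3 + x4 + x5 + x6) : ℤ) : K) =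
      ((32 * J : ℤ) : K) := by
    push_cast
    rw [hdK] at hI t1 t2 t3
    linear_combination 2 * hsum - hI - t1 - t2 - t3
  have hfin' : (16 * k ^ 2 + 16 * k + 8 * (x1 + x2 + x3 + x4 + x5 + x6) : ℤ) = 32 * J := by
    exact_mod_cast hfin
  obtain ⟨q1, hq1⟩ := hy1
  obtain ⟨q2, hq2⟩ := hy2
  obtain ⟨q3, hq3⟩ := hy3
  obtain ⟨q4, hq4⟩ := hy4
  obtain ⟨q5, hq5⟩ := hy5
  obtain ⟨q6, hq6⟩ := hy6
  obtain ⟨u, hu⟩ : ∃ u : ℤ, (k : ℤ) = 2 * u + 1 := ⟨k / 2, by omega⟩
  have hk3 : (k : ℤ) ^ 2 = 4 * (u ^ 2 + u) + 1 := by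
    rw [hu]
    ring
  omega

end Dat

end Pool.Agent.H774.FN
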