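import Pool.Agent.H774.FN.Four

/-!
# Squarefree odd dimensions
-/

set_option autoImplicit false

open Polynomial

namespace Pool.Agent.H774.FN

theorem int_of_inv {K : Type} [Field K] [CharZero K] {d : ℕ} [NeZero d] {ζ : K}
    (hζ : IsPrimitiveRoot ζ d) (p : ℤ[X]) (v : K)
    (h : ∀ m : ℕ, m.Coprime d → aeval (ζ ^ m) p = v) : ∃ z : ℤ, v = (z : K) := by
  have hd : 0 < d := Nat.pos_of_ne_zero (NeZero.ne d)
  set Φ : ℤ[X] := cyclotomic d ℤ with hΦ
  have hmon : Φ.Monic := cyclotomic.monic d ℤ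
  set r := p %ₘ Φ with hr
  have hr1 : ∀ m : ℕ, m.Coprime d → aeval (ζ ^ m) r = v := by
    intro m hm
    have h1 : IsPrimitiveRoot (ζ ^ m) d := hζ.pow_of_coprime m hm
    have h2 : aeval (ζ ^ m) Φ = 0 := by
      have h3 : IsRoot (cyclotomic d K) (ζ ^ m) := h1.isRoot_cyclotomic hd
      rw [hΦ, aeval_def, eval₂_eq_eval_map, map_cyclotomic]
      exact h3
    have h4 := congrArg (aeval (ζ ^ m)) (modByMonic_add_div p Φ)
    rw [map_add, map_mul, h2, zero_mul, add_zero] at h4
    rw [hr, h4, h m hm]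
  have hdeg : r.natDegree < d.totient := by
    have h1 : Φ.natDegree = d.totient := natDegree_cyclotomic d ℤ
    rw [← h1]
    apply natDegree_modByMonic_lt p hmon
    intro h2
    rw [h2, natDegree_one] at h1
    exact absurd h1.symm (Nat.totient_pos.2 hd).ne'
  have hR : r.map (algebraMap ℤ K) - C v = 0 := by
    apply eq_zero_of_natDegree_lt_card_of_eval_eq_zero' _ (primitiveRoots d K)
    · intro x hx
      rw [mem_primitiveRoots hd, hζ.isPrimitiveRoot_iff] at hx
      obtain ⟨i, _, hi, rfl⟩ := hx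
      rw [eval_sub, eval_C, ← eval₂_eq_eval_map, ← aeval_def, hr1 i hi, sub_self]
    · rw [hζ.card_primitiveRoots]
      refine lt_of_le_of_lt (natDegree_sub_le _ _) ?_
      rw [natDegree_C]
      exact max_lt (lt_of_le_of_lt natDegree_map_le hdeg) (Nat.totient_pos.2 hd)
  refine ⟨r.coeff 0, ?_⟩
  have h1 := congrArg (fun q : K[X] => coeff q 0) hR
  simp only [coeff_sub, coeff_map, coeff_C_zero, coeff_zero] at h1
  rw [sub_eq_zero] at h1
  rw [← h1]
  simp

theorem sum_pow_prime {R : Type} [CommRing R] {p : ℕ} (hp : p.Prime) {ι : Type} (s : Finset ι)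
    (a : ι → R) : ∃ r, (∑ i ∈ s, a i) ^ p = ∑ i ∈ s, a i ^ p + (p : R) * r := by
  classical
  induction s using Finset.induction_on with
  | empty => exact ⟨0, by simp [hp.ne_zero]⟩
  | insert x s hx ih =>
    obtain ⟨r, hr⟩ := ih
    obtain ⟨r', hr'⟩ := exists_add_pow_prime_eq hp (a x) (∑ i ∈ s, a i)
    refine ⟨r + a x * (∑ i ∈ s, a i) * r', ?_⟩
    rw [Finset.sum_insert hx, Finset.sum_insert hx, hr', hr]
    ring

theorem frob {K : Type} [Field K] {p : ℕ} (hp : p.Prime) {ι : Type} (s : Finset ι)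
    (a : ι → K) (ha : ∀ i, IsIntegral ℤ (a i)) :
    ∃ r, IsIntegral ℤ r ∧ (∑ i ∈ s, a i) ^ p = ∑ i ∈ s, a i ^ p + (p : K) * r := by
  let b : ι → integralClosure ℤ K := fun i => ⟨a i, ha i⟩
  obtain ⟨r, hr⟩ := sum_pow_prime hp s b
  refine ⟨r, r.2, ?_⟩
  have h := congrArg (algebraMap (integralClosure ℤ K) K) hr
  rw [map_pow, map_sum, map_add, map_sum, map_mul, map_natCast] at h
  simp only [map_pow] at h
  exact h

namespace Dat

variable {d : ℕ} [NeZero d] {K : Type} [Field K] [CharZero K] (S : Dat d K)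

theorem s_unit (hn : S.n ≠ 0) {m : ℕ} (hm : m.Coprime d) (h : GG d) : S.s (sm m h) = S.s h := by
  rw [S.s_eq, S.s_eq, S.F_one_unit hn hm]

theorem s_int (hn : S.n ≠ 0) (h : GG d) : ∃ z : ℤ, S.s h = (z : K) := by
  apply int_of_inv (root_prim S.prim) (∑ g ∈ S.I, X ^ (g.1 * h.2 - h.1 * g.2).val)
  intro m hm
  rw [← S.s_unit hn hm h, map_sum]
  unfold s
  refine Finset.sum_congr rfl fun g _ => ?_
  rw [om_sm, map_pow, aeval_X, ← pow_mul, ← AddChar.map_nsmul_eq_pow, nsmul_eq_mul, mul_one,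
    Nat.cast_mul, ZMod.natCast_zmod_val]

theorem s_frob {p : ℕ} (hp : p.Prime) (h : GG d) :
    ∃ r, IsIntegral ℤ r ∧ S.s h ^ p = S.s (sm p h) + (p : K) * r := by
  obtain ⟨r, hr, h1⟩ := frob hp S.I (fun g => om S.χ g h) (fun g => om_int S.prim g h)
  refine ⟨r, hr, ?_⟩
  unfold s
  rw [h1]
  congr 1
  refine Finset.sum_congr rfl fun g _ => ?_
  rw [om_pow']

theorem t_frob {p : ℕ} (hp : p.Prime) (hp2 : p ≠ 2) (g₀ h : GG d) :
    ∃ r, IsIntegral ℤ r ∧ S.t g₀ h ^ p = S.t g₀ (sm p h) + (p : K) * r := by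
  obtain ⟨r, hr, h1⟩ := frob hp Finset.univ (fun g => om S.χ g h * (S.eps g₀ g : K))
    (fun g => (om_int S.prim g h).mul (isIntegral_algebraMap (R := ℤ) (x := S.eps g₀ g)))
  refine ⟨r, hr, ?_⟩
  unfold t
  rw [h1]
  congr 1
  refine Finset.sum_congr rfl fun g _ => ?_
  rw [mul_pow, om_pow']
  congr 1
  have hodd : Odd p := hp.odd_of_ne_two hp2
  unfold eps
  split_ifs
  · simp
  · push_cast
    exact hodd.neg_one_pow
  · simp [hp.ne_zero]

theorem t_int (g₀ h : GG d) : IsIntegral ℤ (S.t g₀ h) := by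
  unfold t
  exact IsIntegral.sum _ fun g _ =>
    (om_int S.prim g h).mul (isIntegral_algebraMap (R := ℤ) (x := S.eps g₀ g))

/-- **Divisibility.** -/
theorem s_dvd (hn : S.n ≠ 0) {p : ℕ} (hp : p.Prime) (hp2 : p ≠ 2) (hpd : p ∣ d)
    (hpp : ¬ p ^ 2 ∣ d) (h : GG d) {z : ℤ} (hz : S.s h = (z : K)) : (p : ℤ) ∣ z := by
  have hpK : (p : K) ≠ 0 := Nat.cast_ne_zero.2 hp.ne_zero
  have hpI : Prime (p : ℤ) := Nat.prime_iff_prime_int.1 hp
  have hnot2 : ¬ (p : ℤ) ∣ 2 := by
    intro h1
    have h2 : p ∣ 2 := by exact_mod_cast h1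
    exact hp2 ((Nat.prime_dvd_prime_iff_eq hp Nat.prime_two).1 h2)
  -- the values at multiples of `p`
  have key : ∃ w : ℤ, S.s (sm p h) = (w : K) ∧ (p : ℤ) ∣ w := by
    obtain ⟨w, hw⟩ := S.s_int hn (sm p h)
    refine ⟨w, hw, ?_⟩
    by_cases h0 : sm p h = 0
    · rw [h0, S.s_zero] at hw
      have h1 : (w : ℤ) = S.I.card := by exact_mod_cast hw.symm
      have h2 : (p : ℤ) ∣ 2 * w := by
        rw [h1]
        have h3 : ((2 * S.I.card : ℕ) : ℤ) = ((d * (d + 1) : ℕ) : ℤ) := by rw [S.card_I hn]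
        have h4 : (2 * (S.I.card : ℤ)) = ((d * (d + 1) : ℕ) : ℤ) := by
          rw [← h3]
          push_cast
          ring
        rw [h4]
        exact Int.natCast_dvd_natCast.2 (hpd.mul_right _)
      exact (hpI.dvd_or_dvd h2).resolve_left hnot2
    · by_cases hI : sm p h ∈ S.I
      · rw [S.s_I hn hI] at hw
        have h1 : w = 0 := by exact_mod_cast hw.symm
        rw [h1]
        exact dvd_zero _
      · obtain ⟨g₀, h₀⟩ := S.I_nonempty hn
        obtain ⟨e, he⟩ := hpd
        have hpe : p.Coprime e := by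
          rw [hp.coprime_iff_not_dvd]
          rintro ⟨f, hf⟩
          apply hpp
          exact ⟨f, by rw [he, hf]; ring⟩
        obtain ⟨m, hm1, hm2⟩ := Nat.chineseRemainder hpe 1 p
        have hmc : m.Coprime d := by
          rw [he]
          apply Nat.Coprime.mul_right
          · have h5 := hm1.gcd_eq
            rw [Nat.gcd_one_left] at h5
            exact h5
          · have h5 := hm2.gcd_eq
            rw [hpe.gcd_eq_one] at h5
            exact h5
        have hmp : sm m (sm p h) = sm p (sm p h) := by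
          have h5 : ((m * p : ℕ) : ZMod d) = ((p * p : ℕ) : ZMod d) := by
            rw [ZMod.natCast_eq_natCast_iff]
            have h6 : m * p ≡ p * p [MOD e * p] := hm2.mul_right' p
            rw [mul_comm e p, ← he] at h6
            exact h6
          rw [sm_sm, sm_sm]
          unfold sm
          rw [h5]
        set h' := sm p h with hh'
        have hm0 : sm m h' ≠ 0 := by
          intro h1
          rw [← sm_zero (d := d) m] at h1
          exact h0 (sm_inj hmc h1)
        have hmI : sm m h' ∉ S.I := by rwa [S.I_unit_iff hn hmc]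
        have e1 := S.t_sq hn h₀ h0 hI
        have e2 := S.t_sq hn h₀ hm0 hmI
        rw [S.s_unit hn hmc] at e2
        rw [hw] at e1 e2
        have heK : (d : K) = (p : K) * (e : K) := by
          have : ((d : ℕ) : K) = ((p * e : ℕ) : K) := by rw [← he]
          push_cast at this
          exact this
        obtain ⟨r, hr, hrt⟩ := S.t_frob hp hp2 g₀ h'
        rw [← hmp] at hrt
        have hp2' : 2 ≤ p := hp.two_le
        have e3 : S.t g₀ h' ^ p = (p : K) * (-(e : K) * ((d : K) - 2 * w) * S.t g₀ h' ^ (p - 2)) := by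
          have h6 : S.t g₀ h' ^ p = S.t g₀ h' ^ 2 * S.t g₀ h' ^ (p - 2) := by
            rw [← pow_add]
            congr 1
            omega
          rw [h6, e1, heK]
          ring
        set q : K := -(e : K) * ((d : K) - 2 * w) * S.t g₀ h' ^ (p - 2) - r with hq
        have hqint : IsIntegral ℤ q := by
          rw [hq]
          have h7 : IsIntegral ℤ (-(e : K) * ((d : K) - 2 * w)) := by
            have h8 : (-(e : K) * ((d : K) - 2 * w)) =
                algebraMap ℤ K (-(e : ℤ) * ((d : ℤ) - 2 * w)) := by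
              simp
            rw [h8]
            exact isIntegral_algebraMap
          exact (h7.mul ((S.t_int g₀ h').pow _)).sub hr
        have e4 : S.t g₀ (sm m h') = (p : K) * q := by
          rw [hq]
          linear_combination e3 - hrt
        have e5 : (((p : ℤ) ^ 2 : ℤ) : K) * q ^ 2 = ((-(d : ℤ) * ((d : ℤ) - 2 * w) : ℤ) : K) := by
          push_cast
          rw [e4] at e2
          linear_combination e2
        have e6 := int_of_integral (pow_ne_zero 2 hpI.ne_zero) (hqint.pow 2) e5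
        have e7 : (p : ℤ) ∣ (d : ℤ) - 2 * w := by
          have h8 : (p : ℤ) * p ∣ (p : ℤ) * (-(e : ℤ) * ((d : ℤ) - 2 * w)) := by
            have h9 : (p : ℤ) * (-(e : ℤ) * ((d : ℤ) - 2 * w)) = -(d : ℤ) * ((d : ℤ) - 2 * w) := by
              have : (d : ℤ) = (p : ℤ) * e := by exact_mod_cast he
              rw [this]
              ring
            rw [h9, ← sq]
            exact e6
          have h10 := (mul_dvd_mul_iff_left hpI.ne_zero).1 h8
          rcases hpI.dvd_or_dvd h10 with h11 | h11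
          · exfalso
            rw [dvd_neg] at h11
            have h12 : p ∣ e := by exact_mod_cast h11
            exact (hp.coprime_iff_not_dvd.1 hpe) h12
          · exact h11
        have e8 : (p : ℤ) ∣ (d : ℤ) := by
          rw [he]
          push_cast
          exact dvd_mul_right _ _
        have e9 : (p : ℤ) ∣ 2 * w := by
          have := dvd_sub e8 e7
          have h13 : (d : ℤ) - ((d : ℤ) - 2 * w) = 2 * w := by ring
          rwa [h13] at this
        exact (hpI.dvd_or_dvd e9).resolve_left hnot2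
  obtain ⟨w, hw, hpw⟩ := key
  obtain ⟨r, hr, hrs⟩ := S.s_frob hp h
  rw [hw, hz] at hrs
  have h1 : ((p : ℤ) : K) * r = ((z ^ p - w : ℤ) : K) := by
    push_cast
    linear_combination -hrs
  have h2 := int_of_integral hpI.ne_zero hr h1
  have h3 : (p : ℤ) ∣ z ^ p := by
    have := dvd_add h2 hpw
    rwa [sub_add_cancel] at this
  exact hpI.dvd_of_dvd_pow h3

/-- Parseval -/
theorem parseval (hn : S.n ≠ 0) : ∑ h, S.s h ^ 2 = (d : K) ^ 2 * (S.I.card : K) := by
  classical
  have h1 : ∀ h, S.s h ^ 2 = (d : K) ^ 2 *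
      (Fo S.χ (fun g => (S.oneI g : K)) h * Fo S.χ (fun g => (S.oneI g : K)) h) := fun h => by
    rw [S.s_eq]
    ring
  simp only [h1]
  rw [← Finset.mul_sum]
  congr 1
  rw [Fo_sym]
  have h2 : ∀ g, (S.oneI g : K) * Fo S.χ (fun g => Fo S.χ (fun g => (S.oneI g : K)) g) (-g) =
      if g ∈ S.I then 1 else 0 := by
    intro g
    by_cases hg : g ∈ S.I
    · rw [if_pos hg]
      have h3 : (S.oneI g : K) = 1 := by
        unfold oneI
        rw [if_pos hg]
        simp
      rw [h3, one_mul]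
      have h4 : 2 * S.n * Fo S.χ (fun g => Fo S.χ (fun g => (S.oneI g : K)) g) (-g) =
          S.n * S.E (-g) - S.M (-g) := by
        rw [← S.Fo_mul]
        simp only [S.F_one]
        rw [S.Fo_sub, S.Fo_mul]
        have h5 : Fo S.χ (fun g => S.E g) (-g) = S.E (-g) := S.F_P _ _ _ _ (-g)
        have h6 : Fo S.χ (fun g => S.N g) (-g) = S.M (-g) := S.F_P _ _ _ _ (-g)
        rw [h5, h6]
      rw [S.E_neg, S.M_neg] at h4
      have h7 := S.κ_sq g
      have hE : S.E g = 1 := S.E_one (S.I_ne_zero hg)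
      rw [S.I_sq hg, S.I_N hg, hE] at h7
      rw [hE] at h4
      apply mul_left_cancel₀ (mul_ne_zero two_ne_zero hn)
      rw [h4]
      linear_combination h7
    · rw [if_neg hg]
      have h3 : (S.oneI g : K) = 0 := by
        unfold oneI
        rw [if_neg hg]
        simp
      rw [h3, zero_mul]
  simp only [h2]
  rw [Finset.sum_ite_mem, Finset.univ_inter, Finset.sum_const, nsmul_eq_mul, mul_one]

/-- **Squarefree odd dimensions.** -/
theorem sqf (hn : S.n ≠ 0) (hd : d % 2 = 1) (hsq : Squarefree d) : d ≤ 3 := by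
  classical
  choose z hz using S.s_int hn
  have hdvd : ∀ h, (d : ℤ) ∣ z h := by
    intro h
    have h1 : ∏ p ∈ d.primeFactors, p ∣ (z h).natAbs := by
      apply Finset.prod_primes_dvd
      · intro p hp
        exact (Nat.prime_of_mem_primeFactors hp).prime
      · intro p hp
        have hpp := Nat.prime_of_mem_primeFactors hp
        have hpd := Nat.dvd_of_mem_primeFactors hp
        have h2 : (p : ℤ) ∣ z h := by
          apply S.s_dvd hn hpp _ hpd _ h (hz h)
          · rintro rfl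
            omega
          · intro h3
            rw [sq] at h3
            exact hpp.one_lt.ne' (Nat.isUnit_iff.1 (hsq p h3))
        exact Int.natCast_dvd.1 h2
    rw [Nat.prod_primeFactors_of_squarefree hsq] at h1
    exact Int.natCast_dvd.2 h1
  have hne : ∀ h, h ≠ 0 → h ∉ S.I → z h ≠ 0 := by
    intro h h0 hh h1
    have h2 := S.W_int hn h0 hh
    rw [hz, h1] at h2
    have h3 : ((2 : ℤ) : K) * (((d : K) - ((0 : ℤ) : K)) / 2) = ((d : ℤ) : K) := by
      push_cast
      ring
    have h4 := int_of_integral two_ne_zero h2 h3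
    omega
  have hsqz : ∀ h, h ≠ 0 → h ∉ S.I → (d : ℤ) ^ 2 ≤ z h ^ 2 := by
    intro h h0 hh
    obtain ⟨q, hq⟩ := hdvd h
    have hq0 : q ≠ 0 := by
      rintro rfl
      exact hne h h0 hh (by rw [hq]; ring)
    have hq1 : 0 < q ^ 2 := by positivity
    have hd0 : 0 ≤ (d : ℤ) ^ 2 := by positivity
    rw [hq, mul_pow]
    nlinarith
  set c := S.I.card with hc
  have h2c : 2 * (c : ℤ) = (d : ℤ) * (d + 1) := by
    have := S.card_I hn
    exact_mod_cast this
  have hz0 : z 0 = (c : ℤ) := by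
    have h1 := hz 0
    rw [S.s_zero] at h1
    exact_mod_cast h1.symm
  have hP : ∑ h, z h ^ 2 = (d : ℤ) ^ 2 * (c : ℤ) := by
    have h1 := S.parseval hn
    simp only [hz] at h1
    exact_mod_cast h1
  set T := (insert (0 : GG d) S.I)ᶜ with hT
  have h0I : (0 : GG d) ∉ S.I := fun h => S.I_ne_zero h rfl
  have hTc : (c : ℤ) + 1 + T.card = (d : ℤ) ^ 2 := by
    have h1 := Finset.card_add_card_compl (insert (0 : GG d) S.I)
    rw [Finset.card_insert_of_notMem h0I, Fintype.card_prod, ZMod.card] at h1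
    rw [sq]
    exact_mod_cast h1
  have h0T : (0 : GG d) ∉ T := by
    rw [hT]
    simp
  have hle : (c : ℤ) ^ 2 + T.card * (d : ℤ) ^ 2 ≤ (d : ℤ) ^ 2 * (c : ℤ) := by
    rw [← hP, ← hz0]
    calc z 0 ^ 2 + T.card * (d : ℤ) ^ 2 ≤ z 0 ^ 2 + ∑ h ∈ T, z h ^ 2 := by
          have h1 : (T.card : ℤ) * (d : ℤ) ^ 2 ≤ ∑ h ∈ T, z h ^ 2 := by
            rw [← nsmul_eq_mul]
            apply Finset.card_nsmul_le_sum
            intro h hh
            rw [hT, Finset.mem_compl, Finset.mem_insert, not_or] at hh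
            exact hsqz h hh.1 hh.2
          linarith
      _ = ∑ h ∈ insert 0 T, z h ^ 2 := by rw [Finset.sum_insert h0T]
      _ ≤ ∑ h, z h ^ 2 := by
          apply Finset.sum_le_sum_of_subset_of_nonneg (Finset.subset_univ _)
          intro i _ _
          positivity
  by_contra hcon
  have hd4 : (4 : ℤ) ≤ d := by
    push Not at hcon
    exact_mod_cast hcon
  have h5 : (d : ℤ) ^ 2 * (((d : ℤ) + 1) * (d - 3)) =
      4 * ((c : ℤ) ^ 2 + T.card * (d : ℤ) ^ 2 - (d : ℤ) ^ 2 * c) := by
    linear_combination (-(2 * (c : ℤ) + d * (d + 1)) + 4 * (d : ℤ) ^ 2) * h2c -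
      4 * (d : ℤ) ^ 2 * hTc
  have h6 : 0 < (d : ℤ) ^ 2 * (((d : ℤ) + 1) * (d - 3)) := by
    have h7 : 0 < (d : ℤ) := by linarith
    have h8 : 0 < (d : ℤ) - 3 := by linarith
    positivity
  linarith

end Dat

end Pool.Agent.H774.FN
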