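import Pool.Agent.H774.FN.PrimePow
import Pool.Agent.H774.FN.Sqf
import Pool.Agent.H774.FN.Eight
import Pool.Agent.H774.FN.Alg

/-!
# Dimensions without nonconstant fiducial vectors
-/

set_option autoImplicit false

namespace Pool.Agent.H774.FN

theorem rigid {d : ℕ} [NeZero d] (h8' : d % 8 ≠ 0 ∨ d = 8)
    (h3 : d % 8 = 3 → (Squarefree d ∧ d ≠ 3) ∨ (∃ p, p.Prime ∧ p ∣ d ∧ p % 4 = 1) ∨
      ∃ p k, p.Prime ∧ 5 ≤ p ∧ d = p ^ k) :
    Rigid d := by
  intro K _ _ S
  by_contra hn
  rcases h8' with h8 | h8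
  swap
  · subst h8
    exact S.eight hn
  rcases Nat.mod_two_eq_zero_or_one d with h2 | h2
  · have h4 := S.main hn
    have h5 : Nat.Coprime 4 (d + 1) := by
      have h6 : Nat.Coprime 2 (d + 1) := by
        rw [Nat.coprime_two_left, Nat.odd_iff]
        omega
      exact Nat.Coprime.pow_left 2 h6
    have h6 : 4 ∣ d := h5.dvd_of_dvd_mul_right h4
    have h7 : d % 8 = 4 := by omega
    exact S.four hn h7
  · have h4 := S.seven hn h2
    rcases h3 h4 with ⟨hsq, hd3⟩ | ⟨p, hp, hpd, hp4⟩ | ⟨p, k, hp, hp5, hd⟩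
    · have := S.sqf hn h2 hsq
      omega
    · exact S.one_mod hn h2 hp hpd hp4
    · have hpodd : p % 2 = 1 := by
        rcases hp.eq_two_or_odd with h | h
        · omega
        · exact h
      have hk : k ≠ 0 := by
        rintro rfl
        rw [pow_zero] at hd
        rw [hd] at h4
        norm_num at h4
      have h5 : p % 4 = 1 ∨ p % 4 = 3 := by omega
      rcases h5 with h5 | h5
      · exact S.one_mod hn h2 hp (by rw [hd]; exact dvd_pow_self p hk) h5
      · exact S.prime_pow hn hp h5 (by omega) hd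

end Pool.Agent.H774.FN
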