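import Pool.Agent.H774.FN.Ult
import Pool.Agent.H774.CR.Orbit

/-!
# Isolation of the orbits of the Weyl-Heisenberg group
-/

set_option autoImplicit false
set_option linter.unusedSectionVars false

open Finset Filter Topology

namespace Pool.Agent.H774.FN

open Pool.Agent.Y387.SF Pool.Agent.Y387.MD Pool.Agent.H774.IS Pool.Agent.H774.CR

variable (d : ℕ) [NeZero d]

theorem wh_card : Fintype.card (ZMod d × ZMod d) = d ^ 2 := by
  rw [Fintype.card_prod, ZMod.card, sq]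

theorem wh_rank : Module.finrank ℂ (EuclideanSpace ℂ (ZMod d)) = d := by
  rw [finrank_euclideanSpace, ZMod.card]

/-- translations -/
def trG : Subgroup (Equiv.Perm (ZMod d × ZMod d)) where
  carrier := Set.range Equiv.addLeft
  mul_mem' := by
    rintro _ _ ⟨a, rfl⟩ ⟨b, rfl⟩
    exact ⟨a + b, (addLeft_mul a b).symm⟩
  one_mem' := ⟨0, Equiv.ext fun a => zero_add a⟩
  inv_mem' := by
    rintro _ ⟨a, rfl⟩
    refine ⟨-a, Equiv.ext fun b => ?_⟩
    rw [Equiv.Perm.inv_def]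
    simp

theorem om_pow {V : Type*} [NormedAddCommGroup V] [InnerProductSpace ℂ V]
    [FiniteDimensional ℂ V] {Γ : Type*} [AddCommGroup Γ] [Fintype Γ] [DecidableEq Γ] {x : Γ → V}
    {D : ℕ} {U : Γ → V ≃ₗᵢ[ℂ] V} (h : Cov D x U) (g k : Γ) (n : ℕ) :
    CR.om h g (n • k) = CR.om h g k ^ n := by
  induction n with
  | zero => rw [zero_nsmul, om_zero, pow_zero]
  | succ n ih => rw [succ_nsmul, om_add, ih, pow_succ]

/-- frames near an orbit are orbits up to equivalence -/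
theorem wh_near (hd3 : d ≠ 3) {ψ : ZMod d → ℂ} (hx : IsEtf d (disp d ψ)) :
    ∃ ε > 0, ∀ y : ZMod d × ZMod d → EuclideanSpace ℂ (ZMod d), IsEtf d y →
      (∀ i j k, ‖tp y i j k - tp (disp d ψ) i j k‖ < ε) →
      ∃ (φ : ZMod d → ℂ) (T : EuclideanSpace ℂ (ZMod d) ≃ₗᵢ[ℂ] EuclideanSpace ℂ (ZMod d)),
        ∀ k, ∃ c : ℂ, ‖c‖ = 1 ∧ T (y k) = c • disp d φ k := by
  have hd : 1 ≤ d := Nat.pos_of_ne_zero (NeZero.ne d)
  obtain ⟨ε₁, hε₁, h1⟩ := near hx hd hd3 (wh_card d) (wh_rank d) (trG d)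
    (by
      rintro _ ⟨a, rfl⟩ _ ⟨b, rfl⟩
      rw [addLeft_mul, addLeft_mul, add_comm])
    (fun i j => ⟨Equiv.addLeft (j - i), ⟨_, rfl⟩, by simp⟩)
    (by
      rintro _ ⟨a, rfl⟩
      exact ⟨_, dU_ind d ψ a⟩)
  set a := tp (disp d ψ) 0 (1, 0) ((0, 1) + (1, 0)) with ha
  set b := tp (disp d ψ) 0 (0, 1) ((0, 1) + (1, 0)) with hb
  have hab : a = zt d * b := tp_wh d hx
  have hb0 : b ≠ 0 := mul_ne_zero (mul_ne_zero (hx.ne_zero _ _) (hx.ne_zero _ _)) (hx.ne_zero _ _)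
  have hbn : 0 < ‖b‖ := norm_pos_iff.2 hb0
  set F : Set ℂ := {ω | ω ^ d = 1} \ {zt d} with hF
  have hFfin : F.Finite := by
    have h2 : {ω : ℂ | ω ^ d = 1}.Finite := by
      have h3 : {ω : ℂ | ω ^ d = 1} ⊆ ((Polynomial.nthRootsFinset d (1 : ℂ) : Finset ℂ) : Set ℂ) := by
        intro ω hω
        rw [Finset.mem_coe, Polynomial.mem_nthRootsFinset hd]
        exact hω
      exact (Finset.finite_toSet _).subset h3
    exact h2.subset Set.sdiff_subset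
  obtain ⟨δ, hδ, h2⟩ := Metric.isOpen_iff.1 hFfin.isClosed.isOpen_compl (zt d)
    (fun h0 => h0.2 rfl)
  have hz1 : ‖zt d‖ = 1 := (zt_prim d).norm'_eq_one (NeZero.ne d)
  refine ⟨min ε₁ (min (‖b‖ / 2) (δ * ‖b‖ / 4)), lt_min hε₁ (lt_min (by positivity) (by positivity)),
    fun y hy hyx => ?_⟩
  have hsym := h1 y hy fun i j k => (hyx i j k).trans_le (min_le_left _ _)
  have hsym' : ∀ g, ∃ U : EuclideanSpace ℂ (ZMod d) ≃ₗᵢ[ℂ] EuclideanSpace ℂ (ZMod d),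
      Ind y U (Equiv.addLeft g) := fun g => hsym _ ⟨g, rfl⟩
  apply orbit_of d hy hsym'
  set a' := tp y 0 (1, 0) ((0, 1) + (1, 0)) with ha'
  set b' := tp y 0 (0, 1) ((0, 1) + (1, 0)) with hb'
  choose W hW using hsym'
  have hcov : Cov d y W := ⟨hy, hd, wh_card d, wh_rank d, hW⟩
  have hω : a' = CR.om hcov (0, 1) (1, 0) * b' :=
    comm_tp hy (hW (0, 1)) (hW (1, 0)) (om_spec hcov (0, 1) (1, 0))
  have hωd : CR.om hcov (0, 1) (1, 0) ^ d = 1 := by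
    rw [← om_pow]
    have h3 : d • ((1, 0) : ZMod d × ZMod d) = 0 := by
      ext <;> simp
    rw [h3, om_zero]
  set ω := CR.om hcov (0, 1) (1, 0) with hωdef
  have h3 : ‖a' - a‖ < δ * ‖b‖ / 4 :=
    (hyx _ _ _).trans_le ((min_le_right _ _).trans (min_le_right _ _))
  have h4 : ‖b' - b‖ < δ * ‖b‖ / 4 :=
    (hyx _ _ _).trans_le ((min_le_right _ _).trans (min_le_right _ _))
  have h5 : ‖b' - b‖ < ‖b‖ / 2 :=
    (hyx _ _ _).trans_le ((min_le_right _ _).trans (min_le_left _ _))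
  have h6 : ‖b‖ / 2 < ‖b'‖ := by
    have h7 : ‖b‖ ≤ ‖b'‖ + ‖b' - b‖ := by
      have h8 := norm_sub_le b' (b' - b)
      rwa [sub_sub_cancel] at h8
    linarith
  have h7 : ‖(ω - zt d) * b'‖ < δ * ‖b‖ / 2 := by
    have h8 : (ω - zt d) * b' = (a' - a) - zt d * (b' - b) := by
      rw [hω, hab]
      ring
    rw [h8]
    calc ‖(a' - a) - zt d * (b' - b)‖ ≤ ‖a' - a‖ + ‖zt d * (b' - b)‖ := norm_sub_le _ _
      _ = ‖a' - a‖ + ‖b' - b‖ := by rw [norm_mul, hz1, one_mul]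
      _ < δ * ‖b‖ / 4 + δ * ‖b‖ / 4 := add_lt_add h3 h4
      _ = δ * ‖b‖ / 2 := by ring
  have h8 : ‖ω - zt d‖ < δ := by
    rw [norm_mul] at h7
    by_contra hcon
    push Not at hcon
    have h9 : δ * (‖b‖ / 2) < ‖ω - zt d‖ * ‖b'‖ := by
      calc δ * (‖b‖ / 2) < δ * ‖b'‖ := by gcongr
        _ ≤ ‖ω - zt d‖ * ‖b'‖ := by gcongr
    linarith
  have h9 : ω ∈ Fᶜ := h2 (by rw [Metric.mem_ball, dist_eq_norm]; exact h8)
  have h10 : ω = zt d := by
    by_contra hne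
    exact h9 ⟨hωd, hne⟩
  rw [hω, h10]

/-- the inner products of an orbit -/
theorem inner_disp (ψ : ZMod d → ℂ) (g : ZMod d × ZMod d) :
    inner ℂ (disp d ψ 0) (disp d ψ g) = H (starRingEnd ℂ) ZMod.stdAddChar ψ ψ g := by
  unfold disp H
  rw [PiLp.inner_apply]
  refine Finset.sum_congr rfl fun j _ => ?_
  simp only [RCLike.inner_apply, Prod.fst_zero, Prod.snd_zero, zero_mul, sub_zero,
    AddChar.map_zero_eq_one, one_mul]
  ring

theorem fid_of_etf {ψ : ZMod d → ℂ} (hx : IsEtf d (disp d ψ)) : Fid ψ := by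
  constructor
  · rw [← H_zero (χ := ZMod.stdAddChar), ← inner_disp, hx.inner_self]
  · intro g hg
    rw [← inner_disp]
    have h1 := hx.ang 0 g hg.symm
    have h2 : (0 : ℝ) < (d : ℝ) + 1 := by positivity
    rw [Complex.mul_conj, Complex.normSq_eq_norm_sq, h1]
    have h3 : ((d : ℝ) + 1) * (1 / Real.sqrt ((d : ℝ) + 1)) ^ 2 = 1 := by
      rw [div_pow, one_pow, Real.sq_sqrt h2.le]
      field_simp
    exact_mod_cast h3

/-- vectors with the same projection differ by a phase -/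
theorem phase_eq {ψ φ : ZMod d → ℂ} (hψ : Fid ψ)
    (h : (fun i j => ψ i * starRingEnd ℂ (ψ j)) = fun i j => φ i * starRingEnd ℂ (φ j)) :
    ∃ c : ℂ, ‖c‖ = 1 ∧ ψ = fun i => c * φ i := by
  have h1 : ∃ j, ψ j ≠ 0 := by
    by_contra hcon
    push Not at hcon
    have h2 := hψ.1
    unfold ip at h2
    simp [hcon] at h2
  obtain ⟨j, hj⟩ := h1
  have h2 : ∀ i k, ψ i * starRingEnd ℂ (ψ k) = φ i * starRingEnd ℂ (φ k) := fun i k =>
    congrFun (congrFun h i) k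
  have hn : ‖ψ j‖ = ‖φ j‖ := by
    have h3 := h2 j j
    rw [Complex.mul_conj, Complex.mul_conj, Complex.normSq_eq_norm_sq,
      Complex.normSq_eq_norm_sq] at h3
    have h4 : ‖ψ j‖ ^ 2 = ‖φ j‖ ^ 2 := by exact_mod_cast h3
    exact (sq_eq_sq₀ (norm_nonneg _) (norm_nonneg _)).1 h4
  have hφ : φ j ≠ 0 := by
    intro h0
    rw [h0, norm_zero, norm_eq_zero] at hn
    exact hj hn
  have hcψ : starRingEnd ℂ (ψ j) ≠ 0 := by simpa using hj
  refine ⟨starRingEnd ℂ (φ j) / starRingEnd ℂ (ψ j), ?_, ?_⟩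
  · rw [norm_div, RCLike.norm_conj, RCLike.norm_conj, hn, div_self]
    exact norm_ne_zero_iff.2 hφ
  · funext i
    have h3 := h2 i j
    field_simp
    linear_combination h3

theorem tp_phase {ψ φ : ZMod d → ℂ} {c : ℂ} (hc : ‖c‖ = 1) (h : ψ = fun i => c * φ i) (i j k) :
    tp (disp d ψ) i j k = tp (disp d φ) i j k := by
  refine tp_equiv (U := LinearIsometryEquiv.refl ℂ _) (fun k => ⟨c, hc, ?_⟩) i j k
  ext m
  subst h
  simp only [LinearIsometryEquiv.coe_refl, id_eq, PiLp.smul_apply, smul_eq_mul]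
  unfold disp
  simp only
  ring

/-- **Finiteness.** -/
theorem finite_wh (hd : Rigid d) : ∃ S : Set (ZMod d → ℂ), S.Finite ∧
    ∀ ψ, IsEtf d (disp d ψ) → ∃ φ ∈ S, IsEtf d (disp d φ) ∧ ∃ c : ℂ, ‖c‖ = 1 ∧ ψ = fun i => c * φ i := by
  have hfin := finite_fid (d := d) hd
  set Q : Set (ZMod d → ZMod d → ℂ) := {P | ∃ ψ : ZMod d → ℂ, IsEtf d (disp d ψ) ∧
      P = fun i j => ψ i * starRingEnd ℂ (ψ j)} with hQ
  have hQfin : Q.Finite := hfin.subset (by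
    rintro P ⟨ψ, hψ, rfl⟩
    exact ⟨ψ, fid_of_etf d hψ, rfl⟩)
  have h1 : ∀ P : ZMod d → ZMod d → ℂ, ∃ ψ : ZMod d → ℂ, P ∈ Q → IsEtf d (disp d ψ) ∧
      P = fun i j => ψ i * starRingEnd ℂ (ψ j) := by
    intro P
    by_cases hP : P ∈ Q
    · obtain ⟨ψ, h1, h2⟩ := hP
      exact ⟨ψ, fun _ => ⟨h1, h2⟩⟩
    · exact ⟨0, fun h => absurd h hP⟩
  choose f hf using h1
  refine ⟨f '' Q, hQfin.image f, fun ψ hψ => ?_⟩
  have hP : (fun i j => ψ i * starRingEnd ℂ (ψ j)) ∈ Q := ⟨ψ, hψ, rfl⟩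
  obtain ⟨h2, h3⟩ := hf _ hP
  exact ⟨_, ⟨_, hP, rfl⟩, h2, phase_eq d (fid_of_etf d hψ) h3⟩

/-- **Isolation.** -/
theorem isolated_wh (hd : Rigid d) (hd3 : d ≠ 3) {ψ : ZMod d → ℂ} (hx : IsEtf d (disp d ψ)) :
    ∃ ε > 0, ∀ y : ZMod d × ZMod d → EuclideanSpace ℂ (ZMod d), IsEtf d y →
      (∀ i j k, ‖tp y i j k - tp (disp d ψ) i j k‖ < ε) →
      ∃ U : EuclideanSpace ℂ (ZMod d) ≃ₗᵢ[ℂ] EuclideanSpace ℂ (ZMod d),
        ∀ k, ∃ c : ℂ, ‖c‖ = 1 ∧ U (y k) = c • disp d ψ k := by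
  have hd1 : 1 ≤ d := Nat.pos_of_ne_zero (NeZero.ne d)
  obtain ⟨ε₁, hε₁, h1⟩ := wh_near d hd3 hx
  obtain ⟨S, hS, hS1⟩ := finite_wh d hd
  set F : Set (ZMod d × ZMod d → ZMod d × ZMod d → ZMod d × ZMod d → ℂ) :=
    ((fun φ => tp (disp d φ)) '' S) \ {tp (disp d ψ)} with hF
  have hFfin : F.Finite := (hS.image _).subset Set.sdiff_subset
  obtain ⟨ε₂, hε₂, h₂⟩ := Metric.isOpen_iff.1 hFfin.isClosed.isOpen_compl (tp (disp d ψ))
    (fun h0 => h0.2 rfl)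
  refine ⟨min ε₁ ε₂, lt_min hε₁ hε₂, fun y hy hyx => ?_⟩
  obtain ⟨φ, T, hT⟩ := h1 y hy fun i j k => (hyx i j k).trans_le (min_le_left _ _)
  have hyφ : ∀ i j k, tp y i j k = tp (disp d φ) i j k := tp_equiv hT
  have hφ : IsEtf d (disp d φ) := by
    have e1 : ∀ i j, ‖inner ℂ (disp d φ i) (disp d φ j)‖ = ‖inner ℂ (y i) (y j)‖ := by
      intro i j
      obtain ⟨a, ha, hai⟩ := hT i
      obtain ⟨b, hb, hbj⟩ := hT j
      rw [← T.inner_map_map (y i) (y j), hai, hbj, inner_smul_left, inner_smul_right, norm_mul,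
        norm_mul, RCLike.norm_conj, ha, hb, one_mul, one_mul]
    constructor
    · intro i
      obtain ⟨a, ha, hai⟩ := hT i
      have e2 := congrArg norm hai
      rw [T.norm_map, norm_smul, ha, one_mul] at e2
      rw [← e2]
      exact hy.nrm i
    · intro i j hij
      rw [e1]
      exact hy.ang i j hij
  obtain ⟨φ', hφ', _, c, hc, hφc⟩ := hS1 φ hφ
  have hyφ' : tp y = tp (disp d φ') := by
    funext i j k
    rw [hyφ, tp_phase d hc hφc]
  have hyF : tp y ∈ Fᶜ := by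
    apply h₂
    rw [Metric.mem_ball, dist_pi_lt_iff hε₂]
    intro i
    rw [dist_pi_lt_iff hε₂]
    intro j
    rw [dist_pi_lt_iff hε₂]
    intro k
    rw [dist_eq_norm]
    exact (hyx i j k).trans_le (min_le_right _ _)
  have hyx' : tp y = tp (disp d ψ) := by
    by_contra hne
    exact hyF ⟨⟨φ', hφ', hyφ'.symm⟩, hne⟩
  exact gram_equiv hx hy hd1 (wh_card d) (wh_rank d) fun i j k => by rw [hyx']

end Pool.Agent.H774.FN
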