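import Pool.Agent.H774.FN.Core

/-!
# Nonconstant fiducial vectors over a field with a derivation

The derivative of a Weyl-Heisenberg fiducial vector `x` over a field with a derivation is
described by the function `κ g = ⟨x, D_g Y⟩ / ⟨x, D_g x⟩`, where `Y` is the part of `x'` orthogonal
to `x`. We show: `κ` is odd, `κ ^ 2` is real, and the set of all `g` where `κ g` is not real has
exactly `d (d + 1) / 2` elements. It is symmetric without fixed points, hence `4 ∣ d (d + 1)`.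
-/

set_option autoImplicit false

namespace Pool.Agent.H774.FN

/-- a Weyl-Heisenberg fiducial vector over a field with a derivation -/
structure Dat (d : ℕ) [NeZero d] (K : Type) [Field K] [CharZero K] where
  cj : K →+* K
  χ : AddChar (ZMod d) K
  D : K → K
  x : ZMod d → K
  prim : χ.IsPrimitive
  cjcj : ∀ z, cj (cj z) = z
  cjχ : ∀ a, cj (χ a) = χ (-a)
  Dadd : ∀ a b, D (a + b) = D a + D b
  Dmul : ∀ a b, D (a * b) = a * D b + D a * b
  Dcj : ∀ a, D (cj a) = cj (D a)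
  Dχ : ∀ a, D (χ a) = 0
  pos : ∀ f : GG d → K, ∑ g, f g * cj (f g) = 0 → ∀ g, f g = 0
  norm : ip cj x x = 1
  sic : ∀ g : GG d, g ≠ 0 → ((d : K) + 1) * (H cj χ x x g * cj (H cj χ x x g)) = 1

namespace Dat

variable {d : ℕ} [NeZero d] {K : Type} [Field K] [CharZero K] (S : Dat d K)

/-- quadruple products -/
def P (a b e c : ZMod d → K) (g : GG d) : K :=
  ((d : K) + 1) * (H S.cj S.χ a b g * S.cj (H S.cj S.χ e c g))

theorem cj_c : S.cj ((d : K) + 1) = (d : K) + 1 := by simp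

theorem F_P (a b e c : ZMod d → K) (g : GG d) : Fo S.χ (S.P a b e c) g = S.P a e b c g := by
  unfold P
  rw [← fund S.prim S.cjχ S.cjcj a b c e g]
  unfold Fo
  rw [← mul_div_assoc, Finset.mul_sum]
  congr 1
  refine Finset.sum_congr rfl fun h _ => ?_
  ring

theorem P_neg (a b e c : ZMod d → K) (g : GG d) : S.P a b e c (-g) = S.P c e b a g := by
  unfold P
  rw [refl_pair S.cjχ S.cjcj]

theorem P_cj (a b e c : ZMod d → K) (g : GG d) : S.cj (S.P a b e c g) = S.P e c a b g := by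
  unfold P
  rw [map_mul S.cj, map_mul S.cj, S.cjcj, S.cj_c]
  ring

theorem P_zero (a b e c : ZMod d → K) :
    S.P a b e c 0 = ((d : K) + 1) * (ip S.cj a b * S.cj (ip S.cj e c)) := by
  unfold P
  rw [H_zero, H_zero]

theorem P_sum (a b e c : ZMod d → K) :
    ∑ g, S.P a b e c g = (d : K) * (((d : K) + 1) * (ip S.cj a e * S.cj (ip S.cj b c))) := by
  have hd : (d : K) ≠ 0 := Nat.cast_ne_zero.2 (NeZero.ne d)
  have h1 := Fo_zero (χ := S.χ) (S.P a b e c)
  rw [S.F_P, S.P_zero, eq_div_iff hd] at h1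
  rw [← h1]
  ring

theorem P_mul (a b e c : ZMod d → K) (g : GG d) :
    S.P a b S.x S.x g * S.P S.x S.x e c g = S.P S.x S.x S.x S.x g * S.P a b e c g := by
  unfold P
  ring

theorem E_one {g : GG d} (hg : g ≠ 0) : S.P S.x S.x S.x S.x g = 1 := S.sic g hg

theorem E_mul {a b e c : ZMod d → K} (h : ip S.cj a b = 0 ∨ ip S.cj e c = 0) (g : GG d) :
    S.P S.x S.x S.x S.x g * S.P a b e c g = S.P a b e c g := by
  by_cases hg : g = 0
  · subst hg
    have h1 : S.P a b e c 0 = 0 := by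
      rw [S.P_zero]
      rcases h with h | h <;> simp [h]
    rw [h1, mul_zero]
  · rw [S.E_one hg, one_mul]

theorem P_mul' {a b e c : ZMod d → K} (h : ip S.cj a b = 0 ∨ ip S.cj e c = 0) (g : GG d) :
    S.P a b S.x S.x g * S.P S.x S.x e c g = S.P a b e c g := by
  rw [S.P_mul, S.E_mul h]

/-! ### linearity -/

theorem ip_cj (u v : ZMod d → K) : S.cj (ip S.cj u v) = ip S.cj v u := by
  unfold ip
  rw [map_sum]
  refine Finset.sum_congr rfl fun j _ => ?_
  rw [map_mul, S.cjcj, mul_comm]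

theorem ip_zero_symm {u v : ZMod d → K} (h : ip S.cj u v = 0) : ip S.cj v u = 0 := by
  rw [← S.ip_cj, h, map_zero]

theorem D_zero : S.D 0 = 0 := by
  have h := S.Dadd 0 0
  rw [add_zero] at h
  linear_combination -h

theorem D_one : S.D 1 = 0 := by
  have h := S.Dmul 1 1
  rw [one_mul, one_mul, mul_one] at h
  linear_combination -h

theorem D_neg (a : K) : S.D (-a) = -S.D a := by
  have h := S.Dadd a (-a)
  rw [add_neg_cancel, S.D_zero] at h
  linear_combination -h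

theorem D_sub (a b : K) : S.D (a - b) = S.D a - S.D b := by
  rw [sub_eq_add_neg, S.Dadd, S.D_neg, sub_eq_add_neg]

theorem D_nat (n : ℕ) : S.D (n : K) = 0 := by
  induction n with
  | zero => rw [Nat.cast_zero, S.D_zero]
  | succ n ih => rw [Nat.cast_succ, S.Dadd, ih, S.D_one, add_zero]

theorem D_sum {ι : Type} (s : Finset ι) (f : ι → K) : S.D (∑ i ∈ s, f i) = ∑ i ∈ s, S.D (f i) := by
  classical
  induction s using Finset.induction_on with
  | empty => simp [S.D_zero]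
  | insert a s ha ih => rw [Finset.sum_insert ha, Finset.sum_insert ha, S.Dadd, ih]

/-- derivative of a vector -/
def Dv (u : ZMod d → K) : ZMod d → K := fun j => S.D (u j)

theorem D_ip (u v : ZMod d → K) : S.D (ip S.cj u v) = ip S.cj (S.Dv u) v + ip S.cj u (S.Dv v) := by
  unfold ip Dv
  rw [S.D_sum, ← Finset.sum_add_distrib]
  refine Finset.sum_congr rfl fun j _ => ?_
  rw [S.Dmul, S.Dcj]
  ring

theorem D_H (u v : ZMod d → K) (g : GG d) : S.D (H S.cj S.χ u v g) =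
    H S.cj S.χ (S.Dv u) v g + H S.cj S.χ u (S.Dv v) g := by
  unfold H Dv
  rw [S.D_sum, ← Finset.sum_add_distrib]
  refine Finset.sum_congr rfl fun j _ => ?_
  rw [S.Dmul, S.Dmul, S.Dcj, S.Dχ]
  ring

theorem D_P (a b e c : ZMod d → K) (g : GG d) : S.D (S.P a b e c g) =
    S.P (S.Dv a) b e c g + S.P a (S.Dv b) e c g + S.P a b (S.Dv e) c g + S.P a b e (S.Dv c) g := by
  unfold P
  have h1 : S.D ((d : K) + 1) = 0 := by rw [S.Dadd, S.D_nat, S.D_one, add_zero]
  rw [S.Dmul, h1, S.Dmul, S.Dcj, S.D_H, S.D_H, map_add]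
  ring

theorem D_F (f : GG d → K) (g : GG d) : S.D (Fo S.χ f g) = Fo S.χ (fun h => S.D (f h)) g := by
  have hd : (d : K) ≠ 0 := Nat.cast_ne_zero.2 (NeZero.ne d)
  have h1 : S.D ((d : K) * Fo S.χ f g) = (d : K) * Fo S.χ (fun h => S.D (f h)) g := by
    unfold Fo
    rw [mul_div_cancel₀ _ hd, mul_div_cancel₀ _ hd, S.D_sum]
    refine Finset.sum_congr rfl fun h _ => ?_
    rw [S.Dmul]
    unfold om
    rw [S.Dχ]
    ring
  rw [S.Dmul, S.D_nat, zero_mul, add_zero] at h1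
  exact mul_left_cancel₀ hd h1

theorem H_lin_left (p q : K) (u v w : ZMod d → K) (g : GG d) :
    H S.cj S.χ (fun j => p * u j + q * v j) w g =
      S.cj p * H S.cj S.χ u w g + S.cj q * H S.cj S.χ v w g := by
  unfold H
  rw [Finset.mul_sum, Finset.mul_sum, ← Finset.sum_add_distrib]
  refine Finset.sum_congr rfl fun j _ => ?_
  rw [map_add, map_mul, map_mul]
  ring

theorem H_lin_right (p q : K) (u v w : ZMod d → K) (g : GG d) :
    H S.cj S.χ w (fun j => p * u j + q * v j) g =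
      p * H S.cj S.χ w u g + q * H S.cj S.χ w v g := by
  unfold H
  rw [Finset.mul_sum, Finset.mul_sum, ← Finset.sum_add_distrib]
  refine Finset.sum_congr rfl fun j _ => ?_
  ring

theorem ip_lin_left (p q : K) (u v w : ZMod d → K) :
    ip S.cj (fun j => p * u j + q * v j) w =
      S.cj p * ip S.cj u w + S.cj q * ip S.cj v w := by
  rw [← H_zero (χ := S.χ), ← H_zero (χ := S.χ), ← H_zero (χ := S.χ), S.H_lin_left]

theorem ip_lin_right (p q : K) (u v w : ZMod d → K) :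
    ip S.cj w (fun j => p * u j + q * v j) =
      p * ip S.cj w u + q * ip S.cj w v := by
  rw [← H_zero (χ := S.χ), ← H_zero (χ := S.χ), ← H_zero (χ := S.χ), S.H_lin_right]

/-! ### the moving frame -/

/-- `⟨x, x'⟩` -/
def θ : K := ip S.cj S.x (S.Dv S.x)

/-- the part of `x'` orthogonal to `x` -/
def Y : ZMod d → K := fun j => 1 * S.Dv S.x j + (-S.θ) * S.x j

/-- `⟨Y, Y⟩` -/
def n : K := ip S.cj S.Y S.Y

/-- the essential part of `Y'` -/
def W : ZMod d → K := fun j => 1 * (1 * S.Dv S.Y j + (-S.θ) * S.Y j) + S.n * S.x j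

theorem Dx : S.Dv S.x = fun j => 1 * S.Y j + S.θ * S.x j := by
  funext j
  unfold Y
  ring

theorem DY : S.Dv S.Y = fun j => 1 * (1 * S.W j + S.θ * S.Y j) + (-S.n) * S.x j := by
  funext j
  unfold W
  ring

theorem θ_cj : S.cj S.θ = -S.θ := by
  have h1 := S.D_ip S.x S.x
  rw [S.norm, S.D_one] at h1
  have h2 : S.cj S.θ = ip S.cj (S.Dv S.x) S.x := S.ip_cj _ _
  rw [h2]
  unfold θ
  linear_combination -h1

theorem n_cj : S.cj S.n = S.n := S.ip_cj _ _

theorem xY : ip S.cj S.x S.Y = 0 := by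
  unfold Y
  rw [S.ip_lin_right, S.norm]
  unfold θ
  ring

theorem Yx : ip S.cj S.Y S.x = 0 := S.ip_zero_symm S.xY

theorem xW : ip S.cj S.x S.W = 0 := by
  have h1 := S.D_ip S.x S.Y
  rw [S.xY, S.D_zero, S.Dx, S.DY, S.ip_lin_left, S.ip_lin_right, S.ip_lin_right, S.xY, S.norm,
    map_one] at h1
  have h2 : ip S.cj S.Y S.Y = S.n := rfl
  rw [h2] at h1
  linear_combination -h1

theorem Wx : ip S.cj S.W S.x = 0 := S.ip_zero_symm S.xW

/-! ### derivatives of the quadruple products -/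

theorem P_Dx1 (b e c : ZMod d → K) (g : GG d) :
    S.P (S.Dv S.x) b e c g = S.P S.Y b e c g - S.θ * S.P S.x b e c g := by
  rw [S.Dx]
  unfold P
  rw [S.H_lin_left, S.θ_cj, map_one]
  ring

theorem P_Dx2 (a e c : ZMod d → K) (g : GG d) :
    S.P a (S.Dv S.x) e c g = S.P a S.Y e c g + S.θ * S.P a S.x e c g := by
  rw [S.Dx]
  unfold P
  rw [S.H_lin_right]
  ring

theorem P_Dx3 (a b c : ZMod d → K) (g : GG d) :
    S.P a b (S.Dv S.x) c g = S.P a b S.Y c g + S.θ * S.P a b S.x c g := by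
  rw [S.Dx]
  unfold P
  rw [S.H_lin_left, map_add, map_mul, map_mul, S.cjcj, S.cjcj]
  ring

theorem P_Dx4 (a b e : ZMod d → K) (g : GG d) :
    S.P a b e (S.Dv S.x) g = S.P a b e S.Y g - S.θ * S.P a b e S.x g := by
  rw [S.Dx]
  unfold P
  rw [S.H_lin_right, map_add, map_mul, map_mul, S.θ_cj, map_one]
  ring

theorem P_DY2 (a e c : ZMod d → K) (g : GG d) :
    S.P a (S.Dv S.Y) e c g = S.P a S.W e c g + S.θ * S.P a S.Y e c g - S.n * S.P a S.x e c g := by
  rw [S.DY]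
  unfold P
  rw [S.H_lin_right, S.H_lin_right]
  ring

theorem P_DY3 (a b c : ZMod d → K) (g : GG d) :
    S.P a b (S.Dv S.Y) c g = S.P a b S.W c g + S.θ * S.P a b S.Y c g - S.n * S.P a b S.x c g := by
  rw [S.DY]
  unfold P
  rw [S.H_lin_left, S.H_lin_left]
  simp only [map_add, map_mul, S.cjcj, map_neg, S.n_cj, map_one]
  ring

theorem P_DY4 (a b e : ZMod d → K) (g : GG d) :
    S.P a b e (S.Dv S.Y) g = S.P a b e S.W g - S.θ * S.P a b e S.Y g - S.n * S.P a b e S.x g := by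
  rw [S.DY]
  unfold P
  rw [S.H_lin_right, S.H_lin_right]
  simp only [map_add, map_mul, S.θ_cj, map_neg, S.n_cj, map_one]
  ring

/-! ### first order -/

/-- the logarithmic derivative -/
def κ (g : GG d) : K := S.P S.x S.Y S.x S.x g

theorem κ_neg (g : GG d) : S.κ (-g) = S.P S.x S.x S.Y S.x g := S.P_neg _ _ _ _ g

theorem κ_cj (g : GG d) : S.cj (S.κ g) = S.P S.x S.x S.x S.Y g := S.P_cj _ _ _ _ g

theorem κ_neg_cj (g : GG d) : S.cj (S.κ (-g)) = S.P S.Y S.x S.x S.x g := by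
  rw [S.κ_neg]
  exact S.P_cj _ _ _ _ g

theorem κ_zero : S.κ 0 = 0 := by
  unfold κ
  rw [S.P_zero, S.xY]
  ring

theorem F_κ (g : GG d) : Fo S.χ S.κ g = S.κ (-g) := by
  rw [S.κ_neg]
  exact S.F_P _ _ _ _ g

theorem κ_eq_F (g : GG d) : S.κ g = Fo S.χ (fun h => S.κ (-h)) g := by
  have h1 : (fun h => S.κ (-h)) = S.P S.x S.x S.Y S.x := funext fun h => S.κ_neg h
  rw [h1, S.F_P]
  rfl

theorem κκ (g : GG d) : S.κ g * S.κ (-g) = S.P S.x S.Y S.Y S.x g := by
  rw [S.κ_neg]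
  exact S.P_mul' (Or.inl S.xY) g

theorem sum_κκ : ∑ g, S.κ g * S.κ (-g) = 0 := by
  simp only [S.κκ]
  rw [S.P_sum, S.xY]
  ring

omit [CharZero K] in
theorem sum_neg (f : GG d → K) : ∑ g, f (-g) = ∑ g, f g := Equiv.sum_comp (Equiv.neg (GG d)) f

theorem sum_κ_sq : ∑ g, S.κ g ^ 2 = 0 := by
  have h1 : ∀ g, S.κ g ^ 2 = S.κ g * Fo S.χ (fun h => S.κ (-h)) g := fun g => by
    rw [← S.κ_eq_F]
    ring
  simp only [h1]
  rw [Fo_sym]
  have h2 : ∀ g, S.κ (-g) * Fo S.χ (fun g => S.κ g) (-g) = S.κ g * S.κ (-g) := fun g => by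
    have h3 : Fo S.χ (fun g => S.κ g) (-g) = S.κ (- -g) := S.F_κ (-g)
    rw [h3, neg_neg]
    ring
  simp only [h2]
  exact S.sum_κκ

theorem first (g : GG d) : S.κ g + S.κ (-g) + S.cj (S.κ g + S.κ (-g)) = 0 := by
  by_cases hg : g = 0
  · subst hg
    rw [neg_zero, S.κ_zero]
    simp
  · have h1 : S.D (S.P S.x S.x S.x S.x g) = 0 := by rw [S.E_one hg, S.D_one]
    rw [S.D_P, S.P_Dx1, S.P_Dx2, S.P_Dx3, S.P_Dx4] at h1
    rw [map_add, S.κ_neg_cj, S.κ_cj, S.κ_neg]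
    unfold κ
    linear_combination h1

/-- the logarithmic derivative is odd -/
theorem odd (g : GG d) : S.κ (-g) = -S.κ g := by
  have h1 : ∀ g, S.κ g + S.κ (-g) = 0 := by
    apply S.pos (fun g => S.κ g + S.κ (-g))
    have h2 : ∀ g, (S.κ g + S.κ (-g)) * S.cj (S.κ g + S.κ (-g)) =
        -(S.κ g ^ 2 + S.κ (-g) ^ 2 + 2 * (S.κ g * S.κ (-g))) := fun g => by
      linear_combination (S.κ g + S.κ (-g)) * S.first g
    simp only [h2]
    rw [Finset.sum_neg_distrib, Finset.sum_add_distrib, Finset.sum_add_distrib, ← Finset.mul_sum,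
      S.sum_κκ, sum_neg (fun g => S.κ g ^ 2), S.sum_κ_sq]
    ring
  linear_combination h1 g

/-! ### second order -/

/-- the square of the absolute value of `κ` -/
def N (g : GG d) : K := S.P S.x S.Y S.x S.Y g

/-- `(d + 1) |⟨x, D_g x⟩|²` -/
def E (g : GG d) : K := S.P S.x S.x S.x S.x g

/-- the second derivative -/
def ζ (g : GG d) : K := S.P S.x S.W S.x S.x g

/-- the Fourier transform of `N` -/
def M (g : GG d) : K := S.P S.x S.x S.Y S.Y g

theorem N_eq (g : GG d) : S.N g = S.κ g * S.cj (S.κ g) := by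
  rw [S.κ_cj]
  exact (S.P_mul' (Or.inl S.xY) g).symm

theorem N_neg (g : GG d) : S.N (-g) = S.N g := by
  rw [S.N_eq, S.N_eq, S.odd, map_neg]
  ring

theorem N_cj (g : GG d) : S.cj (S.N g) = S.N g := S.P_cj _ _ _ _ g

theorem F_N (g : GG d) : Fo S.χ S.N g = S.M g := S.F_P _ _ _ _ g

theorem M_neg (g : GG d) : S.M (-g) = S.M g := by
  rw [← S.F_N, ← S.F_N, Fo_neg]
  simp only [S.N_neg]

theorem M_eq (g : GG d) : S.P S.Y S.Y S.x S.x g = S.M g := by
  rw [← S.M_neg g]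
  exact (S.P_neg _ _ _ _ g).symm

theorem M_cj (g : GG d) : S.cj (S.M g) = S.M g :=
  (S.P_cj S.x S.x S.Y S.Y g).trans (S.M_eq g)

theorem E_cj (g : GG d) : S.cj (S.E g) = S.E g := S.P_cj _ _ _ _ g

theorem E_neg (g : GG d) : S.E (-g) = S.E g := S.P_neg _ _ _ _ g

/-- the defect -/
def T (g : GG d) : K := S.κ g ^ 2 - S.M g - S.N g + S.n * S.E g

theorem D_κ (g : GG d) : S.D (S.κ g) = S.ζ g - S.T g := by
  unfold κ
  rw [S.D_P, S.P_Dx1, S.P_DY2, S.P_Dx3, S.P_Dx4]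
  have h1 : S.P S.x S.Y S.Y S.x g = - S.κ g ^ 2 := by
    rw [← S.κκ, S.odd]
    ring
  have h2 := S.M_eq g
  rw [h1, h2]
  unfold T ζ N E
  ring

theorem T_neg (g : GG d) : S.T (-g) = S.T g := by
  unfold T
  rw [S.odd, S.M_neg, S.N_neg, S.E_neg]
  ring

theorem T_cj (g : GG d) : S.cj (S.T g) = S.cj (S.κ g) ^ 2 - S.M g - S.N g + S.n * S.E g := by
  unfold T
  rw [map_add, map_sub, map_sub, map_mul, map_pow, S.M_cj, S.N_cj, S.E_cj, S.n_cj]

theorem two_T (g : GG d) : 2 * S.T g = S.ζ g + S.ζ (-g) := by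
  have h1 := S.D_κ g
  have h2 := S.D_κ (-g)
  rw [S.odd, S.D_neg, S.T_neg] at h2
  linear_combination h1 + h2

theorem ζκ (g : GG d) : S.ζ g * S.cj (S.κ g) = S.P S.x S.W S.x S.Y g := by
  rw [S.κ_cj]
  exact S.P_mul' (Or.inl S.xW) g

theorem sum_ζE : ∑ g, S.ζ g * S.E g = 0 := by
  have h1 : ∀ g, S.ζ g * S.E g = S.P S.x S.W S.x S.x g := fun g => by
    rw [mul_comm]
    exact S.E_mul (Or.inl S.xW) g
  simp only [h1]
  rw [S.P_sum, S.Wx]
  simp

theorem F_f_neg (g : GG d) : Fo S.χ (S.P S.x S.W S.x S.Y) (-g) = S.P S.Y S.W S.x S.x g := by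
  rw [S.F_P, S.P_neg]

theorem sum_ζN : ∑ g, S.ζ g * S.N g = 0 := by
  have h1 : ∀ g, S.ζ g * S.N g = S.P S.x S.W S.x S.Y g * Fo S.χ (fun h => S.κ (-h)) g := fun g => by
    rw [← S.κ_eq_F, ← S.ζκ, S.N_eq]
    ring
  simp only [h1]
  rw [Fo_sym]
  have h2 : ∀ g, S.κ (-g) * Fo S.χ (fun g => S.P S.x S.W S.x S.Y g) (-g) =
      S.P S.Y S.W S.Y S.x g := fun g => by
    have h3 : Fo S.χ (fun g => S.P S.x S.W S.x S.Y g) (-g) = S.P S.Y S.W S.x S.x g := S.F_f_neg g
    rw [h3, S.κ_neg, mul_comm]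
    exact S.P_mul' (Or.inr S.Yx) g
  simp only [h2]
  rw [S.P_sum, S.Wx]
  simp

theorem sum_ζκ2 : ∑ g, S.ζ g * S.cj (S.κ g) ^ 2 = 0 := by
  have h1 : ∀ g, S.ζ g * S.cj (S.κ g) ^ 2 =
      S.P S.x S.W S.x S.Y g * Fo S.χ (S.P S.x S.x S.x S.Y) g := fun g => by
    rw [S.F_P, ← S.κ_cj, ← S.ζκ]
    ring
  simp only [h1]
  rw [Fo_sym]
  have h2 : ∀ g, S.P S.x S.x S.x S.Y g * Fo S.χ (fun g => S.P S.x S.W S.x S.Y g) (-g) =
      S.P S.Y S.W S.x S.Y g := fun g => by
    have h3 : Fo S.χ (fun g => S.P S.x S.W S.x S.Y g) (-g) = S.P S.Y S.W S.x S.x g := S.F_f_neg g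
    rw [h3, mul_comm]
    exact S.P_mul' (Or.inr S.xY) g
  simp only [h2]
  rw [S.P_sum, S.Yx]
  simp

theorem sum_ζM : ∑ g, S.ζ g * S.M g = 0 := by
  have h1 : ∀ g, S.ζ g * S.M g = S.ζ g * Fo S.χ S.N g := fun g => by rw [S.F_N]
  simp only [h1]
  rw [Fo_sym]
  have h2 : ∀ g, S.N g * Fo S.χ (fun g => S.ζ g) (-g) = S.ζ g * S.N g := fun g => by
    have h3 : Fo S.χ (fun g => S.ζ g) (-g) = S.P S.x S.x S.W S.x (-g) := S.F_P _ _ _ _ (-g)
    have h4 : S.P S.x S.x S.W S.x (-g) = S.ζ g := S.P_neg _ _ _ _ g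
    rw [h3, h4]
    ring
  simp only [h2]
  exact S.sum_ζN

theorem T_zero (g : GG d) : S.T g = 0 := by
  apply S.pos S.T
  have h0 : ∀ g, 2 * (S.T g * S.cj (S.T g)) = S.ζ g * S.cj (S.T g) + S.ζ (-g) * S.cj (S.T (-g)) :=
    fun g => by
    rw [S.T_neg]
    linear_combination (S.cj (S.T g)) * S.two_T g
  have h1 : 2 * ∑ g, S.T g * S.cj (S.T g) = 2 * ∑ g, S.ζ g * S.cj (S.T g) := by
    rw [Finset.mul_sum]
    simp only [h0]
    rw [Finset.sum_add_distrib, sum_neg (fun g => S.ζ g * S.cj (S.T g))]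
    ring
  have h2 : ∑ g, S.ζ g * S.cj (S.T g) = 0 := by
    have h3 : ∀ g, S.ζ g * S.cj (S.T g) = S.ζ g * S.cj (S.κ g) ^ 2 - S.ζ g * S.M g -
        S.ζ g * S.N g + S.n * (S.ζ g * S.E g) := fun g => by
      rw [S.T_cj]
      ring
    simp only [h3]
    rw [Finset.sum_add_distrib, Finset.sum_sub_distrib, Finset.sum_sub_distrib, ← Finset.mul_sum,
      S.sum_ζκ2, S.sum_ζM, S.sum_ζN, S.sum_ζE]
    ring
  rw [h2, mul_zero] at h1
  exact (mul_eq_zero.1 h1).resolve_left two_ne_zero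

/-! ### third order -/

theorem κ_sq (g : GG d) : S.κ g ^ 2 = S.M g + S.N g - S.n * S.E g := by
  have h := S.T_zero g
  unfold T at h
  linear_combination h

theorem D_κ' (g : GG d) : S.D (S.κ g) = S.ζ g := by
  rw [S.D_κ, S.T_zero, sub_zero]

theorem D_N (g : GG d) : S.D (S.N g) = S.P S.x S.W S.x S.Y g + S.P S.x S.Y S.x S.W g := by
  rw [S.N_eq, S.Dmul, S.Dcj, S.D_κ', ← S.ζκ]
  have h1 : S.κ g * S.cj (S.ζ g) = S.P S.x S.Y S.x S.W g := by
    have h2 : S.cj (S.ζ g) = S.P S.x S.x S.x S.W g := S.P_cj _ _ _ _ g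
    rw [h2]
    exact S.P_mul' (Or.inl S.xY) g
  rw [h1]
  ring

theorem third (g : GG d) : (S.M g + S.n * S.E g) * (S.κ g - S.cj (S.κ g)) = 0 := by
  have h1 : S.D (S.M g) = S.P S.x S.x S.W S.Y g + S.P S.x S.x S.Y S.W g := by
    rw [← S.F_N, S.D_F]
    simp only [S.D_N]
    have h2 : Fo S.χ (fun h => S.P S.x S.W S.x S.Y h + S.P S.x S.Y S.x S.W h) g =
        Fo S.χ (S.P S.x S.W S.x S.Y) g + Fo S.χ (S.P S.x S.Y S.x S.W) g := by
      unfold Fo
      rw [← add_div, ← Finset.sum_add_distrib]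
      congr 1
      refine Finset.sum_congr rfl fun h _ => ?_
      ring
    rw [h2, S.F_P, S.F_P]
  have h3 := h1
  unfold M at h3
  rw [S.D_P, S.P_Dx1, S.P_Dx2, S.P_DY3, S.P_DY4] at h3
  -- h3 : relation
  have h4 : S.P S.Y S.x S.Y S.Y g + S.P S.x S.Y S.Y S.Y g -
      S.n * (S.P S.x S.x S.x S.Y g + S.P S.x S.x S.Y S.x g) = 0 := by
    linear_combination h3
  have h5 : S.E g * S.P S.Y S.x S.Y S.Y g = S.cj (S.κ (-g)) * S.M g := by
    rw [S.κ_neg_cj]
    exact (S.P_mul _ _ _ _ g).symm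
  have h6 : S.E g * S.P S.x S.Y S.Y S.Y g = S.κ g * S.M g := (S.P_mul _ _ _ _ g).symm
  rw [← S.κ_cj, ← S.κ_neg] at h4
  have h7 : S.cj (S.κ (-g)) = - S.cj (S.κ g) := by rw [S.odd, map_neg]
  rw [h7] at h5
  rw [S.odd] at h4
  linear_combination S.E g * h4 - h5 - h6

/-! ### counting -/

open Classical in
theorem N_sub (g : GG d) : S.N g - S.κ g ^ 2 = if S.κ g = S.cj (S.κ g) then 0 else 2 * S.n := by
  split_ifs with h
  · rw [S.N_eq, ← h]
    ring
  · have hg : g ≠ 0 := by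
      rintro rfl
      apply h
      rw [S.κ_zero, map_zero]
    have h1 : S.κ g - S.cj (S.κ g) ≠ 0 := sub_ne_zero.2 h
    have h2 : S.M g + S.n * S.E g = 0 := (mul_eq_zero.1 (S.third g)).resolve_right h1
    have h3 : S.E g = 1 := S.E_one hg
    have h4 := S.κ_sq g
    rw [h3] at h2 h4
    linear_combination -h4 - h2

open Classical in
/-- the set of all `g` where `κ g` is not real -/
noncomputable def I : Finset (GG d) := Finset.univ.filter fun g => S.κ g ≠ S.cj (S.κ g)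

theorem card_I (hn : S.n ≠ 0) : 2 * S.I.card = d * (d + 1) := by
  classical
  have h1 : ∑ g, (S.N g - S.κ g ^ 2) = (d : K) * (((d : K) + 1) * S.n) := by
    rw [Finset.sum_sub_distrib, S.sum_κ_sq, sub_zero]
    have h2 : ∑ g, S.N g = ∑ g, S.P S.x S.Y S.x S.Y g := rfl
    rw [h2, S.P_sum, S.norm]
    have h3 : S.cj (ip S.cj S.Y S.Y) = S.n := S.n_cj
    rw [h3]
    ring
  simp only [S.N_sub] at h1
  have h2 : ∀ g, (if S.κ g = S.cj (S.κ g) then 0 else 2 * S.n) =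
      (if S.κ g ≠ S.cj (S.κ g) then 2 * S.n else 0) := fun g => by
    by_cases h : S.κ g = S.cj (S.κ g)
    · rw [if_pos h, if_neg (not_not.2 h)]
    · rw [if_neg h, if_pos h]
  simp only [h2] at h1
  rw [← Finset.sum_filter, Finset.sum_const, nsmul_eq_mul] at h1
  have h3 : ((2 * S.I.card : ℕ) : K) = ((d * (d + 1) : ℕ) : K) := by
    apply mul_right_cancel₀ hn
    push_cast
    have h4 : S.I = Finset.univ.filter fun g => S.κ g ≠ S.cj (S.κ g) := by
      unfold I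
      congr
    rw [h4]
    linear_combination h1
  exact_mod_cast h3

theorem even_I : Even S.I.card := by
  classical
  have h1 : ∀ g, g ∈ S.I ↔ S.κ g ≠ S.cj (S.κ g) := fun g => by
    unfold I
    simp
  rw [← ZMod.natCast_eq_zero_iff_even]
  have h2 : ((S.I.card : ℕ) : ZMod 2) = ∑ g ∈ S.I, (1 : ZMod 2) := by
    rw [Finset.sum_const, nsmul_eq_mul, mul_one]
  rw [h2]
  refine Finset.sum_involution (fun g _ => -g) ?_ ?_ ?_ ?_
  · intro g _
    decide
  · intro g hg _ h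
    rw [h1] at hg
    apply hg
    have h3 := S.odd g
    rw [h] at h3
    have h4 : S.κ g = 0 := by
      have h5 : 2 * S.κ g = 0 := by linear_combination h3
      exact (mul_eq_zero.1 h5).resolve_left two_ne_zero
    rw [h4, map_zero]
  · intro g hg
    rw [h1] at hg ⊢
    rw [S.odd, map_neg]
    intro h
    exact hg (neg_injective h)
  · intro g _
    exact neg_neg g

/-- **Main result over a field with derivation.** -/
theorem main (hn : S.n ≠ 0) : 4 ∣ d * (d + 1) := by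
  obtain ⟨k, hk⟩ := S.even_I
  rw [← S.card_I hn, hk]
  exact ⟨k, by ring⟩

end Dat

end Pool.Agent.H774.FN
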