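import Pool.Agent.H774.FN.OneMod

/-!
# Dimensions congruent to seven or four modulo eight
-/

set_option autoImplicit false

namespace Pool.Agent.H774.FN

theorem int_of_integral {K : Type} [Field K] [CharZero K] {a b : ℤ} (hb : b ≠ 0) {V : K}
    (hV : IsIntegral ℤ V) (h : (b : K) * V = (a : K)) : b ∣ a := by
  have hbK : (b : K) ≠ 0 := Int.cast_ne_zero.2 hb
  have h1 : V = algebraMap ℚ K ((a : ℚ) / (b : ℚ)) := by
    rw [map_div₀]
    simp only [eq_intCast, map_intCast]
    rw [eq_div_iff hbK, mul_comm]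
    exact h
  rw [h1, isIntegral_algebraMap_iff (algebraMap ℚ K).injective] at hV
  obtain ⟨z, hz⟩ := IsIntegrallyClosed.isIntegral_iff.1 hV
  have hz' : (z : ℚ) = (a : ℚ) / (b : ℚ) := hz
  have hbQ : (b : ℚ) ≠ 0 := Int.cast_ne_zero.2 hb
  rw [eq_div_iff hbQ] at hz'
  exact ⟨z, by rw [mul_comm]; exact_mod_cast hz'.symm⟩

theorem om_int {d : ℕ} [NeZero d] {K : Type} [Field K] {χ : AddChar (ZMod d) K}
    (hχ : χ.IsPrimitive) (g h : GG d) : IsIntegral ℤ (om χ g h) := by
  have hζ := root_prim hχ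
  have h3 : om χ g h = χ 1 ^ (g.1 * h.2 - h.1 * g.2).val := by
    unfold om
    rw [← AddChar.map_nsmul_eq_pow, nsmul_eq_mul, mul_one, ZMod.natCast_zmod_val]
  rw [h3]
  exact (hζ.isIntegral (Nat.pos_of_ne_zero (NeZero.ne d))).pow _

namespace Dat

variable {d : ℕ} [NeZero d] {K : Type} [Field K] [CharZero K] (S : Dat d K)

/-- character sums over `I` -/
noncomputable def s (h : GG d) : K := ∑ g ∈ S.I, om S.χ g h

theorem s_eq (h : GG d) : S.s h = (d : K) * Fo S.χ (fun g => (S.oneI g : K)) h := by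
  classical
  have hdK : (d : K) ≠ 0 := Nat.cast_ne_zero.2 (NeZero.ne d)
  unfold Fo s
  rw [mul_div_cancel₀ _ hdK]
  have h6 : ∀ g, om S.χ g h * (S.oneI g : K) = if g ∈ S.I then om S.χ g h else 0 := fun g => by
    unfold oneI
    split_ifs <;> simp
  simp only [h6]
  rw [Finset.sum_ite_mem, Finset.univ_inter]

theorem s_rel (h : GG d) : 2 * S.n * S.s h = (d : K) * (S.n * S.E h - S.N h) := by
  rw [S.s_eq, ← S.F_one h]
  ring

theorem s_zero : S.s 0 = (S.I.card : K) := by
  unfold s om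
  simp

theorem s_neg (hn : S.n ≠ 0) (h : GG d) : S.s (-h) = S.s h := by
  apply mul_left_cancel₀ (mul_ne_zero two_ne_zero hn)
  rw [S.s_rel, S.s_rel, S.E_neg, S.N_neg]

theorem s_I (hn : S.n ≠ 0) {h : GG d} (hh : h ∈ S.I) : S.s h = 0 := by
  have h1 := S.s_rel h
  have hE : S.E h = 1 := S.E_one (S.I_ne_zero hh)
  rw [S.I_N hh, hE, mul_one, sub_self, mul_zero] at h1
  exact (mul_eq_zero.1 h1).resolve_left (mul_ne_zero two_ne_zero hn)

theorem s_tor (hn : S.n ≠ 0) {h : GG d} (h0 : h ≠ 0) (hh : -h = h) : 2 * S.s h = (d : K) := by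
  have hκ : S.κ h = 0 := by
    have h1 := S.odd h
    rw [hh] at h1
    have h2 : 2 * S.κ h = 0 := by linear_combination h1
    exact (mul_eq_zero.1 h2).resolve_left two_ne_zero
  have h1 := S.s_rel h
  have hE : S.E h = 1 := S.E_one h0
  rw [S.N_eq, hκ, hE] at h1
  apply mul_left_cancel₀ hn
  linear_combination h1

theorem not_I_of_tor {h : GG d} (hh : -h = h) : h ∉ S.I := by
  intro hI
  have h1 := S.odd h
  rw [hh] at h1
  have hκ : S.κ h = 0 := by
    have h2 : 2 * S.κ h = 0 := by linear_combination h1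
    exact (mul_eq_zero.1 h2).resolve_left two_ne_zero
  rw [S.mem_I, hκ, map_zero] at hI
  exact hI rfl

/-- the odd character sums -/
noncomputable def t (g₀ h : GG d) : K := ∑ g, om S.χ g h * (S.eps g₀ g : K)

theorem t_rel {g₀ : GG d} (h₀ : g₀ ∈ S.I) {h : GG d} (hh : h ∉ S.I) :
    S.κ g₀ * S.t g₀ h = -((d : K) * S.κ h) := by
  have hdK : (d : K) ≠ 0 := Nat.cast_ne_zero.2 (NeZero.ne d)
  have h1 := S.F_eps h₀ h
  rw [S.κ_real hh] at h1
  have h2 : Fo S.χ (fun g => (S.eps g₀ g : K)) h = S.t g₀ h / d := rfl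
  rw [h2] at h1
  field_simp at h1
  have h3 : (2 : K) * (S.κ g₀ * S.t g₀ h) = 2 * (-((d : K) * S.κ h)) := by
    linear_combination h1
  exact mul_left_cancel₀ two_ne_zero h3

theorem t_sq (hn : S.n ≠ 0) {g₀ : GG d} (h₀ : g₀ ∈ S.I) {h : GG d} (h0 : h ≠ 0) (hh : h ∉ S.I) :
    S.t g₀ h ^ 2 = -(d : K) * ((d : K) - 2 * S.s h) := by
  have h1 := S.t_rel h₀ hh
  have h2 := S.s_rel h
  have hE : S.E h = 1 := S.E_one h0
  rw [hE, S.N_real hh] at h2
  have h3 := S.I_sq h₀
  apply mul_left_cancel₀ hn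
  have h4 : S.κ g₀ ^ 2 * S.t g₀ h ^ 2 = (d : K) ^ 2 * S.κ h ^ 2 := by
    linear_combination (S.κ g₀ * S.t g₀ h - (d : K) * S.κ h) * h1
  rw [h3] at h4
  linear_combination -h4 - (d : K) * h2

theorem t_neg {g₀ : GG d} (hn : S.n ≠ 0) (h₀ : g₀ ∈ S.I) {h : GG d} (hh : h ∉ S.I) :
    S.t g₀ (-h) = - S.t g₀ h := by
  have hh' : -h ∉ S.I := by
    rw [S.mem_I, S.odd, map_neg]
    rw [S.mem_I] at hh
    intro h1
    exact hh fun h2 => h1 (by rw [← h2])
  apply mul_left_cancel₀ (S.κ_ne hn h₀)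
  have h1 := S.t_rel h₀ hh
  have h2 := S.t_rel h₀ hh'
  rw [S.odd] at h2
  linear_combination h1 + h2

/-- **Integrality.** -/
theorem W_int (hn : S.n ≠ 0) {h : GG d} (h0 : h ≠ 0) (hh : h ∉ S.I) :
    IsIntegral ℤ (((d : K) - S.s h) / 2) := by
  classical
  obtain ⟨g₀, h₀⟩ := S.I_nonempty hn
  have hU : ∀ h : GG d, IsIntegral ℤ ((S.s h + S.t g₀ h) / 2) := by
    intro h
    have h1 : (S.s h + S.t g₀ h) / 2 = ∑ g ∈ S.I.filter (fun g => S.κ g = S.κ g₀), om S.χ g h := by
      rw [div_eq_iff (two_ne_zero), mul_comm, Finset.mul_sum, Finset.sum_filter]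
      unfold s t
      have h2 : ∑ g, om S.χ g h * (S.eps g₀ g : K) = ∑ g ∈ S.I, om S.χ g h * (S.eps g₀ g : K) := by
        symm
        apply Finset.sum_subset (Finset.subset_univ _)
        intro g _ hg
        unfold eps
        rw [if_neg hg]
        simp
      rw [h2, ← Finset.sum_add_distrib]
      refine Finset.sum_congr rfl fun g hg => ?_
      unfold eps
      rw [if_pos hg]
      split_ifs <;> push_cast <;> ring
    rw [h1]
    exact IsIntegral.sum _ fun g _ => om_int S.prim g h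
  have h1 : ((((d : K) - S.s h) / 2) ^ 2) =
      (S.s h + S.t g₀ h) / 2 * ((S.s (-h) + S.t g₀ (-h)) / 2) := by
    rw [S.s_neg hn, S.t_neg hn h₀ hh]
    have h2 := S.t_sq hn h₀ h0 hh
    linear_combination (1 / 4 : K) * h2
  apply IsIntegral.of_pow (n := 2) (by norm_num)
  rw [h1]
  exact (hU h).mul (hU (-h))

/-- symmetric subsets of `I` have an even number of elements -/
theorem even_sub (T : Finset (GG d)) (hT : T ⊆ S.I) (hT' : ∀ g ∈ T, -g ∈ T) : Even T.card := by
  classical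
  rw [← ZMod.natCast_eq_zero_iff_even]
  have h2 : ((T.card : ℕ) : ZMod 2) = ∑ g ∈ T, (1 : ZMod 2) := by
    rw [Finset.sum_const, nsmul_eq_mul, mul_one]
  rw [h2]
  refine Finset.sum_involution (fun g _ => -g) ?_ ?_ ?_ ?_
  · intro g _
    decide
  · intro g hg _ h
    exact S.not_I_of_tor h (hT hg)
  · intro g hg
    exact hT' g hg
  · intro g _
    exact neg_neg g

theorem I_neg {g : GG d} (hg : g ∈ S.I) : -g ∈ S.I := by
  rw [S.mem_I] at hg ⊢
  rw [S.odd, map_neg]
  intro h
  exact hg (neg_injective h)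

/-- **Dimensions congruent to three modulo four are congruent to three modulo eight.** -/
theorem seven (hn : S.n ≠ 0) (hd : d % 2 = 1) : d % 8 = 3 := by
  classical
  have hdK : (d : K) ≠ 0 := Nat.cast_ne_zero.2 (NeZero.ne d)
  set m := d / 2 with hm
  have hdm : d = 2 * m + 1 := by omega
  set hb : ℕ → GG d := fun b => (0, (b : ZMod d)) with hhb
  have hb0 : ∀ b, 0 < b → b < d → hb b ≠ 0 := by
    intro b h1 h2 h3
    have h4 : ((b : ℕ) : ZMod d) = 0 := congrArg Prod.snd h3
    rw [ZMod.natCast_eq_zero_iff] at h4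
    exact absurd (Nat.le_of_dvd h1 h4) (by omega)
  have hneg : ∀ b, b ≤ d → hb (d - b) = - hb b := by
    intro b h1
    rw [hhb]
    ext
    · simp
    · simp only [Prod.snd_neg]
      rw [Nat.cast_sub h1]
      simp
  -- the Poisson sum
  have hP : ∑ b ∈ Finset.range d, S.s (hb b) = (d : K) * ((S.I.filter fun g => g.1 = 0).card : K) := by
    unfold s
    rw [Finset.sum_comm]
    have h1 : ∀ g : GG d, ∑ b ∈ Finset.range d, om S.χ g (hb b) = if g.1 = 0 then (d : K) else 0 := by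
      intro g
      have h2 : ∀ b, om S.χ g (hb b) = (S.χ g.1) ^ b := by
        intro b
        rw [← AddChar.map_nsmul_eq_pow, nsmul_eq_mul]
        unfold om
        congr 1
        rw [hhb]
        ring
      simp only [h2]
      by_cases h3 : g.1 = 0
      · rw [if_pos h3, h3, AddChar.map_zero_eq_one]
        simp
      · rw [if_neg h3]
        have h4 : S.χ g.1 ≠ 1 := by
          rw [Ne, S.prim.zmod_char_eq_one_iff]
          exact h3
        have h5 : (S.χ g.1 - 1) * ∑ b ∈ Finset.range d, (S.χ g.1) ^ b = 0 := by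
          rw [mul_geom_sum, ← AddChar.map_nsmul_eq_pow]
          simp
        exact (mul_eq_zero.1 h5).resolve_left (sub_ne_zero.2 h4)
    simp only [h1]
    rw [← Finset.sum_filter, Finset.sum_const, nsmul_eq_mul]
    ring
  -- the number of elements of `I` on the line
  set r := ((Finset.Ico 1 (m + 1)).filter fun b => hb b ∉ S.I).card with hr
  have hcard : (S.I.filter fun g => g.1 = 0).card = ((Finset.Ico 1 d).filter fun b => hb b ∈ S.I).card := by
    symm
    apply Finset.card_bij (fun b _ => hb b)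
    · intro b hb'
      rw [Finset.mem_filter] at hb' ⊢
      exact ⟨hb'.2, rfl⟩
    · intro a ha b hb' hab
      rw [Finset.mem_filter, Finset.mem_Ico] at ha hb'
      have h4 : ((a : ℕ) : ZMod d) = b := congrArg Prod.snd hab
      rw [ZMod.natCast_eq_natCast_iff'] at h4
      rwa [Nat.mod_eq_of_lt ha.1.2, Nat.mod_eq_of_lt hb'.1.2] at h4
    · intro g hg
      rw [Finset.mem_filter] at hg
      have h5 : hb g.2.val = g := by
        rw [hhb]
        ext
        · exact hg.2.symm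
        · simp
      refine ⟨g.2.val, ?_, h5⟩
      rw [Finset.mem_filter, Finset.mem_Ico, h5]
      refine ⟨⟨?_, ZMod.val_lt _⟩, hg.1⟩
      rw [Nat.one_le_iff_ne_zero]
      intro h6
      rw [h6] at h5
      apply S.I_ne_zero hg.1
      rw [← h5, hhb]
      simp
  have hsplit : ∀ f : ℕ → K, (∀ b, b ≤ d → f (d - b) = f b) →
      ∑ b ∈ Finset.Ico 1 d, f b = 2 * ∑ b ∈ Finset.Ico 1 (m + 1), f b := by
    intro f hf
    rw [← Finset.sum_Ico_consecutive f (show 1 ≤ m + 1 by omega) (show m + 1 ≤ d by omega), two_mul]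
    congr 1
    refine Finset.sum_bij' (fun b _ => d - b) (fun b _ => d - b) ?_ ?_ ?_ ?_ ?_
    · intro b hb'
      rw [Finset.mem_Ico] at hb' ⊢
      omega
    · intro b hb'
      rw [Finset.mem_Ico] at hb' ⊢
      omega
    · intro b hb'
      rw [Finset.mem_Ico] at hb'
      omega
    · intro b hb'
      rw [Finset.mem_Ico] at hb'
      omega
    · intro b hb'
      rw [Finset.mem_Ico] at hb'
      exact (hf b (by omega)).symm
  have hnegI : ∀ b, b ≤ d → (hb (d - b) ∈ S.I ↔ hb b ∈ S.I) := by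
    intro b h1
    rw [hneg b h1]
    exact ⟨fun h => by have := S.I_neg h; rwa [neg_neg] at this, fun h => S.I_neg h⟩
  have hcardK : (((Finset.Ico 1 d).filter fun b => hb b ∈ S.I).card : K) =
      2 * ((m : K) - r) := by
    have h1 : (((Finset.Ico 1 d).filter fun b => hb b ∈ S.I).card : K) =
        ∑ b ∈ Finset.Ico 1 d, (if hb b ∈ S.I then (1 : K) else 0) := by
      rw [← Finset.sum_filter, Finset.sum_const, nsmul_eq_mul, mul_one]
    rw [h1, hsplit _ (fun b h2 => by simp only [hnegI b h2])]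
    congr 1
    have h2 : (r : K) = ∑ b ∈ Finset.Ico 1 (m + 1), (if hb b ∈ S.I then (0 : K) else 1) := by
      rw [hr]
      have h3 : ∀ b, (if hb b ∈ S.I then (0 : K) else 1) = (if hb b ∉ S.I then (1 : K) else 0) := by
        intro b
        by_cases h : hb b ∈ S.I <;> simp [h]
      simp only [h3]
      rw [← Finset.sum_filter, Finset.sum_const, nsmul_eq_mul, mul_one]
    rw [h2, eq_sub_iff_add_eq, ← Finset.sum_add_distrib]
    have h3 : ∀ b, ((if hb b ∈ S.I then (1 : K) else 0) + if hb b ∈ S.I then (0 : K) else 1) = 1 := by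
      intro b
      by_cases h : hb b ∈ S.I <;> simp [h]
    simp only [h3]
    simp
  rw [hcard, hcardK] at hP
  have h1 : ∑ b ∈ Finset.range d, S.s (hb b) = S.s 0 + ∑ b ∈ Finset.Ico 1 d, S.s (hb b) := by
    rw [Finset.range_eq_Ico, Finset.sum_eq_sum_Ico_succ_bot (Nat.pos_of_ne_zero (NeZero.ne d))]
    congr 1
    rw [hhb]
    simp only [Nat.cast_zero]
    rfl
  rw [h1, hsplit _ (fun b h2 => by rw [hneg b h2, S.s_neg hn]), S.s_zero] at hP
  set V : K := ∑ b ∈ (Finset.Ico 1 (m + 1)).filter (fun b => hb b ∉ S.I), ((d : K) - S.s (hb b)) / 2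
    with hV
  have hVint : IsIntegral ℤ V := by
    apply IsIntegral.sum
    intro b hb'
    rw [Finset.mem_filter, Finset.mem_Ico] at hb'
    exact S.W_int hn (hb0 b (by omega) (by omega)) hb'.2
  have h2 : ∑ b ∈ Finset.Ico 1 (m + 1), S.s (hb b) = (d : K) * r - 2 * V := by
    have h3 : ∑ b ∈ Finset.Ico 1 (m + 1), S.s (hb b) =
        ∑ b ∈ (Finset.Ico 1 (m + 1)).filter (fun b => hb b ∉ S.I), S.s (hb b) := by
      rw [Finset.sum_filter]
      refine Finset.sum_congr rfl fun b _ => ?_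
      by_cases h : hb b ∈ S.I
      · rw [if_neg (not_not.2 h), S.s_I hn h]
      · rw [if_pos h]
    rw [h3, hV, Finset.mul_sum, hr]
    have h4 : (d : K) * (((Finset.Ico 1 (m + 1)).filter fun b => hb b ∉ S.I).card : K) =
        ∑ b ∈ (Finset.Ico 1 (m + 1)).filter (fun b => hb b ∉ S.I), (d : K) := by
      rw [Finset.sum_const, nsmul_eq_mul, mul_comm]
    rw [h4, ← Finset.sum_sub_distrib]
    refine Finset.sum_congr rfl fun b _ => ?_
    ring
  rw [h2] at hP
  have h3 : 2 * (S.I.card : K) = (d : K) * ((d : K) + 1) := by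
    have := S.card_I hn
    exact_mod_cast this
  have hmK : (d : K) = 2 * (m : K) + 1 := by
    have : ((d : ℕ) : K) = ((2 * m + 1 : ℕ) : K) := by rw [← hdm]
    push_cast at this
    exact this
  have h4 : ((8 : ℤ) : K) * V = (((d : ℤ) * (3 - d) + 8 * d * r : ℤ) : K) := by
    push_cast
    linear_combination -2 * hP + h3 - (4 : K) * (d : K) / 2 * 0 + (2 : K) * (d : K) * hmK * 1
  have h5 := int_of_integral (by norm_num) hVint h4
  have h6 : (8 : ℤ) ∣ (d : ℤ) * (3 - d) := by
    have h7 : (8 : ℤ) ∣ 8 * d * r := ⟨d * r, by ring⟩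
    exact (dvd_add_left h7).1 h5
  have h7 : IsCoprime (8 : ℤ) (d : ℤ) := by
    rw [Int.isCoprime_iff_gcd_eq_one]
    have h8 : Nat.Coprime 8 d := by
      have h9 : Nat.Coprime 2 d := (Nat.coprime_two_left (n := d)).2 (Nat.odd_iff.2 hd)
      exact Nat.Coprime.pow_left 3 h9
    exact h8
  have h8 := h7.dvd_of_dvd_mul_left h6
  omega

end Dat

end Pool.Agent.H774.FN
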