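import Pool.Agent.H774.FN.Arith

/-!
# Odd dimensions with a prime factor congruent to one modulo four
-/

set_option autoImplicit false

namespace Pool.Agent.H774.FN

theorem geo {K : Type} [Field K] {ω : K} {Q : ℕ} (h : ω ^ Q = 1) :
    ∃ j : ℕ, ∑ b ∈ Finset.range Q, ω ^ b = ((Q * j : ℕ) : K) := by
  by_cases h1 : ω = 1
  · refine ⟨1, ?_⟩
    rw [h1]
    simp
  · refine ⟨0, ?_⟩
    have h2 : (ω - 1) * ∑ b ∈ Finset.range Q, ω ^ b = 0 := by
      rw [mul_geom_sum, h, sub_self]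
    rw [(mul_eq_zero.1 h2).resolve_left (sub_ne_zero.2 h1)]
    simp

theorem half_not_int {d : ℕ} (hd : d % 2 = 1) {K : Type} [Field K] [CharZero K]
    (h : IsIntegral ℤ ((d : K) / 2)) : False := by
  have h1 : (d : K) / 2 = algebraMap ℚ K ((d : ℚ) / 2) := by
    simp
  rw [h1, isIntegral_algebraMap_iff (algebraMap ℚ K).injective] at h
  obtain ⟨z, hz⟩ := IsIntegrallyClosed.isIntegral_iff.1 h
  have h2 : ((2 * z : ℤ) : ℚ) = ((d : ℤ) : ℚ) := by
    have h3 : (z : ℚ) = (d : ℚ) / 2 := hz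
    push_cast
    rw [h3]
    ring
  have h3 : 2 * z = (d : ℤ) := by exact_mod_cast h2
  omega

namespace Dat

variable {d : ℕ} [NeZero d] {K : Type} [Field K] [CharZero K] (S : Dat d K)

theorem I_unit_iff (hn : S.n ≠ 0) {m : ℕ} (hm : m.Coprime d) (g : GG d) :
    sm m g ∈ S.I ↔ g ∈ S.I := by
  classical
  refine ⟨fun h => ?_, fun h => S.I_unit hn hm h⟩
  have h1 : S.I.image (sm m) = S.I := by
    apply Finset.eq_of_subset_of_card_le
    · intro x hx
      obtain ⟨y, hy, rfl⟩ := Finset.mem_image.1 hx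
      exact S.I_unit hn hm hy
    · rw [Finset.card_image_of_injective _ (sm_inj hm)]
  rw [← h1] at h
  obtain ⟨y, hy, hxy⟩ := Finset.mem_image.1 h
  rwa [← sm_inj hm hxy]

theorem F_one_unit (hn : S.n ≠ 0) {m : ℕ} (hm : m.Coprime d) (h : GG d) :
    Fo S.χ (fun g => (S.oneI g : K)) (sm m h) = Fo S.χ (fun g => (S.oneI g : K)) h := by
  classical
  unfold Fo
  congr 1
  have h1 : Function.Bijective (sm m : GG d → GG d) :=
    Finite.injective_iff_bijective.1 (sm_inj hm)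
  rw [← h1.sum_comp (fun g => om S.χ g h * (S.oneI g : K))]
  refine Finset.sum_congr rfl fun g _ => ?_
  have h2 : om S.χ g (sm m h) = om S.χ (sm m g) h := by
    unfold om sm
    congr 1
    ring
  have h3 : S.oneI (sm m g) = S.oneI g := by
    unfold oneI
    simp only [S.I_unit_iff hn hm]
  rw [h2, h3]

theorem κ_real {h : GG d} (hh : h ∉ S.I) : S.cj (S.κ h) = S.κ h := by
  by_contra hcon
  exact hh ((S.mem_I h).2 fun h' => hcon h'.symm)

theorem N_real {h : GG d} (hh : h ∉ S.I) : S.N h = S.κ h ^ 2 := by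
  rw [S.N_eq, S.κ_real hh]
  ring

theorem κ_ne_zero (hn : S.n ≠ 0) (hd : d % 2 = 1) {h : GG d} (h0 : h ≠ 0) (hh : h ∉ S.I) :
    S.κ h ≠ 0 := by
  intro hκ
  have h1 := S.F_one h
  have hE : S.E h = 1 := S.E_one h0
  rw [S.N_real hh, hκ, hE] at h1
  have hd0 : (d : K) ≠ 0 := Nat.cast_ne_zero.2 (NeZero.ne d)
  have h2 : ∑ g, om S.χ g h * (S.oneI g : K) = (d : K) / 2 := by
    have h3 : Fo S.χ (fun g => (S.oneI g : K)) h = 1 / 2 := by
      apply mul_left_cancel₀ (mul_ne_zero two_ne_zero hn)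
      rw [h1]
      ring
    unfold Fo at h3
    rw [div_eq_iff hd0] at h3
    rw [h3]
    ring
  apply half_not_int hd (K := K)
  rw [← h2]
  apply IsIntegral.sum
  intro g _
  apply IsIntegral.mul
  · have hζ := root_prim S.prim
    have h3 : om S.χ g h = S.χ 1 ^ (g.1 * h.2 - h.1 * g.2).val := by
      unfold om
      rw [← AddChar.map_nsmul_eq_pow, nsmul_eq_mul, mul_one, ZMod.natCast_zmod_val]
    rw [h3]
    exact (hζ.isIntegral (Nat.pos_of_ne_zero (NeZero.ne d))).pow _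
  · exact isIntegral_algebraMap (R := ℤ) (x := S.oneI g)

/-- the key step -/
theorem mem_of_neg (hn : S.n ≠ 0) (hd : d % 2 = 1) {m : ℕ} (hm : m.Coprime d) {h : GG d}
    (h0 : h ≠ 0) (hmh : sm m (sm m h) = -h) : h ∈ S.I := by
  classical
  by_contra hh
  have hκ := S.κ_ne_zero hn hd h0 hh
  obtain ⟨g₀, h₀⟩ := S.I_nonempty hn
  have hκ0 := S.κ_ne hn h₀
  have hmI : sm m h ∉ S.I := by rwa [S.I_unit_iff hn hm]
  have hm0 : sm m h ≠ 0 := by
    intro h1
    rw [← sm_zero (d := d) m] at h1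
    exact h0 (sm_inj hm h1)
  have h1 := S.F_one h
  have h2 := S.F_one (sm m h)
  have hE : S.E h = 1 := S.E_one h0
  have hE' : S.E (sm m h) = 1 := S.E_one hm0
  rw [S.F_one_unit hn hm, h1, hE, hE', S.N_real hh, S.N_real hmI] at h2
  have h3 : (S.κ (sm m h) - S.κ h) * (S.κ (sm m h) + S.κ h) = 0 := by
    linear_combination h2
  have h4 : ∃ s : ℤ, s * s = 1 ∧ S.κ (sm m h) = (s : K) * S.κ h := by
    rcases mul_eq_zero.1 h3 with h5 | h5
    · exact ⟨1, by norm_num, by push_cast; linear_combination h5⟩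
    · exact ⟨-1, by norm_num, by push_cast; linear_combination h5⟩
  obtain ⟨s, hs, hsκ⟩ := h4
  have e1 := S.F_eps h₀ h
  have e2 := S.F_eps h₀ (sm m h)
  have e3 := S.F_eps h₀ (-h)
  rw [S.κ_real hh] at e1
  rw [S.κ_real hmI, hsκ] at e2
  rw [S.odd, map_neg, S.κ_real hh] at e3
  set f := fun g => (S.eps g₀ g : K) with hf
  have hk : 2 * S.κ g₀ ≠ 0 := mul_ne_zero two_ne_zero hκ0
  have e4 : Fo S.χ f (sm m h) = (s : K) * Fo S.χ f h := by
    apply mul_left_cancel₀ hk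
    rw [e2]
    linear_combination -(s : K) * e1
  have hd0 : (d : K) ≠ 0 := Nat.cast_ne_zero.2 (NeZero.ne d)
  have e5 : Fo S.χ f (sm m (sm m h)) = (s : K) * Fo S.χ f (sm m h) := by
    set c : GG d → ZMod d := fun g => g.1 * h.2 - h.1 * g.2 with hc
    have h6 := gp S.prim hm (Finset.univ : Finset (GG d ⊕ GG d))
      (Sum.elim (fun g => S.eps g₀ g) (fun g => -s * S.eps g₀ g))
      (Sum.elim (fun g => (m : ZMod d) * c g) c) (by
        rw [Fintype.sum_sum_type]
        simp only [Sum.elim_inl, Sum.elim_inr]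
        unfold Fo at e4
        rw [← mul_div_assoc, div_left_inj' hd0] at e4
        have h7 : ∑ g, (S.eps g₀ g : K) * S.χ ((m : ZMod d) * c g) =
            ∑ g, om S.χ g (sm m h) * f g := Finset.sum_congr rfl fun g _ => by
          rw [om_sm]
          ring
        have h8 : ∑ g, ((-s * S.eps g₀ g : ℤ) : K) * S.χ (c g) =
            -((s : K) * ∑ g, om S.χ g h * f g) := by
          rw [Finset.mul_sum, ← Finset.sum_neg_distrib]
          refine Finset.sum_congr rfl fun g _ => ?_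
          rw [hf, hc]
          unfold om
          push_cast
          ring
        rw [h7, h8, e4]
        ring)
    rw [Fintype.sum_sum_type] at h6
    simp only [Sum.elim_inl, Sum.elim_inr] at h6
    unfold Fo
    rw [← mul_div_assoc]
    congr 1
    have h7 : ∑ g, (S.eps g₀ g : K) * S.χ ((m : ZMod d) * ((m : ZMod d) * c g)) =
        ∑ g, om S.χ g (sm m (sm m h)) * f g := Finset.sum_congr rfl fun g _ => by
      rw [om_sm]
      have h8 : g.1 * (sm m h).2 - (sm m h).1 * g.2 = (m : ZMod d) * c g := by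
        rw [hc]
        unfold sm
        ring
      rw [h8]
      ring
    have h8 : ∑ g, ((-s * S.eps g₀ g : ℤ) : K) * S.χ ((m : ZMod d) * c g) =
        -((s : K) * ∑ g, om S.χ g (sm m h) * f g) := by
      rw [Finset.mul_sum, ← Finset.sum_neg_distrib]
      refine Finset.sum_congr rfl fun g _ => ?_
      rw [om_sm, hf]
      push_cast
      ring
    rw [h7, h8] at h6
    linear_combination h6
  rw [hmh, e4] at e5
  have e6 : (s : K) * s = 1 := by exact_mod_cast hs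
  have e7 : Fo S.χ f (-h) = Fo S.χ f h := by
    rw [e5, ← mul_assoc, e6, one_mul]
  rw [e7] at e3
  have e8 : (4 : K) * S.κ h = 0 := by linear_combination e1 - e3
  exact hκ ((mul_eq_zero.1 e8).resolve_left (by norm_num))

theorem one_mod (hn : S.n ≠ 0) (hd : d % 2 = 1) {p : ℕ} (hp : p.Prime) (hpd : p ∣ d)
    (hp4 : p % 4 = 1) : False := by
  classical
  have : Fact p.Prime := ⟨hp⟩
  have hd0 : d ≠ 0 := NeZero.ne d
  obtain ⟨v, e, hpe, hde⟩ := Nat.exists_eq_pow_mul_and_not_dvd hd0 p hp.ne_one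
  have hv : v ≠ 0 := by
    rintro rfl
    rw [pow_zero, one_mul] at hde
    rw [hde] at hpd
    exact hpe hpd
  set Q := p ^ v with hQ
  have hpQ : p ∣ Q := dvd_pow_self p hv
  have hQe : Q.Coprime e := Nat.Coprime.pow_left v ((hp.coprime_iff_not_dvd).2 hpe)
  have he0 : e ≠ 0 := by
    rintro rfl
    exact hpe (dvd_zero p)
  obtain ⟨b, hb⟩ := ZMod.exists_sq_eq_neg_one_iff.2 (show p % 4 ≠ 3 by omega)
  set b0 := b.val with hb0
  have hb0c : ((b0 : ℕ) : ZMod p) = b := ZMod.natCast_zmod_val _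
  have h1 : ((p : ℕ) : ℤ) ∣ (b0 : ℤ) ^ 2 - (-1) := by
    rw [← ZMod.intCast_zmod_eq_zero_iff_dvd]
    push_cast
    rw [hb0c, hb]
    ring
  have h2 : ((p : ℤ) ^ (v + 1)) ∣ ((b0 : ℤ) ^ 2) ^ p ^ v - (-1) ^ p ^ v := dvd_sub_pow_of_dvd_sub h1 v
  have hodd : Odd (p ^ v) := by
    apply Odd.pow
    rw [Nat.odd_iff]
    omega
  rw [hodd.neg_one_pow] at h2
  set m0 := b0 ^ p ^ v with hm0
  have h3 : ((Q : ℕ) : ℤ) ∣ (m0 : ℤ) ^ 2 + 1 := by
    have h4 : ((Q : ℕ) : ℤ) ∣ (p : ℤ) ^ (v + 1) := by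
      rw [hQ]
      push_cast
      exact pow_dvd_pow _ (Nat.le_succ v)
    have h5 : (m0 : ℤ) ^ 2 + 1 = ((b0 : ℤ) ^ 2) ^ p ^ v - (-1) := by
      rw [hm0]
      push_cast
      rw [← pow_mul, ← pow_mul, mul_comm]
      ring
    rw [h5]
    exact h4.trans h2
  obtain ⟨m, hmQ, hme⟩ := Nat.chineseRemainder hQe m0 1
  have h4 : Q ∣ m ^ 2 + 1 := by
    have h5 : Q ∣ m0 ^ 2 + 1 := by exact_mod_cast h3
    have h6 : m ^ 2 + 1 ≡ m0 ^ 2 + 1 [MOD Q] := (hmQ.pow 2).add_right 1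
    exact (Nat.modEq_zero_iff_dvd).1 (h6.trans (Nat.modEq_zero_iff_dvd.2 h5))
  have hmc : m.Coprime d := by
    rw [hde]
    apply Nat.Coprime.mul_right
    · apply Nat.Coprime.pow_right
      rw [Nat.coprime_comm, hp.coprime_iff_not_dvd]
      intro h5
      have h6 : p ∣ m ^ 2 + 1 := hpQ.trans h4
      have h7 : p ∣ 1 := (Nat.dvd_add_right (h5.trans (dvd_pow_self m two_ne_zero))).1 h6
      exact hp.one_lt.ne' (Nat.dvd_one.1 h7)
    · have h5 := hme.gcd_eq
      rw [Nat.gcd_one_left] at h5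
      exact h5
  have hkey : ∀ a b : ℕ, a < Q → b < Q → (a ≠ 0 ∨ b ≠ 0) →
      (((e * a : ℕ) : ZMod d), ((e * b : ℕ) : ZMod d)) ∈ S.I := by
    intro a b ha hb hab
    apply S.mem_of_neg hn hd hmc
    · intro h5
      rw [Prod.ext_iff] at h5
      have h6 : ∀ x < Q, ((e * x : ℕ) : ZMod d) = 0 → x = 0 := by
        intro x hx h7
        rw [ZMod.natCast_eq_zero_iff, hde, mul_comm Q e] at h7
        have h8 := Nat.dvd_of_mul_dvd_mul_left (Nat.pos_of_ne_zero he0) h7
        exact Nat.eq_zero_of_dvd_of_lt h8 hx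
      rcases hab with h7 | h7
      · exact h7 (h6 a ha h5.1)
      · exact h7 (h6 b hb h5.2)
    · have h5 : ∀ x : ℕ, (m : ZMod d) * ((m : ZMod d) * ((e * x : ℕ) : ZMod d)) =
          - ((e * x : ℕ) : ZMod d) := by
        intro x
        have h6 : ((e * (m ^ 2 + 1) : ℕ) : ZMod d) = 0 := by
          rw [ZMod.natCast_eq_zero_iff, hde, mul_comm Q e]
          exact mul_dvd_mul_left e h4
        push_cast at h6 ⊢
        linear_combination (x : ZMod d) * h6
      unfold sm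
      ext
      · exact h5 a
      · exact h5 b
  -- the sum
  have hsum : ∑ a ∈ Finset.range Q, ∑ b ∈ Finset.range Q, (d : K) *
      Fo S.χ (fun g => (S.oneI g : K)) (((e * a : ℕ) : ZMod d), ((e * b : ℕ) : ZMod d)) =
      (S.I.card : K) := by
    have hdK : (d : K) ≠ 0 := Nat.cast_ne_zero.2 hd0
    have hQ0 : 0 < Q := pow_pos hp.pos v
    have hz : ∀ a b : ℕ, a < Q → b < Q → (a ≠ 0 ∨ b ≠ 0) → (d : K) *
        Fo S.χ (fun g => (S.oneI g : K)) (((e * a : ℕ) : ZMod d), ((e * b : ℕ) : ZMod d)) = 0 := by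
      intro a b ha hb hab
      have h5 := hkey a b ha hb hab
      have h6 := S.F_one (((e * a : ℕ) : ZMod d), ((e * b : ℕ) : ZMod d))
      have hE : S.E (((e * a : ℕ) : ZMod d), ((e * b : ℕ) : ZMod d)) = 1 :=
        S.E_one (S.I_ne_zero h5)
      rw [S.I_N h5, hE, mul_one, sub_self] at h6
      rw [(mul_eq_zero.1 h6).resolve_left (mul_ne_zero two_ne_zero hn), mul_zero]
    rw [Finset.sum_eq_single_of_mem 0 (Finset.mem_range.2 hQ0),
      Finset.sum_eq_single_of_mem 0 (Finset.mem_range.2 hQ0)]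
    · have h5 : (((e * 0 : ℕ) : ZMod d), ((e * 0 : ℕ) : ZMod d)) = (0 : GG d) := by
        simp
      rw [h5, Fo_zero, mul_div_cancel₀ _ hdK]
      have h6 : ∀ g, (S.oneI g : K) = if g ∈ S.I then 1 else 0 := fun g => by
        unfold oneI
        split_ifs <;> simp
      simp only [h6]
      rw [Finset.sum_ite_mem, Finset.univ_inter, Finset.sum_const, nsmul_eq_mul, mul_one]
    · intro b hb hb'
      exact hz 0 b hQ0 (Finset.mem_range.1 hb) (Or.inr hb')
    · intro a ha ha'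
      apply Finset.sum_eq_zero
      intro b hb
      exact hz a b (Finset.mem_range.1 ha) (Finset.mem_range.1 hb) (Or.inl ha')
  have hgeo : ∀ g : GG d, ∃ j : ℕ, ∑ a ∈ Finset.range Q, ∑ b ∈ Finset.range Q,
      om S.χ g (((e * a : ℕ) : ZMod d), ((e * b : ℕ) : ZMod d)) = ((Q ^ 2 * j : ℕ) : K) := by
    intro g
    have hω : ∀ x : ZMod d, (S.χ (x * (e : ZMod d))) ^ Q = 1 := by
      intro x
      rw [← AddChar.map_nsmul_eq_pow]
      have h5 : Q • (x * (e : ZMod d)) = 0 := by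
        rw [nsmul_eq_mul]
        have h6 : ((Q * e : ℕ) : ZMod d) = 0 := by rw [← hde]; simp
        push_cast at h6 ⊢
        linear_combination x * h6
      rw [h5, AddChar.map_zero_eq_one]
    obtain ⟨j1, hj1⟩ := geo (hω g.1)
    obtain ⟨j2, hj2⟩ := geo (hω (-g.2))
    refine ⟨j1 * j2, ?_⟩
    have h5 : ∀ a b : ℕ, om S.χ g (((e * a : ℕ) : ZMod d), ((e * b : ℕ) : ZMod d)) =
        (S.χ (-g.2 * (e : ZMod d))) ^ a * (S.χ (g.1 * (e : ZMod d))) ^ b := by
      intro a b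
      rw [← AddChar.map_nsmul_eq_pow, ← AddChar.map_nsmul_eq_pow, ← AddChar.map_add_eq_mul]
      unfold om
      congr 1
      simp only [nsmul_eq_mul]
      push_cast
      ring
    simp only [h5]
    have h6 : ∑ a ∈ Finset.range Q, ∑ b ∈ Finset.range Q,
        (S.χ (-g.2 * (e : ZMod d))) ^ a * (S.χ (g.1 * (e : ZMod d))) ^ b =
        (∑ a ∈ Finset.range Q, (S.χ (-g.2 * (e : ZMod d))) ^ a) *
        ∑ b ∈ Finset.range Q, (S.χ (g.1 * (e : ZMod d))) ^ b := by
      rw [Finset.sum_mul_sum]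
    rw [h6, hj1, hj2]
    push_cast
    ring
  choose j hj using hgeo
  have hsum2 : ∑ a ∈ Finset.range Q, ∑ b ∈ Finset.range Q, (d : K) *
      Fo S.χ (fun g => (S.oneI g : K)) (((e * a : ℕ) : ZMod d), ((e * b : ℕ) : ZMod d)) =
      ((Q ^ 2 * ∑ g ∈ S.I, j g : ℕ) : K) := by
    have hdK : (d : K) ≠ 0 := Nat.cast_ne_zero.2 hd0
    have h5 : ∀ h : GG d, (d : K) * Fo S.χ (fun g => (S.oneI g : K)) h =
        ∑ g ∈ S.I, om S.χ g h := by
      intro h
      unfold Fo
      rw [mul_div_cancel₀ _ hdK]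
      have h6 : ∀ g, om S.χ g h * (S.oneI g : K) = if g ∈ S.I then om S.χ g h else 0 := fun g => by
        unfold oneI
        split_ifs <;> simp
      simp only [h6]
      rw [Finset.sum_ite_mem, Finset.univ_inter]
    simp only [h5]
    have h6 : ∀ a, ∑ b ∈ Finset.range Q, ∑ g ∈ S.I,
        om S.χ g (((e * a : ℕ) : ZMod d), ((e * b : ℕ) : ZMod d)) =
        ∑ g ∈ S.I, ∑ b ∈ Finset.range Q,
        om S.χ g (((e * a : ℕ) : ZMod d), ((e * b : ℕ) : ZMod d)) := fun a => Finset.sum_comm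
    simp only [h6]
    rw [Finset.sum_comm]
    simp only [hj]
    push_cast
    rw [Finset.mul_sum]
  rw [hsum] at hsum2
  have h5 : S.I.card = Q ^ 2 * ∑ g ∈ S.I, j g := by exact_mod_cast hsum2
  have h6 : Q ^ 2 ∣ d * (d + 1) := by
    rw [← S.card_I hn, h5]
    exact ⟨2 * ∑ g ∈ S.I, j g, by ring⟩
  have h7 : (Q ^ 2).Coprime (d + 1) := by
    apply Nat.Coprime.pow_left
    apply Nat.Coprime.pow_left
    rw [hp.coprime_iff_not_dvd]
    intro h8
    have h9 : p ∣ 1 := (Nat.dvd_add_right hpd).1 h8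
    exact hp.one_lt.ne' (Nat.dvd_one.1 h9)
  have h8 : Q ^ 2 ∣ d := h7.dvd_of_dvd_mul_right h6
  have h9 : Q * Q ∣ Q * e := by
    rw [← hde, ← sq]
    exact h8
  have hQ0 : 0 < Q := pow_pos hp.pos v
  exact hpe (hpQ.trans (Nat.dvd_of_mul_dvd_mul_left hQ0 h9))

end Dat

end Pool.Agent.H774.FN
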