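import Pool.Agent.H774.FN.Arith

/-!
# Prime powers
-/

set_option autoImplicit false

namespace Pool.Agent.H774.FN

namespace Dat

variable {d : ℕ} [NeZero d] {K : Type} [Field K] [CharZero K] (S : Dat d K)

theorem prime_pow (hn : S.n ≠ 0) {p k : ℕ} (hp : p.Prime) (hp4 : p % 4 = 3) (hp7 : 7 ≤ p)
    (hd : d = p ^ k) : False := by
  have : Fact p.Prime := ⟨hp⟩
  set r := (p - 1) / 2 with hr
  have hr2 : p - 1 = 2 * r := by omega
  have hrodd : r % 2 = 1 := by omega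
  have hr1 : r ≠ 1 := by omega
  set q := r.minFac with hq
  have hqp : q.Prime := Nat.minFac_prime hr1
  have hqr : q ∣ r := Nat.minFac_dvd r
  have hq2 : q ≠ 2 := by
    intro h
    rw [h] at hqr
    omega
  have hqp1 : q ∣ p - 1 := by
    rw [hr2]
    exact hqr.mul_left 2
  have : Fact q.Prime := ⟨hqp⟩
  obtain ⟨a, ha⟩ := exists_prime_orderOf_dvd_card (G := (ZMod p)ˣ) q (by
    rw [ZMod.card_units p]
    exact hqp1)
  set a0 := (a : ZMod p).val with ha0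
  have ha0c : ((a0 : ℕ) : ZMod p) = a := ZMod.natCast_zmod_val _
  set m := a0 ^ p ^ k with hm
  have hmp : ((m : ℕ) : ZMod p) = a := by
    rw [hm, Nat.cast_pow, ha0c, ZMod.pow_card_pow]
  have h1 : ((p : ℕ) : ℤ) ∣ (a0 : ℤ) ^ q - 1 := by
    rw [← ZMod.intCast_zmod_eq_zero_iff_dvd]
    push_cast
    rw [ha0c, ← Units.val_pow_eq_pow_val, ← ha, pow_orderOf_eq_one]
    simp
  have h2 : ((p : ℤ) ^ (k + 1)) ∣ ((a0 : ℤ) ^ q) ^ p ^ k - 1 ^ p ^ k := dvd_sub_pow_of_dvd_sub h1 k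
  have hmq : ((m : ZMod d)) ^ q = 1 := by
    have h3 : ((d : ℕ) : ℤ) ∣ (m : ℤ) ^ q - 1 := by
      have h4 : ((d : ℕ) : ℤ) ∣ (p : ℤ) ^ (k + 1) := by
        rw [hd]
        push_cast
        exact pow_dvd_pow _ (Nat.le_succ k)
      have h5 : (m : ℤ) ^ q - 1 = ((a0 : ℤ) ^ q) ^ p ^ k - 1 ^ p ^ k := by
        rw [hm]
        push_cast
        rw [one_pow, ← pow_mul, ← pow_mul, mul_comm]
      rw [h5]
      exact h4.trans h2
    rw [← ZMod.intCast_zmod_eq_zero_iff_dvd] at h3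
    push_cast at h3
    exact sub_eq_zero.1 h3
  have hmu : IsUnit (m : ZMod d) := IsUnit.of_pow_eq_one hmq hqp.ne_zero
  have hmc : m.Coprime d := (ZMod.isUnit_iff_coprime m d).1 hmu
  have hm0 : 1 ≤ m := by
    rw [Nat.one_le_iff_ne_zero]
    intro h0
    rw [h0] at hmp
    exact a.ne_zero (by rw [← hmp]; simp)
  have hm1 : IsUnit ((m : ZMod d) - 1) := by
    have h3 : ((m : ZMod d) - 1) = ((m - 1 : ℕ) : ZMod d) := by
      rw [Nat.cast_sub hm0, Nat.cast_one]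
    rw [h3, ZMod.isUnit_iff_coprime, hd]
    apply Nat.Coprime.pow_right
    rw [Nat.coprime_comm, hp.coprime_iff_not_dvd]
    intro h4
    rw [← ZMod.natCast_eq_zero_iff, Nat.cast_sub hm0, Nat.cast_one, hmp, sub_eq_zero] at h4
    have h5 : a = 1 := Units.ext h4
    rw [h5, orderOf_one] at ha
    exact hqp.one_lt.ne ha
  have h3 := S.dvd_of_unit hn hqp hmc hmq hm1
  have h4 := S.card_I hn
  have h5 : q ∣ d * (d + 1) := by
    rw [← h4]
    exact h3.mul_left 2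
  have h6 : d ≡ 1 [MOD q] := by
    rw [hd]
    have h7 : p ≡ 1 [MOD q] := ((Nat.modEq_iff_dvd' hp.one_le).2 hqp1).symm
    have h8 := h7.pow k
    rwa [one_pow] at h8
  have h7 : d * (d + 1) ≡ 1 * (1 + 1) [MOD q] := h6.mul (h6.add_right 1)
  have h8 : q ∣ 2 := by
    have h9 := (Nat.modEq_zero_iff_dvd.2 h5).symm.trans h7
    exact (Nat.modEq_zero_iff_dvd).1 h9.symm
  exact hq2 ((Nat.prime_dvd_prime_iff_eq hqp Nat.prime_two).1 h8)

end Dat

end Pool.Agent.H774.FN
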