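import Pool.Agent.H774.FN.Main
import Pool.Agent.H774.FN.Der

/-!
# Finiteness of the number of fiducial vectors

If there were infinitely many Weyl-Heisenberg fiducial vectors modulo phases, then an ultraproduct
would carry a nonconstant fiducial vector, and a derivation not vanishing on it.
-/

set_option autoImplicit false

open Filter

namespace Pool.Agent.H774.FN

/-- the ultrapower of the complex numbers -/
abbrev UK : Type := Germ (hyperfilter ℕ : Filter ℕ) ℂ

/-- constants -/
noncomputable def cst : ℂ →+* UK := (Germ.coeRingHom (hyperfilter ℕ : Filter ℕ)).comp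
  (Pi.constRingHom ℕ ℂ)

/-- the class of a sequence -/
noncomputable def cl : (ℕ → ℂ) →+* UK := Germ.coeRingHom (hyperfilter ℕ : Filter ℕ)

theorem cst_eq (z : ℂ) : cst z = cl fun _ => z := rfl

theorem cl_eq {u v : ℕ → ℂ} : cl u = cl v ↔ ∀ᶠ n in (hyperfilter ℕ : Filter ℕ), u n = v n :=
  Germ.coe_eq

theorem cl_surj (z : UK) : ∃ u, cl u = z := Quot.exists_rep z

instance : CharZero UK := charZero_of_injective_ringHom (f := cst) cst.injective

/-- conjugation -/
noncomputable def ucj : UK →+* UK where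
  toFun := Germ.map (starRingEnd ℂ)
  map_one' := by
    have h : Germ.map (starRingEnd ℂ) (cl fun _ => 1) = cl fun _ => 1 := by
      change cl (fun _ => starRingEnd ℂ 1) = _
      simp
    exact h
  map_zero' := by
    have h : Germ.map (starRingEnd ℂ) (cl fun _ => 0) = cl fun _ => 0 := by
      change cl (fun _ => starRingEnd ℂ 0) = _
      simp
    exact h
  map_mul' a b := by
    obtain ⟨u, rfl⟩ := cl_surj a
    obtain ⟨v, rfl⟩ := cl_surj b
    rw [← map_mul]
    change cl (fun n => starRingEnd ℂ (u n * v n)) =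
      cl (fun n => starRingEnd ℂ (u n)) * cl (fun n => starRingEnd ℂ (v n))
    rw [← map_mul]
    congr 1
    funext n
    simp
  map_add' a b := by
    obtain ⟨u, rfl⟩ := cl_surj a
    obtain ⟨v, rfl⟩ := cl_surj b
    rw [← map_add]
    change cl (fun n => starRingEnd ℂ (u n + v n)) =
      cl (fun n => starRingEnd ℂ (u n)) + cl (fun n => starRingEnd ℂ (v n))
    rw [← map_add]
    congr 1
    funext n
    simp

theorem ucj_cl (u : ℕ → ℂ) : ucj (cl u) = cl fun n => starRingEnd ℂ (u n) := rfl

theorem ucj_ucj (z : UK) : ucj (ucj z) = z := by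
  obtain ⟨u, rfl⟩ := cl_surj z
  rw [ucj_cl, ucj_cl]
  congr 1
  funext n
  simp

theorem upos {ι : Type} [Fintype ι] (f : ι → UK) (h : ∑ g, f g * ucj (f g) = 0) (g : ι) :
    f g = 0 := by
  choose u hu using fun g => cl_surj (f g)
  have h1 : ∀ g, f g * ucj (f g) = cl fun n => u g n * starRingEnd ℂ (u g n) := fun g => by
    rw [← hu g, ucj_cl, ← map_mul]
    rfl
  simp only [h1] at h
  rw [← map_sum] at h
  have h2 : cl (∑ g, fun n => u g n * starRingEnd ℂ (u g n)) = cl 0 := by rw [h, map_zero]
  rw [cl_eq] at h2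
  have h3 : (0 : UK) = cl 0 := by rw [map_zero]
  rw [← hu g, h3, cl_eq]
  filter_upwards [h2] with n hn
  rw [Finset.sum_apply, Pi.zero_apply] at hn
  have h4 : ∑ g, ‖u g n‖ ^ 2 = 0 := by
    have h5 : ((∑ g, ‖u g n‖ ^ 2 : ℝ) : ℂ) = 0 := by
      rw [← hn]
      push_cast
      refine Finset.sum_congr rfl fun g _ => ?_
      rw [Complex.mul_conj, Complex.normSq_eq_norm_sq]
      push_cast
      rfl
    exact_mod_cast h5
  have h6 := (Finset.sum_eq_zero_iff_of_nonneg fun g _ => by positivity).1 h4 g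
    (Finset.mem_univ g)
  simpa using h6

theorem trans_of_not_const (t : UK) (ht : ∀ z : ℂ, t ≠ cst z) :
    letI : Algebra ℂ UK := cst.toAlgebra
    Transcendental ℂ t := by
  letI : Algebra ℂ UK := cst.toAlgebra
  intro halg
  have h1 : IsIntegral ℂ t := halg.isIntegral
  have h2 : (minpoly ℂ t).degree = 1 :=
    IsAlgClosed.degree_eq_one_of_irreducible ℂ (minpoly.irreducible h1)
  obtain ⟨z, hz⟩ := minpoly.mem_range_of_degree_eq_one ℂ t h2
  exact ht z hz.symm

theorem exists_der' (t : UK) (ht : ∀ z : ℂ, t ≠ cst z) :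
    ∃ D : UK → UK, (∀ a b, D (a + b) = D a + D b) ∧ (∀ a b, D (a * b) = a * D b + D a * b) ∧
      (∀ z, D (cst z) = 0) ∧ (∀ a, D (ucj a) = ucj (D a)) ∧ D t ≠ 0 := by
  letI : Algebra ℂ UK := cst.toAlgebra
  obtain ⟨D, h1, h2, h3, h4⟩ := exists_der (trans_of_not_const t ht)
  have h3' : ∀ z, D (cst z) = 0 := h3
  have hc : ∀ z, ucj (cst z) = cst (starRingEnd ℂ z) := fun z => rfl
  have hI : ucj (cst Complex.I) = - cst Complex.I := by
    rw [hc, Complex.conj_I, map_neg]
  by_cases h5 : D t + ucj (D (ucj t)) = 0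
  · refine ⟨fun z => cst Complex.I * (D z - ucj (D (ucj z))), fun a b => ?_, fun a b => ?_,
      fun z => ?_, fun a => ?_, ?_⟩
    · simp only [map_add, h1]
      ring
    · simp only [map_mul, h2, map_add, ucj_ucj]
      ring
    · simp only [hc, h3', map_zero, sub_zero, mul_zero]
    · simp only [map_mul, map_sub, ucj_ucj, hI]
      ring
    · have h6 : ucj (D (ucj t)) = -1 := by
        rw [h4] at h5
        linear_combination h5
      simp only [h4, h6]
      rw [sub_neg_eq_add]
      apply mul_ne_zero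
      · rw [Ne, map_eq_zero]
        exact Complex.I_ne_zero
      · norm_num
  · refine ⟨fun z => D z + ucj (D (ucj z)), fun a b => ?_, fun a b => ?_,
      fun z => ?_, fun a => ?_, h5⟩
    · simp only [map_add, h1]
      ring
    · simp only [map_mul, h2, map_add, ucj_ucj]
      ring
    · simp only [hc, h3', map_zero, add_zero]
    · simp only [map_add, ucj_ucj]
      ring

variable {d : ℕ} [NeZero d]

/-- the standard character over the ultrapower -/
noncomputable def uχ (d : ℕ) [NeZero d] : AddChar (ZMod d) UK :=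
  (cst : ℂ →* UK).compAddChar ZMod.stdAddChar

theorem uχ_apply (a : ZMod d) : uχ d a = cst (ZMod.stdAddChar a) := rfl

theorem uχ_prim : (uχ d).IsPrimitive := by
  intro a ha h
  apply ZMod.isPrimitive_stdAddChar d ha
  ext x
  have h1 := congrArg (fun ψ : AddChar (ZMod d) UK => ψ x) h
  simp only [AddChar.mulShift_apply, AddChar.one_apply, uχ_apply] at h1 ⊢
  exact cst.injective (by rw [h1, map_one])

theorem std_conj (a : ZMod d) : starRingEnd ℂ (ZMod.stdAddChar a : ℂ) = ZMod.stdAddChar (-a) := by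
  rw [AddChar.map_neg_eq_conj]

/-- a fiducial vector -/
def Fid (ψ : ZMod d → ℂ) : Prop :=
  ip (starRingEnd ℂ) ψ ψ = 1 ∧ ∀ g : GG d, g ≠ 0 → ((d : ℂ) + 1) *
    (H (starRingEnd ℂ) ZMod.stdAddChar ψ ψ g *
      starRingEnd ℂ (H (starRingEnd ℂ) ZMod.stdAddChar ψ ψ g)) = 1

theorem H_cl (u v : ℕ → ZMod d → ℂ) (g : GG d) :
    H ucj (uχ d) (fun j => cl fun n => u n j) (fun j => cl fun n => v n j) g =
      cl fun n => H (starRingEnd ℂ) ZMod.stdAddChar (u n) (v n) g := by
  unfold H
  have h1 : ∀ j, ucj (cl fun n => u n j) * uχ d (g.2 * j) * cl (fun n => v n (j - g.1)) =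
      cl fun n => starRingEnd ℂ (u n j) * ZMod.stdAddChar (g.2 * j) * v n (j - g.1) := fun j => by
    rw [ucj_cl, uχ_apply, cst_eq, ← map_mul, ← map_mul]
    rfl
  simp only [h1]
  rw [← map_sum]
  congr 1
  funext n
  rw [Finset.sum_apply]

theorem ip_cl (u v : ℕ → ZMod d → ℂ) :
    ip ucj (fun j => cl fun n => u n j) (fun j => cl fun n => v n j) =
      cl fun n => ip (starRingEnd ℂ) (u n) (v n) := by
  rw [← H_zero (χ := uχ d), H_cl]
  congr 1
  funext n
  rw [H_zero]

/-- there are no nonconstant fiducial vectors over fields with a derivation -/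
def Rigid (d : ℕ) [NeZero d] : Prop :=
  ∀ (K : Type) [Field K] [CharZero K] (S : Dat d K), S.n = 0

/-- **Finiteness.** -/
theorem finite_fid (hd : Rigid d) :
    {P : ZMod d → ZMod d → ℂ | ∃ ψ : ZMod d → ℂ, Fid ψ ∧
      P = fun i j => ψ i * starRingEnd ℂ (ψ j)}.Finite := by
  by_contra hinf
  rw [← Set.Infinite] at hinf
  set P := hinf.natEmbedding with hP
  choose ψ hψ hψP using fun n => (P n).2
  have hex : ∃ i j, ∀ z : ℂ, (cl fun n => ψ n i * starRingEnd ℂ (ψ n j)) ≠ cst z := by
    by_contra hcon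
    push Not at hcon
    choose z hz using hcon
    have h1 : ∀ᶠ n in (hyperfilter ℕ : Filter ℕ), ∀ i j, ψ n i * starRingEnd ℂ (ψ n j) = z i j := by
      rw [eventually_all]
      intro i
      rw [eventually_all]
      intro j
      exact cl_eq.1 (hz i j)
    have h2 : {n | ∀ i j, ψ n i * starRingEnd ℂ (ψ n j) = z i j}.Finite := by
      apply Set.Subsingleton.finite
      intro a ha b hb
      apply P.injective
      apply Subtype.ext
      rw [hψP a, hψP b]
      funext i j
      exact (ha i j).trans (hb i j).symm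
    exact notMem_hyperfilter_of_finite h2 h1
  obtain ⟨i, j, hij⟩ := hex
  obtain ⟨D, hD1, hD2, hD3, hD4, hD5⟩ := exists_der' _ hij
  let S : Dat d UK :=
    { cj := ucj
      χ := uχ d
      D := D
      x := fun j => cl fun n => ψ n j
      prim := uχ_prim
      cjcj := ucj_ucj
      cjχ := fun a => by
        rw [uχ_apply, uχ_apply, ← std_conj]
        rfl
      Dadd := hD1
      Dmul := hD2
      Dcj := hD4
      Dχ := fun a => hD3 _
      pos := fun f hf => upos f hf
      norm := by
        rw [ip_cl]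
        have h1 : (fun n => ip (starRingEnd ℂ) (ψ n) (ψ n)) = 1 := by
          funext n
          exact (hψ n).1
        rw [h1, map_one]
      sic := fun g hg => by
        rw [H_cl, ucj_cl]
        have h1 : ((d : UK) + 1) = cl fun _ => (d : ℂ) + 1 := by
          rw [← cst_eq]
          simp
        rw [h1, ← map_mul, ← map_mul]
        have h2 : ((fun _ => (d : ℂ) + 1) *
            ((fun n => H (starRingEnd ℂ) ZMod.stdAddChar (ψ n) (ψ n) g) *
              fun n => starRingEnd ℂ (H (starRingEnd ℂ) ZMod.stdAddChar (ψ n) (ψ n) g))) = 1 := by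
          funext n
          exact (hψ n).2 g hg
        rw [h2, map_one] }
  have hn : S.n = 0 := hd UK S
  have hY : ∀ k, S.Y k = 0 := by
    intro k
    have h1 : ∑ g, ucj (S.Y g) * ucj (ucj (S.Y g)) = 0 := by
      rw [← hn]
      unfold Dat.n ip
      refine Finset.sum_congr rfl fun g _ => ?_
      rw [ucj_ucj]
    have h2 := upos (fun k => ucj (S.Y k)) h1 k
    exact (map_eq_zero ucj).1 h2
  have hDx : ∀ k, D (S.x k) = S.θ * S.x k := by
    intro k
    have h1 : D (S.x k) = 1 * S.Y k + S.θ * S.x k := congrFun S.Dx k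
    rw [h1, hY]
    ring
  apply hD5
  have h1 : (cl fun n => ψ n i * starRingEnd ℂ (ψ n j)) = S.x i * ucj (S.x j) := by
    change _ = (cl fun n => ψ n i) * ucj (cl fun n => ψ n j)
    rw [ucj_cl, ← map_mul]
    rfl
  rw [h1, hD2, hD4, hDx, hDx, map_mul]
  have h2 : ucj S.θ = - S.θ := S.θ_cj
  rw [h2]
  ring

end Pool.Agent.H774.FN
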